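import Mathlib

/-!
# MP_9667ca_an (all dimensions), module CAR: annihilation operators

`car n i` is the annihilation operator on functions on `Finset (Fin n)`: it sends `δ_T` to
`(-1)^{#{j ∈ T : j < i}} δ_{T \ i}` if `i ∈ T` and to `0` otherwise; in matrix form
`car n i S T = (-1)^{#{j ∈ T : j < i}}` if `i ∈ T` and `S = T.erase i`, else `0`.

* `car_norm_le`: with `C = ∑ x_i c_i`, `C† C + C C† = (∑ |x_i|²) 1` (canonical anticommutation relations
  `c_i c_j† + c_j† c_i = δ_ij`), so `‖C v‖² ≤ (∑ |x_i|²) ‖v‖²` for every vector `v`, so the operator norm is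
  at most `√(∑ |x_i|²)`.
  The relations: with `s(i,T) = (-1)^{#{j ∈ T : j < i}}`, `c_i δ_T = s(i,T) δ_{T\i}` (`i ∈ T`) and
  `c_j† δ_T = s(j,T) δ_{T ∪ j}` (`j ∉ T`; note `s(j, T ∪ j) = s(j, T)`). `i = j`: on `δ_T` exactly one of
  `c_i c_i†`, `c_i† c_i` is the identity and the other is zero. `i ≠ j`: both products vanish on
  `δ_T` unless `i ∈ T`, `j ∉ T`, and then the coefficients of `δ_{(T ∪ j) \ i}` are
  `s(j,T) s(i,T ∪ j) = s(j,T) s(i,T) (-1)^{[j<i]}` and `s(i,T) s(j,T \ i) = s(i,T) s(j,T) (-1)^{[i<j]}`, of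
  sum zero.
  (An alternative is induction on `n`: `C_{n+1}(x, t) = [[C_n(x), t], [0, -C_n(x)]]` in a suitable basis.)
* `car_tensor`: `(c_i g c_iᵀ) S S' = ∑_{T, card T = k} c_i S T * c_i S' T` is `1` if `S = S'`, `i ∉ S`,
  `card S + 1 = k` (only `T = insert i S` contributes) and `0` otherwise; sum over the `n - (k - 1)` elements
  `i ∉ S`.
-/

namespace Pool.MinMax.Odd

open scoped Matrix.Norms.L2Operator

/-- The annihilation operators. -/
noncomputable def car (n : ℕ) (i : Fin n) : Matrix (Finset (Fin n)) (Finset (Fin n)) ℂ :=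
  fun S T => if i ∈ T ∧ S = T.erase i then (-1) ^ (T.filter (fun j => j < i)).card else 0

/-- The projection to the sets with `k` elements. -/
noncomputable def lev (n k : ℕ) : Matrix (Finset (Fin n)) (Finset (Fin n)) ℂ :=
  Matrix.diagonal fun S => if S.card = k then 1 else 0

/-- The sign. -/
private noncomputable def carSg {n : ℕ} (S : Finset (Fin n)) (i : Fin n) : ℂ :=
  (-1) ^ (S.filter (fun j => j < i)).card

private theorem car_sg_sq {n : ℕ} (S : Finset (Fin n)) (i : Fin n) : carSg S i * carSg S i = 1 := by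
  unfold carSg
  rw [← mul_pow]
  norm_num

private theorem car_sg_star {n : ℕ} (S : Finset (Fin n)) (i : Fin n) :
    star (carSg S i) = carSg S i := by
  unfold carSg
  simp

private theorem car_sg_insert_self {n : ℕ} (S : Finset (Fin n)) (i : Fin n) :
    carSg (insert i S) i = carSg S i := by
  unfold carSg
  rw [Finset.filter_insert, if_neg (lt_irrefl i)]

private theorem car_sg_insert {n : ℕ} (S : Finset (Fin n)) (i j : Fin n) (hj : j ∉ S) :
    carSg (insert j S) i = if j < i then -carSg S i else carSg S i := by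
  unfold carSg
  rw [Finset.filter_insert]
  by_cases h : j < i
  · rw [if_pos h, if_pos h, Finset.card_insert_of_notMem, pow_succ]
    · ring
    · intro hmem
      exact hj (Finset.mem_filter.1 hmem).1
  · rw [if_neg h, if_neg h]

private theorem car_apply {n : ℕ} (i : Fin n) (S T : Finset (Fin n)) :
    car n i S T = if i ∈ T ∧ S = T.erase i then carSg T i else 0 := rfl

private theorem car_apply' {n : ℕ} (i : Fin n) (S T : Finset (Fin n)) :
    car n i S T = if i ∉ S ∧ T = insert i S then carSg S i else 0 := by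
  rw [car_apply]
  by_cases h : i ∈ T ∧ S = T.erase i
  · obtain ⟨h1, h2⟩ := h
    have h3 : i ∉ S := by
      rw [h2]
      exact Finset.notMem_erase i T
    have h4 : T = insert i S := by
      rw [h2, Finset.insert_erase h1]
    rw [if_pos ⟨h1, h2⟩, if_pos ⟨h3, h4⟩, h4, car_sg_insert_self]
  · rw [if_neg h, if_neg]
    rintro ⟨h1, h2⟩
    apply h
    rw [h2]
    exact ⟨Finset.mem_insert_self i S, (Finset.erase_insert h1).symm⟩

open Matrix in
private theorem car_mul_star {n : ℕ} (i j : Fin n) (S S' : Finset (Fin n)) :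
    (car n i * (car n j)ᴴ) S S' =
      if i ∉ S then carSg S i * star (car n j S' (insert i S)) else 0 := by
  rw [Matrix.mul_apply]
  by_cases hi : i ∉ S
  · rw [if_pos hi, Finset.sum_eq_single (insert i S)]
    · rw [car_apply' i S, if_pos ⟨hi, rfl⟩, Matrix.conjTranspose_apply]
    · intro T _ hT
      rw [car_apply' i S, if_neg (fun h => hT h.2), zero_mul]
    · intro h
      exact absurd (Finset.mem_univ _) h
  · rw [if_neg hi]
    refine Finset.sum_eq_zero fun T _ => ?_
    rw [car_apply' i S, if_neg (fun h => hi h.1), zero_mul]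

open Matrix in
private theorem car_star_mul {n : ℕ} (i j : Fin n) (S S' : Finset (Fin n)) :
    ((car n j)ᴴ * car n i) S S' =
      if j ∈ S then carSg S j * car n i (S.erase j) S' else 0 := by
  rw [Matrix.mul_apply]
  by_cases hj : j ∈ S
  · rw [if_pos hj, Finset.sum_eq_single (S.erase j)]
    · rw [Matrix.conjTranspose_apply, car_apply j (S.erase j) S, if_pos ⟨hj, rfl⟩, car_sg_star]
    · intro T _ hT
      rw [Matrix.conjTranspose_apply, car_apply j T S, if_neg (fun h => hT h.2), star_zero, zero_mul]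
    · intro h
      exact absurd (Finset.mem_univ _) h
  · rw [if_neg hj]
    refine Finset.sum_eq_zero fun T _ => ?_
    rw [Matrix.conjTranspose_apply, car_apply j T S, if_neg (fun h => hj h.1), star_zero, zero_mul]

open Matrix in
/-- The canonical anticommutation relations. -/
private theorem car_rel {n : ℕ} (i j : Fin n) :
    car n i * (car n j)ᴴ + (car n j)ᴴ * car n i =
      if i = j then (1 : Matrix (Finset (Fin n)) (Finset (Fin n)) ℂ) else 0 := by
  ext S S'
  rw [Matrix.add_apply, car_mul_star, car_star_mul]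
  by_cases hij : i = j
  · subst hij
    rw [if_pos rfl, Matrix.one_apply]
    by_cases hi : i ∈ S
    · rw [if_neg (not_not.2 hi), if_pos hi, zero_add, car_apply', Finset.insert_erase hi]
      by_cases hS : S = S'
      · rw [if_pos hS, if_pos ⟨Finset.notMem_erase i S, hS.symm⟩]
        have h1 : carSg S i = carSg (S.erase i) i := by
          conv_lhs => rw [← Finset.insert_erase hi]
          exact car_sg_insert_self _ _
        rw [h1, car_sg_sq]
      · rw [if_neg hS, if_neg (fun h => hS h.2.symm), mul_zero]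
    · rw [if_pos hi, if_neg hi, add_zero, car_apply, Finset.erase_insert hi]
      by_cases hS : S = S'
      · rw [if_pos hS, if_pos ⟨Finset.mem_insert_self i S, hS.symm⟩, car_sg_star,
          car_sg_insert_self, car_sg_sq]
      · rw [if_neg hS, if_neg (fun h => hS h.2.symm), star_zero, mul_zero]
  · rw [if_neg hij, Matrix.zero_apply, car_apply j S', car_apply' i (S.erase j) S']
    by_cases hc : i ∉ S ∧ j ∈ S ∧ S' = insert i (S.erase j)
    · obtain ⟨h1, h2, h3⟩ := hc
      have h4 : (insert i S).erase j = insert i (S.erase j) := Finset.erase_insert_of_ne hij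
      have h5 : i ∉ S.erase j := fun h => h1 (Finset.mem_of_mem_erase h)
      rw [if_pos h1, if_pos h2, if_pos ⟨Finset.mem_insert_of_mem h2, by rw [h4]; exact h3⟩,
        if_pos ⟨h5, h3⟩, car_sg_star, car_sg_insert S j i h1]
      have h6 : carSg S i = if j < i then -carSg (S.erase j) i else carSg (S.erase j) i := by
        conv_lhs => rw [← Finset.insert_erase h2]
        exact car_sg_insert _ _ _ (Finset.notMem_erase j S)
      rw [h6]
      rcases lt_or_gt_of_ne hij with h | h
      · rw [if_neg (not_lt.2 h.le), if_pos h]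
        ring
      · rw [if_pos h, if_neg (not_lt.2 h.le)]
        ring
    · have h1 : (if i ∉ S then carSg S i * star (if j ∈ insert i S ∧ S' = (insert i S).erase j then
          carSg (insert i S) j else 0) else 0) = 0 := by
        by_cases hi : i ∉ S
        · rw [if_pos hi, if_neg, star_zero, mul_zero]
          rintro ⟨h2, h3⟩
          rw [Finset.erase_insert_of_ne hij] at h3
          exact hc ⟨hi, (Finset.mem_insert.1 h2).resolve_left (fun h => hij h.symm), h3⟩
        · rw [if_neg hi]
      have h2 : (if j ∈ S then carSg S j * (if i ∉ S.erase j ∧ S' = insert i (S.erase j) then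
          carSg (S.erase j) i else 0) else 0) = 0 := by
        by_cases hj : j ∈ S
        · rw [if_pos hj, if_neg, mul_zero]
          rintro ⟨h2, h3⟩
          exact hc ⟨fun h => h2 (Finset.mem_erase.2 ⟨hij, h⟩), hj, h3⟩
        · rw [if_neg hj]
      rw [h1, h2, add_zero]

open Matrix in
private theorem car_sum_rel {n : ℕ} (x : Fin n → ℂ) :
    (∑ i, x i • car n i) * (∑ i, x i • car n i)ᴴ + (∑ i, x i • car n i)ᴴ * (∑ i, x i • car n i) =
      ((∑ i, ‖x i‖ ^ 2 : ℝ) : ℂ) • (1 : Matrix (Finset (Fin n)) (Finset (Fin n)) ℂ) := by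
  rw [Matrix.conjTranspose_sum, Finset.sum_mul_sum, Finset.sum_mul_sum]
  have h1 : ∑ j, ∑ i, (x j • car n j)ᴴ * (x i • car n i) =
      ∑ i, ∑ j, (x j • car n j)ᴴ * (x i • car n i) := Finset.sum_comm
  rw [h1, ← Finset.sum_add_distrib]
  have h2 : ∀ i, ∑ j, (x i • car n i) * (x j • car n j)ᴴ + ∑ j, (x j • car n j)ᴴ * (x i • car n i) =
      ((‖x i‖ ^ 2 : ℝ) : ℂ) • (1 : Matrix (Finset (Fin n)) (Finset (Fin n)) ℂ) := by
    intro i
    rw [← Finset.sum_add_distrib]
    have h3 : ∀ j, (x i • car n i) * (x j • car n j)ᴴ + (x j • car n j)ᴴ * (x i • car n i) =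
        if i = j then (x i * star (x j)) •
          (1 : Matrix (Finset (Fin n)) (Finset (Fin n)) ℂ) else 0 := by
      intro j
      rw [Matrix.conjTranspose_smul, Matrix.smul_mul, Matrix.mul_smul, Matrix.smul_mul,
        Matrix.mul_smul, smul_smul, smul_smul, mul_comm (star (x j)) (x i), ← smul_add, car_rel]
      by_cases hij : i = j
      · rw [if_pos hij, if_pos hij]
      · rw [if_neg hij, if_neg hij, smul_zero]
    simp only [h3]
    rw [Finset.sum_ite_eq Finset.univ i, if_pos (Finset.mem_univ i)]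
    congr 1
    rw [Complex.star_def, Complex.mul_conj, Complex.normSq_eq_norm_sq]
  simp only [h2]
  rw [← Finset.sum_smul, Complex.ofReal_sum]

open Matrix in
theorem car_norm_le (n : ℕ) (x : Fin n → ℂ) :
    ‖∑ i, x i • car n i‖ ≤ √(∑ i, ‖x i‖ ^ 2) := by
  set C := ∑ i, x i • car n i with hC
  set r : ℝ := ∑ i, ‖x i‖ ^ 2 with hr
  have hr0 : 0 ≤ r := Finset.sum_nonneg fun i _ => by positivity
  have hrel := car_sum_rel x
  rw [← hC, ← hr] at hrel
  set T := Matrix.toEuclideanCLM (n := Finset (Fin n)) (𝕜 := ℂ) C with hT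
  have hTrel : T * star T + star T * T = (r : ℂ) • 1 := by
    rw [hT, ← map_star, ← map_mul, ← map_mul, ← map_add, Matrix.star_eq_conjTranspose, hrel,
      map_smul, map_one]
  rw [← Matrix.l2_opNorm_toEuclideanCLM]
  change ‖T‖ ≤ √r
  refine ContinuousLinearMap.opNorm_le_bound _ (Real.sqrt_nonneg _) fun v => ?_
  have h1 := congrArg (fun S : (EuclideanSpace ℂ (Finset (Fin n))) →L[ℂ]
    (EuclideanSpace ℂ (Finset (Fin n))) => (inner ℂ v (S v) : ℂ).re) hTrel
  simp only [ContinuousLinearMap.add_apply, inner_add_right, Complex.add_re] at h1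
  have h2 : (inner ℂ v (T (star T v)) : ℂ).re = ‖star T v‖ ^ 2 := by
    have h3 : (inner ℂ v (T (star T v)) : ℂ) = inner ℂ (star T v) (star T v) := by
      rw [ContinuousLinearMap.star_eq_adjoint, ← ContinuousLinearMap.adjoint_inner_left]
    rw [h3]
    exact inner_self_eq_norm_sq (𝕜 := ℂ) _
  have h3 : (inner ℂ v (star T (T v)) : ℂ).re = ‖T v‖ ^ 2 := by
    rw [ContinuousLinearMap.star_eq_adjoint, ContinuousLinearMap.adjoint_inner_right]
    exact inner_self_eq_norm_sq (𝕜 := ℂ) _
  have h4 : (inner ℂ v (((r : ℂ) • (1 : (EuclideanSpace ℂ (Finset (Fin n))) →L[ℂ]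
      (EuclideanSpace ℂ (Finset (Fin n))))) v) : ℂ).re = r * ‖v‖ ^ 2 := by
    rw [ContinuousLinearMap.smul_apply, ContinuousLinearMap.one_apply, inner_smul_right,
      Complex.re_ofReal_mul]
    congr 1
    exact inner_self_eq_norm_sq (𝕜 := ℂ) _
  change (inner ℂ v (T (star T v)) : ℂ).re + (inner ℂ v (star T (T v)) : ℂ).re = _ at h1
  rw [h2, h3, h4] at h1
  have h5 : ‖T v‖ ^ 2 ≤ r * ‖v‖ ^ 2 := by
    have := sq_nonneg ‖star T v‖
    linarith
  have h6 : ‖T v‖ ^ 2 ≤ (√r * ‖v‖) ^ 2 := by
    rw [mul_pow, Real.sq_sqrt hr0]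
    exact h5
  exact (sq_le_sq₀ (norm_nonneg _) (by positivity)).1 h6

theorem car_tensor (n k : ℕ) (hk : 1 ≤ k) (hkn : k ≤ n) :
    ∑ i, car n i * lev n k * (car n i).transpose = ((n - k + 1 : ℕ) : ℂ) • lev n (k - 1) := by
  ext S S'
  rw [Matrix.sum_apply, Matrix.smul_apply]
  have h1 : ∀ i, (car n i * lev n k * (car n i).transpose) S S' =
      if S = S' ∧ S.card = k - 1 then (if i ∉ S then (1 : ℂ) else 0) else 0 := by
    intro i
    rw [Matrix.mul_apply]
    unfold lev
    simp only [Matrix.mul_diagonal, Matrix.transpose_apply]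
    by_cases hi : i ∉ S
    · rw [Finset.sum_eq_single (insert i S)]
      · rw [car_apply' i S, if_pos ⟨hi, rfl⟩, Finset.card_insert_of_notMem hi, if_pos hi,
          car_apply i S', Finset.erase_insert hi, car_sg_insert_self]
        by_cases hc : S = S' ∧ S.card = k - 1
        · rw [if_pos hc, if_pos (by omega), if_pos ⟨Finset.mem_insert_self i S, hc.1.symm⟩,
            mul_one, car_sg_sq]
        · rw [if_neg hc]
          by_cases h2 : S = S'
          · rw [if_neg (fun h => hc ⟨h2, by omega⟩), mul_zero, zero_mul]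
          · rw [if_neg (fun h : i ∈ insert i S ∧ S' = S => h2 h.2.symm), mul_zero]
      · intro T _ hT
        rw [car_apply' i S, if_neg (fun h => hT h.2), zero_mul, zero_mul]
      · intro h
        exact absurd (Finset.mem_univ _) h
    · have h2 : ∀ T, car n i S T = 0 := fun T => by
        rw [car_apply' i S, if_neg (fun h => hi h.1)]
      simp only [h2, zero_mul, Finset.sum_const_zero, if_neg hi, ite_self]
  simp only [h1]
  unfold lev
  by_cases hc : S = S' ∧ S.card = k - 1
  · obtain ⟨hS, hcard⟩ := hc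
    subst hS
    simp only [hcard, and_self, if_true]
    rw [Matrix.diagonal_apply_eq, if_pos hcard, Finset.sum_boole, smul_eq_mul, mul_one]
    congr 1
    have h2 : (Finset.univ.filter fun i => i ∉ S) = Sᶜ := by
      ext i
      simp
    rw [h2, Finset.card_compl, Fintype.card_fin, hcard]
    omega
  · simp only [if_neg hc, Finset.sum_const_zero]
    by_cases hS : S = S'
    · subst hS
      rw [Matrix.diagonal_apply_eq, if_neg (fun h => hc ⟨rfl, h⟩), smul_zero]
    · rw [Matrix.diagonal_apply_ne _ hS, smul_zero]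

end Pool.MinMax.Odd
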