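import Pool.Agent.Work.MP_9667ca_an.Space

/-!
# MP_9667ca_an (all dimensions), module LOWEROF: lower bounds for `α(ℓ₂ⁿ)` from matrices

`E` is isometric to `ℓ₂ⁿ` through `e`, `C_1, …, C_n` are `ι × ι` matrices with `‖∑ x_i C_i‖ ≤ ‖x‖₂`, and
`g ≠ 0` is an `ι × ι` matrix with `r² ‖g‖₂² ≤ ‖∑ C_i g C_iᵀ‖₂²` (Hilbert–Schmidt norms). Then `r ≤ α(E)`.

Proof (compare `Lower.lean`, the case `n = 2`). Let `m = card ι ≥ 1` (`g ≠ 0`, so `ι` is nonempty) and
`σ : Fin m ≃ ι`. `f_k = e.symm (EuclideanSpace.single k 1)`, `X i j = ∑ k, C k (σ i) (σ j) • f_k`.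
`minNorm X ≤ 1`: for `‖ξ‖ ≤ 1`, `X.map ξ` is the reindexed matrix `∑ ξ(f_k) C_k`, of norm
`≤ √(∑ |ξ f_k|²) ≤ ‖ξ‖ ≤ 1` (evaluate `ξ` at `∑ conj (ξ f_k) • f_k`, of norm `√(∑ |ξ f_k|²)`; the operator
norm is invariant under reindexing: `Matrix.l2_opNorm_...` or directly by the action on vectors).
`H = EuclideanSpace ℂ (ULift.{v} ι)`, `u(x)` the operator of the matrix `∑ (e x) k • C k` (reindexed by
`ULift`), `‖u(x)‖ ≤ ‖e x‖ = ‖x‖` (build `u` with `LinearMap.mkContinuous₂` as in `Lower.lean`).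
The test vector `G ∈ PiLp 2 (fun _ : Fin m => H)`, `(G j) s = g s (σ j)`; `‖G‖² = ∑ |g s t|²`.
`(blockOp (X.map u) G i) s = ∑_j ∑_k C_k (σ i) (σ j) ∑_t C_k s t g t (σ j) = (∑_k C_k g C_kᵀ) s (σ i)`, so
`‖blockOp (X.map u) G‖² = ∑ |(∑ C_k g C_kᵀ) s t|² ≥ r² ‖G‖²` and `‖blockOp (X.map u)‖ ≥ r`.
-/

namespace Pool.MinMax.Odd

open scoped ComplexConjugate ENNReal Matrix.Norms.L2Operator

universe u v

private theorem lowerof_reindex {κ ι : Type*} [Fintype κ] [DecidableEq κ] [Fintype ι]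
    [DecidableEq ι] (σ : κ ≃ ι) (A : Matrix ι ι ℂ) : ‖A.submatrix σ σ‖ ≤ ‖A‖ := by
  rw [← Matrix.l2_opNorm_toEuclideanCLM]
  refine ContinuousLinearMap.opNorm_le_bound _ (norm_nonneg _) fun v => ?_
  set v' : EuclideanSpace ℂ ι := WithLp.toLp 2 (fun s => v (σ.symm s)) with hv'
  have h1 : ‖v'‖ = ‖v‖ := by
    rw [EuclideanSpace.norm_eq, EuclideanSpace.norm_eq]
    congr 1
    exact Equiv.sum_comp σ.symm (fun k => ‖v k‖ ^ 2)
  have h2 : ‖Matrix.toEuclideanCLM (n := κ) (𝕜 := ℂ) (A.submatrix σ σ) v‖ =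
      ‖Matrix.toEuclideanCLM (n := ι) (𝕜 := ℂ) A v'‖ := by
    rw [EuclideanSpace.norm_eq, EuclideanSpace.norm_eq]
    congr 1
    rw [← Equiv.sum_comp σ]
    refine Finset.sum_congr rfl fun k _ => ?_
    congr 2
    rw [Matrix.ofLp_toEuclideanCLM, Matrix.ofLp_toEuclideanCLM, Matrix.mulVec, Matrix.mulVec,
      dotProduct, dotProduct, ← Equiv.sum_comp σ]
    refine Finset.sum_congr rfl fun j _ => ?_
    rw [Matrix.submatrix_apply, hv']
    simp
  rw [h2, ← h1, ← Matrix.l2_opNorm_toEuclideanCLM A]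
  exact ContinuousLinearMap.le_opNorm _ _

private theorem lowerof_blockOp {H : Type v} [NormedAddCommGroup H] [InnerProductSpace ℂ H] {m : ℕ}
    (T : Matrix (Fin m) (Fin m) (H →L[ℂ] H)) (h : PiLp 2 (fun _ : Fin m => H)) (i : Fin m) :
    blockOp T h i = ∑ j, T i j (h j) := by
  simp [blockOp]

theorem lower_of {E : Type u} [NormedAddCommGroup E] [NormedSpace ℂ E] {n : ℕ}
    (e : E ≃ₗᵢ[ℂ] EuclideanSpace ℂ (Fin n)) {ι : Type} [Fintype ι] [DecidableEq ι]
    (C : Fin n → Matrix ι ι ℂ)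
    (hC : ∀ x : Fin n → ℂ, ‖∑ i, x i • C i‖ ≤ √(∑ i, ‖x i‖ ^ 2))
    (g : Matrix ι ι ℂ) (hg : g ≠ 0) {r : ℝ} (hr : 0 ≤ r)
    (h : r ^ 2 * ∑ s, ∑ t, ‖g s t‖ ^ 2 ≤
      ∑ s, ∑ t, ‖(∑ i, C i * g * (C i).transpose) s t‖ ^ 2) :
    ENNReal.ofReal r ≤ alpha.{u, v} E := by
  set m := Fintype.card ι with hm
  have hne : Nonempty ι := by
    by_contra hcon
    have h0 : IsEmpty ι := not_nonempty_iff.1 hcon
    apply hg
    ext s
    exact (h0.false s).elim
  have hm1 : 1 ≤ m := Fintype.card_pos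
  let σ : Fin m ≃ ι := (Fintype.equivFin ι).symm
  set f : Fin n → E := fun k => e.symm (EuclideanSpace.single k 1) with hf
  have hef : ∀ k, e (f k) = EuclideanSpace.single k 1 := fun k => e.apply_symm_apply _
  set X : Matrix (Fin m) (Fin m) E := Matrix.of fun i j => ∑ k, C k (σ i) (σ j) • f k with hX
  have heX : ∀ i j k, (e (X i j)) k = C k (σ i) (σ j) := by
    intro i j k
    have h1 : X i j = ∑ k, C k (σ i) (σ j) • f k := rfl
    rw [h1, map_sum]
    simp only [map_smul, hef]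
    simp [Finset.sum_apply, Pi.single_apply]
  have hmin : minNorm X ≤ 1 := by
    refine iSup₂_le fun ξ hξ => ?_
    rw [ENNReal.ofReal_le_one]
    set a : Fin n → ℂ := fun k => ξ (f k) with ha
    have h0 : X.map ξ = (∑ k, a k • C k).submatrix σ σ := by
      ext i j
      have h1 : X i j = ∑ k, C k (σ i) (σ j) • f k := rfl
      rw [Matrix.map_apply, h1, map_sum, Matrix.submatrix_apply, Matrix.sum_apply]
      refine Finset.sum_congr rfl fun k _ => ?_
      rw [map_smul, Matrix.smul_apply, smul_eq_mul, smul_eq_mul, mul_comm]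
    rw [h0]
    refine (lowerof_reindex σ _).trans ((hC a).trans ?_)
    set S : ℝ := ∑ k, ‖a k‖ ^ 2 with hS
    have hS0 : 0 ≤ S := Finset.sum_nonneg fun k _ => by positivity
    have h1 : ξ (∑ k, conj (a k) • f k) = (S : ℂ) := by
      rw [map_sum, hS, Complex.ofReal_sum]
      refine Finset.sum_congr rfl fun k _ => ?_
      rw [map_smul, smul_eq_mul]
      change conj (a k) * a k = _
      rw [mul_comm, Complex.mul_conj, Complex.normSq_eq_norm_sq]
    have h2 : ‖∑ k, conj (a k) • f k‖ = √S := by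
      rw [← e.norm_map, map_sum]
      simp only [map_smul, hef]
      rw [EuclideanSpace.norm_eq]
      congr 1
      refine Finset.sum_congr rfl fun k _ => ?_
      congr 1
      have h3 : (∑ x, conj (a x) • (EuclideanSpace.single x 1 : EuclideanSpace ℂ (Fin n))) k =
          conj (a k) := by
        simp [Finset.sum_apply, Pi.single_apply]
      rw [h3]
      exact RCLike.norm_conj (a k)
    have h3 := ξ.le_opNorm (∑ k, conj (a k) • f k)
    rw [h1, h2, Complex.norm_real, Real.norm_of_nonneg hS0] at h3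
    have h4 : S ≤ √S := h3.trans (mul_le_of_le_one_left (Real.sqrt_nonneg _) hξ)
    have h5 : √S * √S = S := Real.mul_self_sqrt hS0
    by_contra hcon
    push Not at hcon
    nlinarith
  -- the map w
  let H := EuclideanSpace ℂ (ULift.{v} ι)
  let T : Fin n → (H →L[ℂ] H) := fun k =>
    Matrix.toEuclideanCLM (n := ULift.{v} ι) (𝕜 := ℂ) ((C k).submatrix Equiv.ulift Equiv.ulift)
  let w : E →L[ℂ] (H →L[ℂ] H) := ∑ k, ((EuclideanSpace.proj k : EuclideanSpace ℂ (Fin n) →L[ℂ] ℂ) ∘L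
    (e.toContinuousLinearEquiv : E →L[ℂ] EuclideanSpace ℂ (Fin n))).smulRight (T k)
  have hwa : ∀ x, w x = ∑ k, (e x) k • T k := by
    intro x
    simp only [w, ContinuousLinearMap.sum_apply]
    rfl
  have hwn : ‖w‖ ≤ 1 := by
    refine ContinuousLinearMap.opNorm_le_bound _ zero_le_one fun x => ?_
    rw [one_mul, hwa]
    have h1 : ∑ k, (e x) k • T k = Matrix.toEuclideanCLM (n := ULift.{v} ι) (𝕜 := ℂ)
        ((∑ k, (e x) k • C k).submatrix Equiv.ulift Equiv.ulift) := by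
      have h2 : (∑ k, (e x) k • C k).submatrix (Equiv.ulift : ULift.{v} ι ≃ ι)
          (Equiv.ulift : ULift.{v} ι ≃ ι) =
          ∑ k, (e x) k • (C k).submatrix (Equiv.ulift : ULift.{v} ι ≃ ι)
            (Equiv.ulift : ULift.{v} ι ≃ ι) := by
        ext s t
        simp [Matrix.sum_apply]
      rw [h2, map_sum]
      simp only [map_smul]
      rfl
    rw [h1, Matrix.l2_opNorm_toEuclideanCLM]
    refine (lowerof_reindex _ _).trans ((hC _).trans (le_of_eq ?_))
    rw [← e.norm_map x, EuclideanSpace.norm_eq]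
  have hTa : ∀ k (y : H) s, (T k y) s = ∑ t, C k s.down t * y ⟨t⟩ := by
    intro k y s
    have h1 : (T k y) s = (((C k).submatrix (Equiv.ulift : ULift.{v} ι ≃ ι)
      (Equiv.ulift : ULift.{v} ι ≃ ι)).mulVec y) s := by
      simp only [T]
      rw [Matrix.ofLp_toEuclideanCLM]
    rw [h1, Matrix.mulVec, dotProduct, ← Equiv.sum_comp (Equiv.ulift.symm : ι ≃ ULift.{v} ι)]
    rfl
  -- the test vector
  set G : PiLp 2 (fun _ : Fin m => H) :=
    WithLp.toLp 2 (fun j => (WithLp.toLp 2 (fun s => g s.down (σ j)) : H)) with hG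
  have hGa : ∀ j s, (G j) s = g s.down (σ j) := fun j s => rfl
  have hsum : ∀ A : Matrix ι ι ℂ, ∑ j : Fin m, ∑ s : ULift.{v} ι, ‖A s.down (σ j)‖ ^ 2 =
      ∑ s, ∑ t, ‖A s t‖ ^ 2 := by
    intro A
    rw [Finset.sum_comm, ← Equiv.sum_comp (Equiv.ulift.symm : ι ≃ ULift.{v} ι)]
    refine Finset.sum_congr rfl fun s _ => ?_
    exact Equiv.sum_comp σ (fun t => ‖A s t‖ ^ 2)
  have hGn : ‖G‖ ^ 2 = ∑ s, ∑ t, ‖g s t‖ ^ 2 := by
    rw [PiLp.norm_sq_eq_of_L2, ← hsum]
    refine Finset.sum_congr rfl fun j _ => ?_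
    rw [EuclideanSpace.norm_sq_eq]
  have hB : ∀ i s, (blockOp (X.map w) G i) s =
      (∑ k, C k * g * (C k).transpose) s.down (σ i) := by
    intro i s
    rw [lowerof_blockOp, WithLp.ofLp_sum, Finset.sum_apply, Matrix.sum_apply]
    have h1 : ∀ j, ((X.map w) i j (G j)) s =
        ∑ k, C k (σ i) (σ j) * ∑ t, C k s.down t * g t (σ j) := by
      intro j
      rw [Matrix.map_apply, hwa, ContinuousLinearMap.sum_apply, WithLp.ofLp_sum, Finset.sum_apply]
      refine Finset.sum_congr rfl fun k _ => ?_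
      rw [ContinuousLinearMap.smul_apply, PiLp.smul_apply, heX, smul_eq_mul, hTa]
    rw [Finset.sum_congr rfl fun j _ => h1 j, Finset.sum_comm]
    refine Finset.sum_congr rfl fun k _ => ?_
    rw [Matrix.mul_apply, ← Equiv.sum_comp σ]
    refine Finset.sum_congr rfl fun j _ => ?_
    rw [Matrix.mul_apply, Matrix.transpose_apply, mul_comm]
  have hBn : ‖blockOp (X.map w) G‖ ^ 2 =
      ∑ s, ∑ t, ‖(∑ k, C k * g * (C k).transpose) s t‖ ^ 2 := by
    rw [PiLp.norm_sq_eq_of_L2, ← hsum]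
    refine Finset.sum_congr rfl fun j _ => ?_
    rw [EuclideanSpace.norm_sq_eq]
    refine Finset.sum_congr rfl fun s _ => ?_
    rw [hB]
  have hGpos : 0 < ‖G‖ := by
    rw [norm_pos_iff]
    intro h0
    apply hg
    ext s t
    have h1 := hGa (σ.symm t) ⟨s⟩
    rw [h0, Equiv.apply_symm_apply] at h1
    rw [← h1]
    rfl
  have hop : r ≤ ‖blockOp (X.map w)‖ := by
    have h1 := (blockOp (X.map w)).le_opNorm G
    have h2 : (r * ‖G‖) ^ 2 ≤ ‖blockOp (X.map w) G‖ ^ 2 := by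
      rw [hBn, mul_pow, hGn]
      exact h
    have h3 : r * ‖G‖ ≤ ‖blockOp (X.map w) G‖ :=
      (sq_le_sq₀ (by positivity) (norm_nonneg _)).1 h2
    exact le_of_mul_le_mul_right (h3.trans h1) hGpos
  calc ENNReal.ofReal r ≤ ENNReal.ofReal ‖blockOp (X.map w)‖ := ENNReal.ofReal_le_ofReal hop
    _ ≤ maxNorm.{u, v} X := by
      unfold maxNorm
      refine le_iSup_of_le H (le_iSup_of_le inferInstance (le_iSup_of_le inferInstance
        (le_iSup_of_le inferInstance (le_iSup_of_le w (le_iSup_of_le hwn le_rfl)))))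
    _ ≤ alpha.{u, v} E := by
      unfold alpha
      exact le_iSup_of_le m (le_iSup_of_le hm1 (le_iSup_of_le X (le_iSup_of_le hmin le_rfl)))

end Pool.MinMax.Odd
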