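import Pool.Agent.Work.MP_9667ca_an.Odd.Car
import Pool.Agent.Work.MP_9667ca_an.Odd.LowerOf

/-!
# MP_9667ca_an (all dimensions), module CARLOW: `√(k (n - k + 1)) ≤ α(ℓ₂ⁿ)`

`lower_of` with `C = car n`, `g = lev n k`, `r = √(k (n - k + 1))`. `‖g‖₂² = choose n k`
(`Finset.card_powersetCard`, the number of sets with `k` elements), and by `car_tensor` the other
Hilbert–Schmidt norm is `(n - k + 1)² choose n (k - 1)`; the two sides of the hypothesis `h` agree:
`k (n - k + 1) choose n k = (n - k + 1)² choose n (k - 1)` (`Nat.choose_succ_right_eq` with `k - 1`).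
-/

namespace Pool.MinMax.Odd

universe u v

private theorem carlow_sum (n k : ℕ) :
    ∑ s, ∑ t, ‖lev n k s t‖ ^ 2 = (n.choose k : ℝ) := by
  have h1 : ∀ s : Finset (Fin n), ∑ t, ‖lev n k s t‖ ^ 2 = if s.card = k then (1 : ℝ) else 0 := by
    intro s
    unfold lev
    rw [Finset.sum_eq_single s]
    · rw [Matrix.diagonal_apply_eq]
      by_cases h : s.card = k
      · rw [if_pos h, if_pos h]
        simp
      · rw [if_neg h, if_neg h]
        simp
    · intro t _ ht
      rw [Matrix.diagonal_apply_ne _ (Ne.symm ht)]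
      simp
    · intro h
      exact absurd (Finset.mem_univ _) h
  simp only [h1]
  rw [Finset.sum_boole]
  congr 1
  have h2 : (Finset.univ.filter fun s : Finset (Fin n) => s.card = k) =
      Finset.powersetCard k Finset.univ := by
    ext s
    simp [Finset.mem_powersetCard]
  rw [h2, Finset.card_powersetCard, Finset.card_univ, Fintype.card_fin]

theorem car_le_alpha {E : Type u} [NormedAddCommGroup E] [NormedSpace ℂ E] {n : ℕ}
    (e : E ≃ₗᵢ[ℂ] EuclideanSpace ℂ (Fin n)) (k : ℕ) (hk : 1 ≤ k) (hkn : k ≤ n) :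
    ENNReal.ofReal √((k : ℝ) * (n - k + 1)) ≤ alpha.{u, v} E := by
  have hkn' : (k : ℝ) ≤ n := by exact_mod_cast hkn
  have hnk : (0 : ℝ) ≤ (k : ℝ) * (n - k + 1) := by
    have : (0 : ℝ) ≤ k := Nat.cast_nonneg k
    exact mul_nonneg this (by linarith)
  refine lower_of e (car n) (car_norm_le n) (lev n k) ?_ (Real.sqrt_nonneg _) ?_
  · intro h0
    have h1 := carlow_sum n k
    rw [h0] at h1
    simp only [Matrix.zero_apply, norm_zero, ne_eq, OfNat.ofNat_ne_zero, not_false_eq_true,
      zero_pow, Finset.sum_const_zero] at h1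
    have h2 : 0 < n.choose k := Nat.choose_pos hkn
    have h3 : (0 : ℝ) < n.choose k := by exact_mod_cast h2
    linarith
  · rw [Real.sq_sqrt hnk, carlow_sum, car_tensor n k hk hkn]
    have h1 : ∀ s t, ‖(((n - k + 1 : ℕ) : ℂ) • lev n (k - 1)) s t‖ ^ 2 =
        ((n : ℝ) - k + 1) ^ 2 * ‖lev n (k - 1) s t‖ ^ 2 := by
      intro s t
      rw [Matrix.smul_apply, norm_smul, mul_pow, Complex.norm_natCast]
      push_cast [Nat.cast_sub hkn]
      ring
    simp only [h1, ← Finset.mul_sum]
    rw [carlow_sum]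
    obtain ⟨j, rfl⟩ : ∃ j, k = j + 1 := ⟨k - 1, by omega⟩
    have h2 := Nat.choose_succ_right_eq n j
    have h3 : (n.choose (j + 1) : ℝ) * (j + 1) = n.choose j * (n - j) := by
      have h4 : ((n.choose (j + 1) * (j + 1) : ℕ) : ℝ) = ((n.choose j * (n - j) : ℕ) : ℝ) := by
        rw [h2]
      push_cast [Nat.cast_sub (show j ≤ n by omega)] at h4
      exact h4
    rw [Nat.add_sub_cancel]
    push_cast
    have h5 : ((j : ℝ) + 1) * (n - (j + 1) + 1) * (n.choose (j + 1) : ℝ) =
        ((n : ℝ) - (j + 1) + 1) ^ 2 * (n.choose j : ℝ) := by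
      linear_combination ((n : ℝ) - j) * h3
    exact h5.le

end Pool.MinMax.Odd
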