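import Mathlib

/-!
# MP_9667ca_an (all dimensions), module OPS: facts on operators between Hilbert spaces

* `exists_top`: a norm-one operator `a : L → K` with `K` finite-dimensional has a vector `ξ ≠ 0` with
  `a (a† ξ) = ξ`. Proof: `K` is nontrivial (else `a = 0`), `‖a†‖ = ‖a‖ = 1`; by compactness of the unit
  sphere of `K` (`IsCompact.exists_isMaxOn`, `isCompact_sphere`, or through
  `ContinuousLinearMap.opNorm`) there is a unit vector `ξ` with `‖a† ξ‖ = 1`. Then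
  `‖a a† ξ - ξ‖² = ‖a a† ξ‖² - 2 Re ⟪a a† ξ, ξ⟫ + 1 ≤ 1 - 2 ‖a† ξ‖² + 1 = 0`.
* `exists_sqrt`: `B = CFC.sqrt (b b†)` (the C⋆-algebra `K →L[ℂ] K` with the Loewner order;
  `ContinuousLinearMap.nonneg_iff_isPositive`, `CFC.sqrt_mul_sqrt_self`, `CFC.sqrt_nonneg`).
* `norm_sqrt_apply`: `‖B v‖² = ⟪B B v, v⟫ = ⟪b b† v, v⟫ = ‖b† v‖²`.
* `core_pos`: `Re ⟪B v, b b† v + v⟫ - 2 ‖B v‖² = Re ⟪B (B v - v), B v - v⟫ ≥ 0`. Indeed
  `⟪B (Bv - v), Bv - v⟫ = ⟪B B v, B v⟫ - ⟪B B v, v⟫ - ⟪B v, B v⟫ + ⟪B v, v⟫` and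
  `⟪B B v, v⟫ = ⟪B v, B v⟫` (`B` is self-adjoint), `B B v = b b† v`.
-/

namespace Pool.MinMax.Odd

open ContinuousLinearMap

variable {K L : Type*} [NormedAddCommGroup K] [InnerProductSpace ℂ K] [CompleteSpace K]
  [NormedAddCommGroup L] [InnerProductSpace ℂ L] [CompleteSpace L]

private theorem ops_sub (x y : K) :
    ‖x - y‖ ^ 2 = ‖x‖ ^ 2 - 2 * (inner ℂ x y : ℂ).re + ‖y‖ ^ 2 := by
  have h := @norm_sub_sq ℂ K _ _ _ x y
  exact h

private theorem ops_inner_self (x : K) : (inner ℂ x x : ℂ).re = ‖x‖ ^ 2 := by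
  have h := @inner_self_eq_norm_sq ℂ K _ _ _ x
  exact h

theorem exists_top [FiniteDimensional ℂ K] (a : L →L[ℂ] K) (ha : ‖a‖ = 1) :
    ∃ ξ : K, ξ ≠ 0 ∧ a (adjoint a ξ) = ξ := by
  have hadj : ‖adjoint a‖ = 1 := by
    rw [LinearIsometryEquiv.norm_map, ha]
  have hK : Nontrivial K := by
    by_contra hcon
    have hs : Subsingleton K := not_nontrivial_iff_subsingleton.1 hcon
    have h0 : a = 0 := by
      ext x
      exact Subsingleton.elim _ _
    rw [h0, norm_zero] at ha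
    exact zero_ne_one ha
  have hprop : ProperSpace K := FiniteDimensional.proper ℂ K
  obtain ⟨u, hu⟩ := exists_norm_eq K (zero_le_one (α := ℝ))
  have hne : (Metric.sphere (0 : K) 1).Nonempty := ⟨u, by simpa using hu⟩
  obtain ⟨ξ, hξ, hmax⟩ := (isCompact_sphere (0 : K) 1).exists_isMaxOn hne
    (f := fun v => ‖adjoint a v‖) (adjoint a).continuous.norm.continuousOn
  have hξ1 : ‖ξ‖ = 1 := by simpa using hξ
  have hge : 1 ≤ ‖adjoint a ξ‖ := by
    rw [← hadj]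
    refine ContinuousLinearMap.opNorm_le_bound _ (norm_nonneg _) fun v => ?_
    by_cases hv : v = 0
    · rw [hv, map_zero, norm_zero, norm_zero, mul_zero]
    · have hv' : 0 < ‖v‖ := norm_pos_iff.2 hv
      have h1 : ((‖v‖⁻¹ : ℝ) : ℂ) • v ∈ Metric.sphere (0 : K) 1 := by
        rw [mem_sphere_zero_iff_norm, norm_smul, Complex.norm_real, norm_inv, norm_norm,
          inv_mul_cancel₀ hv'.ne']
      have h2 : ‖adjoint a (((‖v‖⁻¹ : ℝ) : ℂ) • v)‖ ≤ ‖adjoint a ξ‖ := hmax h1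
      rw [map_smul, norm_smul, Complex.norm_real, norm_inv, norm_norm] at h2
      have h3 := mul_le_mul_of_nonneg_right h2 hv'.le
      have h4 : ‖v‖⁻¹ * ‖adjoint a v‖ * ‖v‖ = ‖adjoint a v‖ := by
        field_simp
      rw [h4] at h3
      exact h3
  refine ⟨ξ, fun h0 => ?_, ?_⟩
  · rw [h0, norm_zero] at hξ1
    exact zero_ne_one hξ1
  · have h1 : ‖a (adjoint a ξ) - ξ‖ ^ 2 ≤ 0 := by
      rw [ops_sub]
      have h2 : (inner ℂ (a (adjoint a ξ)) ξ : ℂ).re = ‖adjoint a ξ‖ ^ 2 := by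
        rw [← ContinuousLinearMap.adjoint_inner_right, ops_inner_self]
      rw [h2, hξ1]
      have h3 : ‖a (adjoint a ξ)‖ ≤ 1 := by
        have h4 : ‖a (adjoint a ξ)‖ ≤ 1 * ‖adjoint a ξ‖ := a.le_of_opNorm_le ha.le _
        have h5 : ‖adjoint a ξ‖ ≤ 1 * ‖ξ‖ := (adjoint a).le_of_opNorm_le hadj.le _
        rw [hξ1] at h5
        linarith
      have h4 : ‖a (adjoint a ξ)‖ ^ 2 ≤ 1 := by
        have := norm_nonneg (a (adjoint a ξ))
        nlinarith
      nlinarith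
    have h2 : ‖a (adjoint a ξ) - ξ‖ = 0 := by
      have := norm_nonneg (a (adjoint a ξ) - ξ)
      nlinarith
    exact sub_eq_zero.1 (norm_eq_zero.1 h2)

theorem exists_sqrt (b : L →L[ℂ] K) :
    ∃ B : K →L[ℂ] K, B.IsPositive ∧ ∀ v, B (B v) = b (adjoint b v) := by
  have hpos : (b ∘L adjoint b).IsPositive := by
    have h1 := ContinuousLinearMap.isPositive_self_comp_adjoint b
    exact h1
  have h0 : (0 : K →L[ℂ] K) ≤ b ∘L adjoint b := (ContinuousLinearMap.nonneg_iff_isPositive _).2 hpos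
  refine ⟨CFC.sqrt (b ∘L adjoint b),
    (ContinuousLinearMap.nonneg_iff_isPositive _).1 (CFC.sqrt_nonneg _), fun v => ?_⟩
  have h1 := CFC.sqrt_mul_sqrt_self (b ∘L adjoint b) h0
  have h2 := congrArg (fun T : K →L[ℂ] K => T v) h1
  exact h2

theorem norm_sqrt_apply {b : L →L[ℂ] K} {B : K →L[ℂ] K} (hB : B.IsPositive)
    (hBB : ∀ v, B (B v) = b (adjoint b v)) (v : K) : ‖B v‖ = ‖adjoint b v‖ := by
  have hsymm := hB.isSymmetric
  have h1 : (inner ℂ (B v) (B v) : ℂ) = inner ℂ (adjoint b v) (adjoint b v) := by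
    have h2 : (inner ℂ (B v) (B v) : ℂ) = inner ℂ v (B (B v)) := hsymm v (B v)
    rw [h2, hBB, ContinuousLinearMap.adjoint_inner_left]
  have h2 : ‖B v‖ ^ 2 = ‖adjoint b v‖ ^ 2 := by
    rw [← ops_inner_self, h1]
    have h := @inner_self_eq_norm_sq ℂ L _ _ _ (adjoint b v)
    exact h
  exact (sq_eq_sq₀ (norm_nonneg _) (norm_nonneg _)).1 h2

theorem core_pos {b : L →L[ℂ] K} {B : K →L[ℂ] K} (hB : B.IsPositive)
    (hBB : ∀ v, B (B v) = b (adjoint b v)) (v : K) :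
    2 * ‖B v‖ ^ 2 ≤ (inner ℂ (B v) (b (adjoint b v) + v) : ℂ).re := by
  have hsymm := hB.isSymmetric
  have h1 : 0 ≤ (inner ℂ (B (B v - v)) (B v - v) : ℂ).re := by
    have h2 := hB.inner_nonneg_left (B v - v)
    exact (Complex.le_def.1 h2).1
  have h2 : (inner ℂ (B (B v)) v : ℂ) = inner ℂ (B v) (B v) := hsymm (B v) v
  rw [map_sub, inner_sub_left, inner_sub_right, inner_sub_right, h2] at h1
  have h3 : (inner ℂ (B (B v)) (B v) : ℂ) = inner ℂ (B v) (B (B v)) := hsymm (B v) (B v)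
  rw [h3, hBB] at h1
  rw [inner_add_right, Complex.add_re, ← ops_inner_self]
  simp only [Complex.sub_re] at h1
  linarith

end Pool.MinMax.Odd
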