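import Mathlib

/-!
# MP_9667ca_an (all dimensions), module POINT: the pointwise inequality

Let `U : K → K`, `W : L → L`, `a : L → K` be operators with `‖U‖ ≤ s`, `‖W‖ ≤ s`, `‖a‖ ≤ 1` and
vectors `F ∈ K`, `F' ∈ L` with `‖F'‖ = ‖F‖`. Put `y = a (W F')`, `g = U y`, `D = s² ‖F‖² - Re ⟪F, g⟫`.
Then `0 ≤ D` and `‖U U† F - s² F‖² ≤ 8 s² D`.

Proof. `‖y‖ ≤ s ‖F‖`, `‖g‖ ≤ s² ‖F‖`, so `D ≥ 0` by Cauchy–Schwarz.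
(1) `‖g - s² F‖² = ‖g‖² - 2 s² Re ⟪F, g⟫ + s⁴ ‖F‖² ≤ 2 s⁴ ‖F‖² - 2 s² Re ⟪F, g⟫ = 2 s² D`.
(2) `‖U† F - y‖² = ‖U† F‖² - 2 Re ⟪U† F, y⟫ + ‖y‖² ≤ 2 s² ‖F‖² - 2 Re ⟪F, U y⟫ = 2 D`.
`U U† F - s² F = U (U† F - y) + (g - s² F)`, so its norm is at most `s √(2 D) + √(2 s² D) = 2 s √(2 D)`.
(In squares: `‖p + q‖² ≤ 2 ‖p‖² + 2 ‖q‖² ≤ 2 · s² · 2 D + 2 · 2 s² D = 8 s² D`.)
-/

namespace Pool.MinMax.Odd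

open ContinuousLinearMap

variable {K L : Type*} [NormedAddCommGroup K] [InnerProductSpace ℂ K] [CompleteSpace K]
  [NormedAddCommGroup L] [InnerProductSpace ℂ L]

private theorem point_y (W : L →L[ℂ] L) (a : L →L[ℂ] K) (F : K) (F' : L) {s : ℝ}
    (hs : 0 ≤ s) (hW : ‖W‖ ≤ s) (ha : ‖a‖ ≤ 1) (hF : ‖F'‖ = ‖F‖) : ‖a (W F')‖ ≤ s * ‖F‖ := by
  have h1 : ‖W F'‖ ≤ s * ‖F'‖ := W.le_of_opNorm_le hW F'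
  have h2 : ‖a (W F')‖ ≤ 1 * ‖W F'‖ := a.le_of_opNorm_le ha _
  rw [one_mul] at h2
  rw [← hF]
  exact h2.trans h1

private theorem point_g (U : K →L[ℂ] K) (W : L →L[ℂ] L) (a : L →L[ℂ] K) (F : K) (F' : L) {s : ℝ}
    (hs : 0 ≤ s) (hU : ‖U‖ ≤ s) (hW : ‖W‖ ≤ s) (ha : ‖a‖ ≤ 1) (hF : ‖F'‖ = ‖F‖) :
    ‖U (a (W F'))‖ ≤ s ^ 2 * ‖F‖ := by
  have h1 := point_y W a F F' hs hW ha hF
  have h2 : ‖U (a (W F'))‖ ≤ s * ‖a (W F')‖ := U.le_of_opNorm_le hU _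
  have h3 := mul_le_mul_of_nonneg_left h1 hs
  calc ‖U (a (W F'))‖ ≤ s * ‖a (W F')‖ := h2
    _ ≤ s * (s * ‖F‖) := h3
    _ = s ^ 2 * ‖F‖ := by ring

theorem point_nonneg (U : K →L[ℂ] K) (W : L →L[ℂ] L) (a : L →L[ℂ] K) (F : K) (F' : L) {s : ℝ}
    (hs : 0 ≤ s) (hU : ‖U‖ ≤ s) (hW : ‖W‖ ≤ s) (ha : ‖a‖ ≤ 1) (hF : ‖F'‖ = ‖F‖) :
    0 ≤ s ^ 2 * ‖F‖ ^ 2 - (inner ℂ F (U (a (W F'))) : ℂ).re := by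
  have h1 := point_g U W a F F' hs hU hW ha hF
  have h2 : (inner ℂ F (U (a (W F'))) : ℂ).re ≤ ‖F‖ * ‖U (a (W F'))‖ :=
    (Complex.re_le_norm _).trans (norm_inner_le_norm _ _)
  have h3 := mul_le_mul_of_nonneg_left h1 (norm_nonneg F)
  nlinarith

private theorem point_sub (x y : K) :
    ‖x - y‖ ^ 2 = ‖x‖ ^ 2 - 2 * (inner ℂ x y : ℂ).re + ‖y‖ ^ 2 := by
  have h := @norm_sub_sq ℂ K _ _ _ x y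
  exact h

theorem point_le (U : K →L[ℂ] K) (W : L →L[ℂ] L) (a : L →L[ℂ] K) (F : K) (F' : L) {s : ℝ}
    (hs : 0 ≤ s) (hU : ‖U‖ ≤ s) (hW : ‖W‖ ≤ s) (ha : ‖a‖ ≤ 1) (hF : ‖F'‖ = ‖F‖) :
    ‖U (adjoint U F) - (s ^ 2 : ℂ) • F‖ ^ 2 ≤
      8 * s ^ 2 * (s ^ 2 * ‖F‖ ^ 2 - (inner ℂ F (U (a (W F'))) : ℂ).re) := by
  have hy := point_y W a F F' hs hW ha hF
  have hg := point_g U W a F F' hs hU hW ha hF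
  set y := a (W F') with hydef
  have hUa : ‖adjoint U F‖ ≤ s * ‖F‖ := by
    refine (adjoint U).le_of_opNorm_le ?_ F
    rw [LinearIsometryEquiv.norm_map]
    exact hU
  have h1 : ‖adjoint U F - y‖ ^ 2 ≤ 2 * (s ^ 2 * ‖F‖ ^ 2 - (inner ℂ F (U y) : ℂ).re) := by
    rw [point_sub, ContinuousLinearMap.adjoint_inner_left]
    have h2 : ‖adjoint U F‖ ^ 2 ≤ (s * ‖F‖) ^ 2 := by gcongr
    have h3 : ‖y‖ ^ 2 ≤ (s * ‖F‖) ^ 2 := by gcongr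
    nlinarith
  have h2 : ‖U (adjoint U F - y)‖ ^ 2 ≤
      2 * s ^ 2 * (s ^ 2 * ‖F‖ ^ 2 - (inner ℂ F (U y) : ℂ).re) := by
    have h3 : ‖U (adjoint U F - y)‖ ≤ s * ‖adjoint U F - y‖ := U.le_of_opNorm_le hU _
    calc ‖U (adjoint U F - y)‖ ^ 2 ≤ (s * ‖adjoint U F - y‖) ^ 2 := by gcongr
      _ = s ^ 2 * ‖adjoint U F - y‖ ^ 2 := by ring
      _ ≤ s ^ 2 * (2 * (s ^ 2 * ‖F‖ ^ 2 - (inner ℂ F (U y) : ℂ).re)) := by gcongr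
      _ = _ := by ring
  have h3 : ‖U y - (s ^ 2 : ℂ) • F‖ ^ 2 ≤
      2 * s ^ 2 * (s ^ 2 * ‖F‖ ^ 2 - (inner ℂ F (U y) : ℂ).re) := by
    rw [point_sub, norm_smul, inner_smul_right]
    have h4 : ‖((s : ℂ) ^ 2)‖ = s ^ 2 := by
      rw [norm_pow, Complex.norm_real, Real.norm_eq_abs, sq_abs]
    have h5 : ((s : ℂ) ^ 2 * inner ℂ (U y) F).re = s ^ 2 * (inner ℂ F (U y) : ℂ).re := by
      rw [← Complex.ofReal_pow, Complex.re_ofReal_mul]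
      congr 1
      exact inner_re_symm (𝕜 := ℂ) (U y) F
    rw [h4, h5]
    have h6 : ‖U y‖ ^ 2 ≤ (s ^ 2 * ‖F‖) ^ 2 := by gcongr
    nlinarith
  have h4 : U (adjoint U F) - (s ^ 2 : ℂ) • F =
      U (adjoint U F - y) + (U y - (s ^ 2 : ℂ) • F) := by
    rw [map_sub]
    abel
  rw [h4]
  have h5 : ‖U (adjoint U F - y) + (U y - (s ^ 2 : ℂ) • F)‖ ≤
      ‖U (adjoint U F - y)‖ + ‖U y - (s ^ 2 : ℂ) • F‖ := norm_add_le _ _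
  have h6 : ‖U (adjoint U F - y) + (U y - (s ^ 2 : ℂ) • F)‖ ^ 2 ≤
      (‖U (adjoint U F - y)‖ + ‖U y - (s ^ 2 : ℂ) • F‖) ^ 2 := by gcongr
  nlinarith [sq_nonneg (‖U (adjoint U F - y)‖ - ‖U y - (s ^ 2 : ℂ) • F‖)]

end Pool.MinMax.Odd
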