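import Pool.Agent.Work.MP_9667ca_an.Odd.Euler
import Pool.Agent.Work.MP_9667ca_an.Odd.Ops
import Pool.Agent.Work.MP_9667ca_an.Odd.Point

/-!
# MP_9667ca_an (all dimensions), module CORE: the defect function

Let `d : Dat e K L c` with `c > 0`. Take `ξ ≠ 0` with `a (a† ξ) = ξ` (`exists_top`), `B` positive with
`B (B v) = b (b† v)` (`exists_sqrt`) and put
`F x = B (u x ξ)` (linear), `F' x = b† (u x ξ)`, so `‖F' x‖ = ‖F x‖` (`norm_sqrt_apply`), and
`G x = u x (a (w (‖x‖ • θ(x)) (F' x)))`, `D x = ‖x‖² ‖F x‖² - Re ⟪F x, G x⟫`.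

1. Some `F (e i) ≠ 0`: apply `h2` to `ξ`: `∑_i w(co i) (b† (u (e i) ξ)) = c a† ξ ≠ 0`
   (`a† ξ ≠ 0` because `a (a† ξ) = ξ ≠ 0`), so `b† (u (e i) ξ) ≠ 0` for some `i`.
2. `0 ≤ D x` (`point_nonneg` with `U = u x`, `W = w (‖x‖ • θ(x))`, `s = ‖x‖`; `‖w ζ‖ ≤ ‖ζ‖ ≤ ‖x‖` by
   `norm_theta_le`).
3. `point_le` gives `‖u x (u x)† F x - ‖x‖² F x‖² ≤ 8 ‖x‖² D x ≤ 8 D x` for `‖x‖ ≤ 1`.
4. The integral. For each `j` apply `ibp` with `h = e j` and the bilinear map
   `Q_j x y = u x (a (w (co j) (b† (u y ξ))))`, and sum over `j`: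
   - left: `∑_j θ(x)(e_j) w(co j) = w(∑_j θ(x)(e_j) co j) = w(θ(x))` (`θ(x) = ∑_j θ(x)(e_j) • co e j`,
     check on the basis), so the sum of the integrands is `Re ⟪F x, G x⟫`
     (`⟪F x, z • v⟫ = z ⟪F x, v⟫`);
   - right: `∑_j Q_j (e_j) x = c b (b† (u x ξ))` by `h1` applied to `b† (u x ξ)`, and
     `∑_j Q_j x (e_j) = u x (a (c a† ξ)) = c u x ξ` by `h2` applied to `ξ`. So the sum of the integrands
     is `(1 - ‖x‖²) c Re ⟪B v, b b† v + v⟫` with `v = u x ξ`, which is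
     `≥ 2 c (1 - ‖x‖²) ‖F x‖²` by `core_pos`.
   Hence `∫ Re ⟪F x, G x⟫ ≥ 2 c ∫ (1 - ‖x‖²) ‖F x‖²`, and with `euler`:
   `∫ D = (n + 1) ∫ (1 - ‖x‖²) ‖F‖² - ∫ Re ⟪F, G⟫ ≤ (n + 1 - 2 c) ∫ (1 - ‖x‖²) ‖F‖²`
   (all integrals over the open unit ball).
   Integrability: `ibp_integrable`, `ibp_integrable'`, and continuous functions on the ball
   (`Continuous.integrableOn_ball`-type facts: the closed ball is compact).
-/

namespace Pool.MinMax.Odd

open MeasureTheory Metric ContinuousLinearMap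

variable {E : Type*} [NormedAddCommGroup E] [NormedSpace ℂ E] [FiniteDimensional ℂ E]
  [MeasurableSpace E] [BorelSpace E] {μ : Measure E} [μ.IsAddHaarMeasure]
  {K : Type*} [NormedAddCommGroup K] [InnerProductSpace ℂ K] [CompleteSpace K]
  [FiniteDimensional ℂ K]
  {L : Type*} [NormedAddCommGroup L] [InnerProductSpace ℂ L] [CompleteSpace L]

private theorem core_integrableOn {f : E → ℝ} (hf : Continuous f) :
    IntegrableOn f (ball (0 : E) 1) μ := by
  have hp : ProperSpace E := FiniteDimensional.proper ℂ E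
  exact (hf.continuousOn.integrableOn_compact (isCompact_closedBall (0 : E) 1)).mono_set
    ball_subset_closedBall

theorem core {n : ℕ} {e : Module.Basis (Fin n) ℂ E} {c : ℝ} (hc : 0 < c) (d : Dat e K L c) :
    ∃ (F : E →ₗ[ℂ] K) (D : E → ℝ), (∃ i, F (e i) ≠ 0) ∧
      IntegrableOn D (ball (0 : E) 1) μ ∧ (∀ x ∈ ball (0 : E) 1, 0 ≤ D x) ∧
      (∀ x ∈ ball (0 : E) 1,
        ‖d.u x (adjoint (d.u x) (F x)) - ((‖x‖ : ℂ) ^ 2) • F x‖ ^ 2 ≤ 8 * D x) ∧
      ∫ x in ball (0 : E) 1, D x ∂μ ≤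
        (n + 1 - 2 * c) * ∫ x in ball (0 : E) 1, (1 - ‖x‖ ^ 2) * ‖F x‖ ^ 2 ∂μ := by
  classical
  obtain ⟨ξ, hξ0, hξ⟩ := exists_top d.a d.ha
  obtain ⟨B, hB, hBB⟩ := exists_sqrt d.b
  -- the maps
  let F : E →ₗ[ℂ] K :=
    { toFun := fun x => B (d.u x ξ)
      map_add' := fun x y => by simp
      map_smul' := fun z x => by simp }
  have hFa : ∀ x, F x = B (d.u x ξ) := fun x => rfl
  have hF' : ∀ x, ‖adjoint d.b (d.u x ξ)‖ = ‖F x‖ := fun x =>
    (norm_sqrt_apply hB hBB (d.u x ξ)).symm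
  let W : E → (L →L[ℂ] L) := fun x => d.w (((‖x‖ : ℝ) : ℂ) • theta x)
  have hW : ∀ x, ‖W x‖ ≤ ‖x‖ := by
    intro x
    refine (d.hw _).trans ?_
    rw [norm_smul, Complex.norm_real, norm_norm]
    have := norm_theta_le x
    nlinarith [norm_nonneg x]
  let G : E → K := fun x => d.u x (d.a (W x (adjoint d.b (d.u x ξ))))
  let D : E → ℝ := fun x => ‖x‖ ^ 2 * ‖F x‖ ^ 2 - (inner ℂ (F x) (G x) : ℂ).re
  let Q : Fin n → E →ₗ[ℂ] E →ₗ[ℂ] K := fun j => LinearMap.mk₂ ℂ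
    (fun x y => d.u x (d.a (d.w (co e j) (adjoint d.b (d.u y ξ)))))
    (fun x x' y => by simp) (fun z x y => by simp) (fun x y y' => by simp) (fun z x y => by simp)
  have hQ : ∀ j x y, Q j x y = d.u x (d.a (d.w (co e j) (adjoint d.b (d.u y ξ)))) :=
    fun j x y => rfl
  -- expansion of theta
  have hθ : ∀ x, theta x = ∑ j, theta x (e j) • co e j := by
    intro x
    ext y
    rw [ContinuousLinearMap.sum_apply]
    have e1 : ∀ j, (theta x (e j) • co e j) y = theta x (e.repr y j • e j) := by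
      intro j
      rw [ContinuousLinearMap.smul_apply, map_smul, smul_eq_mul, smul_eq_mul]
      have : co e j y = e.repr y j := by simp [co]
      rw [this, mul_comm]
    rw [Finset.sum_congr rfl fun j _ => e1 j, ← map_sum, e.sum_repr]
  have hG : ∀ x, G x = ∑ j, (((‖x‖ : ℝ) : ℂ) * theta x (e j)) • Q j x x := by
    intro x
    show d.u x (d.a (d.w (((‖x‖ : ℝ) : ℂ) • theta x) (adjoint d.b (d.u x ξ)))) = _
    conv_lhs => rw [hθ x]
    rw [map_smul, map_sum, Finset.smul_sum, ContinuousLinearMap.sum_apply, map_sum, map_sum]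
    refine Finset.sum_congr rfl fun j _ => ?_
    rw [map_smul, hQ, ContinuousLinearMap.smul_apply, ContinuousLinearMap.smul_apply, map_smul,
      map_smul, map_smul, map_smul, smul_smul]
  have hL : ∀ x, (inner ℂ (F x) (G x) : ℂ).re =
      ∑ j, (((‖x‖ : ℂ)) * theta x (e j) * inner ℂ (F x) (Q j x x)).re := by
    intro x
    rw [hG, inner_sum, Complex.re_sum]
    refine Finset.sum_congr rfl fun j _ => ?_
    rw [inner_smul_right]
  have hsum1 : ∀ x, ∑ j, Q j (e j) x = (c : ℂ) • d.b (adjoint d.b (d.u x ξ)) := by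
    intro x
    have h1 := DFunLike.congr_fun d.h1 (adjoint d.b (d.u x ξ))
    rw [ContinuousLinearMap.sum_apply, ContinuousLinearMap.smul_apply] at h1
    exact h1
  have hsum2 : ∀ x, ∑ j, Q j x (e j) = (c : ℂ) • d.u x ξ := by
    intro x
    have h2 := DFunLike.congr_fun d.h2 ξ
    rw [ContinuousLinearMap.sum_apply, ContinuousLinearMap.smul_apply] at h2
    have h3 : ∑ j, d.w (co e j) (adjoint d.b (d.u (e j) ξ)) = (c : ℂ) • adjoint d.a ξ := h2
    have h4 : ∑ j, Q j x (e j) = d.u x (d.a (∑ j, d.w (co e j) (adjoint d.b (d.u (e j) ξ)))) := by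
      rw [map_sum, map_sum]
      rfl
    rw [h4, h3, map_smul, map_smul, hξ]
  have hR : ∀ x, ∑ j, (1 - ‖x‖ ^ 2) * (inner ℂ (F x) (Q j (e j) x + Q j x (e j)) : ℂ).re =
      (1 - ‖x‖ ^ 2) * (c * (inner ℂ (B (d.u x ξ)) (d.b (adjoint d.b (d.u x ξ)) + d.u x ξ) : ℂ).re) := by
    intro x
    rw [← Finset.mul_sum, ← Complex.re_sum, ← inner_sum, Finset.sum_add_distrib, hsum1, hsum2,
      ← smul_add, inner_smul_right, Complex.re_ofReal_mul, hFa]
  -- integrability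
  have hFc : Continuous F := F.continuous_of_finiteDimensional
  have hi1 : IntegrableOn (fun x => ‖x‖ ^ 2 * ‖F x‖ ^ 2) (ball (0 : E) 1) μ :=
    core_integrableOn (by fun_prop)
  have hi3 : IntegrableOn (fun x => (1 - ‖x‖ ^ 2) * ‖F x‖ ^ 2) (ball (0 : E) 1) μ :=
    core_integrableOn (by fun_prop)
  have hi2 : IntegrableOn (fun x => (inner ℂ (F x) (G x) : ℂ).re) (ball (0 : E) 1) μ := by
    have h1 : IntegrableOn (fun x => ∑ j, (((‖x‖ : ℂ)) * theta x (e j) *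
        inner ℂ (F x) (Q j x x)).re) (ball (0 : E) 1) μ :=
      integrable_finsetSum _ fun j _ => ibp_integrable F (Q j) (e j)
    exact h1.congr (Filter.Eventually.of_forall fun x => (hL x).symm)
  have hD0 : ∀ x, 0 ≤ D x := fun x =>
    point_nonneg (d.u x) (W x) d.a (F x) (adjoint d.b (d.u x ξ)) (norm_nonneg x) (d.hu x) (hW x)
      d.ha.le (hF' x)
  refine ⟨F, D, ?_, hi1.sub hi2, fun x _ => hD0 x, fun x hx => ?_, ?_⟩
  · by_contra hcon
    push Not at hcon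
    have h1 : ∀ i, adjoint d.b (d.u (e i) ξ) = 0 := by
      intro i
      rw [← norm_eq_zero, hF', hcon i, norm_zero]
    have h2 := DFunLike.congr_fun d.h2 ξ
    rw [ContinuousLinearMap.sum_apply, ContinuousLinearMap.smul_apply] at h2
    have h3 : ∑ j, d.w (co e j) (adjoint d.b (d.u (e j) ξ)) = (c : ℂ) • adjoint d.a ξ := h2
    rw [Finset.sum_eq_zero (fun j _ => by rw [h1, map_zero])] at h3
    have h4 : adjoint d.a ξ = 0 := by
      rcases smul_eq_zero.1 h3.symm with h | h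
      · exact absurd (Complex.ofReal_eq_zero.1 h) hc.ne'
      · exact h
    rw [h4, map_zero] at hξ
    exact hξ0 hξ.symm
  · have h1 := point_le (d.u x) (W x) d.a (F x) (adjoint d.b (d.u x ξ)) (norm_nonneg x) (d.hu x)
      (hW x) d.ha.le (hF' x)
    refine h1.trans ?_
    have h2 : ‖x‖ ^ 2 ≤ 1 := by
      rw [mem_ball_zero_iff] at hx
      nlinarith [norm_nonneg x]
    have h3 := hD0 x
    show 8 * ‖x‖ ^ 2 * D x ≤ 8 * D x
    nlinarith
  · have h1 : ∫ x in ball (0 : E) 1, D x ∂μ = ∫ x in ball (0 : E) 1, ‖x‖ ^ 2 * ‖F x‖ ^ 2 ∂μ -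
        ∫ x in ball (0 : E) 1, (inner ℂ (F x) (G x) : ℂ).re ∂μ := integral_sub hi1 hi2
    have h2 : ∫ x in ball (0 : E) 1, (inner ℂ (F x) (G x) : ℂ).re ∂μ =
        ∫ x in ball (0 : E) 1, (1 - ‖x‖ ^ 2) *
          (c * (inner ℂ (B (d.u x ξ)) (d.b (adjoint d.b (d.u x ξ)) + d.u x ξ) : ℂ).re) ∂μ := by
      simp only [hL]
      rw [integral_finsetSum _ fun j _ => ibp_integrable F (Q j) (e j)]
      rw [Finset.sum_congr rfl fun j _ => ibp F (Q j) (e j)]
      rw [← integral_finsetSum _ fun j _ => ibp_integrable' F (Q j) (e j)]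
      simp only [hR]
    have h3 : 2 * c * ∫ x in ball (0 : E) 1, (1 - ‖x‖ ^ 2) * ‖F x‖ ^ 2 ∂μ ≤
        ∫ x in ball (0 : E) 1, (inner ℂ (F x) (G x) : ℂ).re ∂μ := by
      rw [h2, ← integral_const_mul]
      refine setIntegral_mono_on (hi3.const_mul _) ?_ measurableSet_ball fun x hx => ?_
      · have h4 : IntegrableOn (fun x => ∑ j, (1 - ‖x‖ ^ 2) *
            (inner ℂ (F x) (Q j (e j) x + Q j x (e j)) : ℂ).re) (ball (0 : E) 1) μ :=
          integrable_finsetSum _ fun j _ => ibp_integrable' F (Q j) (e j)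
        exact h4.congr (Filter.Eventually.of_forall fun x => hR x)
      · have h5 := core_pos hB hBB (d.u x ξ)
        rw [mem_ball_zero_iff] at hx
        have h6 : 0 ≤ (1 - ‖x‖ ^ 2) * c := mul_nonneg (by nlinarith [norm_nonneg x]) hc.le
        calc 2 * c * ((1 - ‖x‖ ^ 2) * ‖F x‖ ^ 2)
            = (1 - ‖x‖ ^ 2) * c * (2 * ‖B (d.u x ξ)‖ ^ 2) := by rw [hFa]; ring
          _ ≤ (1 - ‖x‖ ^ 2) * c *
              (inner ℂ (B (d.u x ξ)) (d.b (adjoint d.b (d.u x ξ)) + d.u x ξ) : ℂ).re :=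
            mul_le_mul_of_nonneg_left h5 h6
          _ = _ := by ring
    rw [h1, euler e F]
    linarith

end Pool.MinMax.Odd
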