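import Pool.Agent.Work.MP_9667ca_an.Odd.Core

/-!
# MP_9667ca_an (all dimensions), module CPT: the limit of extremal data

If for every `ε > 0` there is a datum with `c > (n+1)/2 - ε`, then there are coefficients
`P i j k` and `l k`, `l ≠ 0`, such that for all `x ∈ E` with coordinates `x_i = e.coord i x`:
`‖x‖² ∑_k l_k x_k = ∑_{i,j,k} P_ijk x_i conj(x_j) x_k`.

Proof. Let `μ` be a Haar measure on `E` (`borel E`, `Measure.addHaar`), `Ω = ball 0 1`,
`M = 1 + ∑ ‖e i‖` and, for `(P, l) ∈ (Fin n → Fin n → Fin n → ℂ) × (Fin n → ℂ)`,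
`Φ(P, l) = ∫_Ω ‖∑ P_ijk x_i conj(x_j) x_k - ‖x‖² ∑ l_k x_k‖² dμ`.
(1) For every `ε > 0` (`ε < 1/2`, so `c > 0`) there is `(P, l)` with `‖P i j k‖ ≤ M²` for all `i j k`,
`‖l k‖ ≤ 1` for all `k`, some `l k = 1`, and `Φ(P, l) ≤ C ε` with `C` independent of `ε`:
take `F, D` from `core`, let `k₀` maximise `‖F (e k)‖`, put `t = ‖F (e k₀)‖ > 0`, `η = t⁻² F (e k₀)`
and `l_k = ⟪η, F (e k)⟫`, `P_ijk = ⟪η, u(e i) (u (e j))† F (e k)⟫`. Then `l_{k₀} = 1`,
`‖l_k‖ ≤ t⁻² t ‖F(e k)‖ ≤ 1`, `‖P_ijk‖ ≤ t⁻² t ‖e i‖ ‖e j‖ t ≤ M²`, and by linearity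
(`x = ∑ x_i e_i`, `(u x)† = ∑ conj(x_j) (u (e j))†`)
`∑ P_ijk x_i conj(x_j) x_k - ‖x‖² ∑ l_k x_k = ⟪η, u x (u x)† F x - ‖x‖² F x⟫`, whose square norm is at most
`t⁻² 8 D x` on `Ω`. Hence `Φ ≤ 8 t⁻² ∫_Ω D ≤ 8 t⁻² (n + 1 - 2 c) ∫_Ω (1 - ‖x‖²) ‖F x‖²
≤ 16 ε ∫_Ω (∑ ‖x_k‖)² dμ` (as `‖F x‖ ≤ t ∑ ‖x_k‖` and `n + 1 - 2 c ≤ 2 ε`).
(2) The set `S = {(P, l) : ‖P‖ ≤ M² , ‖l‖ = 1}` (sup norms on the function spaces) is compact
(closed and bounded in a finite-dimensional space) and `Φ` is continuous (e.g.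
`continuous_parametric_integral_of_continuous` on the compact closed ball, the sphere having
measure zero - or simply define `Φ` as the integral over the closed ball -, or `continuous_of_dominated`),
so `Φ` attains its minimum on `S`; by (1) the minimum is `≤ C ε` for all `ε`, so it is `0`.
(3) `Φ(P, l) = 0` with a continuous nonnegative integrand gives integrand `= 0` on the open ball
(`Measure.IsOpenPosMeasure`, e.g. `MeasureTheory.Measure.eqOn_open_of_ae_eq`); the identity for all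
`x` follows by homogeneity (`x ↦ t • x`, `t > 0` real small: both sides are multiplied by `t³`).
`l ≠ 0` because `‖l‖ = 1`.
-/

namespace Pool.MinMax.Odd

open MeasureTheory Metric ContinuousLinearMap
open scoped ComplexConjugate

variable {E : Type*} [NormedAddCommGroup E] [NormedSpace ℂ E] [FiniteDimensional ℂ E]

/-- the defect of the polynomial identity -/
private noncomputable def cptF {n : ℕ} (e : Module.Basis (Fin n) ℂ E)
    (s : (Fin n → Fin n → Fin n → ℂ) × (Fin n → ℂ)) (x : E) : ℂ :=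
  ∑ i, ∑ j, ∑ k, s.1 i j k * e.coord i x * conj (e.coord j x) * e.coord k x -
    ((‖x‖ : ℝ) : ℂ) ^ 2 * ∑ k, s.2 k * e.coord k x

private theorem cpt_coord_cont {n : ℕ} (e : Module.Basis (Fin n) ℂ E) (i : Fin n) :
    Continuous fun x : E => e.coord i x := (e.coord i).continuous_of_finiteDimensional

private theorem cpt_cont {n : ℕ} (e : Module.Basis (Fin n) ℂ E) :
    Continuous fun p : ((Fin n → Fin n → Fin n → ℂ) × (Fin n → ℂ)) × E => cptF e p.1 p.2 := by
  unfold cptF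
  have hx : ∀ i, Continuous fun p : ((Fin n → Fin n → Fin n → ℂ) × (Fin n → ℂ)) × E =>
      e.coord i p.2 := fun i => (cpt_coord_cont e i).comp continuous_snd
  refine Continuous.sub ?_ ?_
  · refine continuous_finset_sum _ fun i _ => continuous_finset_sum _ fun j _ =>
      continuous_finset_sum _ fun k _ => ?_
    have h1 : Continuous fun p : ((Fin n → Fin n → Fin n → ℂ) × (Fin n → ℂ)) × E =>
        p.1.1 i j k := by fun_prop
    exact ((h1.mul (hx i)).mul (Complex.continuous_conj.comp (hx j))).mul (hx k)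
  · have h2 : Continuous fun p : ((Fin n → Fin n → Fin n → ℂ) × (Fin n → ℂ)) × E =>
        ((‖p.2‖ : ℝ) : ℂ) ^ 2 := by fun_prop
    refine h2.mul (continuous_finset_sum _ fun k _ => ?_)
    have h1 : Continuous fun p : ((Fin n → Fin n → Fin n → ℂ) × (Fin n → ℂ)) × E =>
        p.1.2 k := by fun_prop
    exact h1.mul (hx k)

private theorem cpt_homog {n : ℕ} (e : Module.Basis (Fin n) ℂ E)
    (s : (Fin n → Fin n → Fin n → ℂ) × (Fin n → ℂ)) (t : ℝ) (ht : 0 ≤ t) (x : E) :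
    cptF e s ((t : ℂ) • x) = (t : ℂ) ^ 3 * cptF e s x := by
  have hco : ∀ i, e.coord i ((t : ℂ) • x) = (t : ℂ) * e.coord i x := fun i => by
    rw [map_smul, smul_eq_mul]
  unfold cptF
  rw [norm_smul, Complex.norm_real, Real.norm_of_nonneg ht, mul_sub, Finset.mul_sum,
    Finset.mul_sum, Finset.mul_sum, Finset.mul_sum]
  congr 1
  · refine Finset.sum_congr rfl fun i _ => ?_
    rw [Finset.mul_sum]
    refine Finset.sum_congr rfl fun j _ => ?_
    rw [Finset.mul_sum]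
    refine Finset.sum_congr rfl fun k _ => ?_
    rw [hco, hco, hco, map_mul, Complex.conj_ofReal]
    ring
  · refine Finset.sum_congr rfl fun k _ => ?_
    rw [hco]
    push_cast
    ring

section one

variable [MeasurableSpace E] [BorelSpace E]

private theorem cpt_integrableOn {μ : Measure E} [μ.IsAddHaarMeasure] {f : E → ℝ}
    (hf : Continuous f) : IntegrableOn f (ball (0 : E) 1) μ := by
  have hp : ProperSpace E := FiniteDimensional.proper ℂ E
  exact (hf.continuousOn.integrableOn_compact (isCompact_closedBall (0 : E) 1)).mono_set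
    ball_subset_closedBall

private theorem cpt_one (μ : Measure E) [μ.IsAddHaarMeasure] {n p m : ℕ}
    (e : Module.Basis (Fin n) ℂ E) {c ε : ℝ}
    (hc0 : 0 < c) (hc : (n + 1) / 2 - ε < c)
    (d : Dat e (EuclideanSpace ℂ (Fin p)) (EuclideanSpace ℂ (Fin m)) c) :
    ∃ s : (Fin n → Fin n → Fin n → ℂ) × (Fin n → ℂ),
      ‖s.1‖ ≤ (1 + ∑ i, ‖e i‖) ^ 2 ∧ ‖s.2‖ = 1 ∧
      ∫ x in ball (0 : E) 1, ‖cptF e s x‖ ^ 2 ∂μ ≤
        16 * ε * ∫ x in ball (0 : E) 1, (∑ k, ‖e.coord k x‖) ^ 2 ∂μ := by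
  classical
  obtain ⟨F, D, ⟨i₀, hi₀⟩, hDi, hD0, hDle, hDint⟩ := core (μ := μ) hc0 d
  have hne : Nonempty (Fin n) := ⟨i₀⟩
  obtain ⟨k₀, hk₀⟩ := Finite.exists_max (fun k => ‖F (e k)‖)
  set t : ℝ := ‖F (e k₀)‖ with ht
  have htpos : 0 < t := lt_of_lt_of_le (norm_pos_iff.2 hi₀) (hk₀ i₀)
  set η : EuclideanSpace ℂ (Fin p) := (((t ^ 2)⁻¹ : ℝ) : ℂ) • F (e k₀) with hη
  have hηn : ‖η‖ = t⁻¹ := by
    rw [hη, norm_smul, Complex.norm_real, Real.norm_of_nonneg (by positivity), ← ht]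
    field_simp
  have hFx : ∀ x, F x = ∑ k, e.coord k x • F (e k) := by
    intro x
    conv_lhs => rw [← e.sum_repr x, map_sum]
    refine Finset.sum_congr rfl fun k _ => ?_
    rw [map_smul, e.coord_apply]
  have hux : ∀ x, d.u x = ∑ i, e.coord i x • d.u (e i) := by
    intro x
    conv_lhs => rw [← e.sum_repr x, map_sum]
    refine Finset.sum_congr rfl fun k _ => ?_
    rw [map_smul, e.coord_apply]
  have hadj : ∀ x, adjoint (d.u x) = ∑ j, conj (e.coord j x) • adjoint (d.u (e j)) := by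
    intro x
    rw [hux x, map_sum]
    refine Finset.sum_congr rfl fun j _ => ?_
    exact LinearIsometryEquiv.map_smulₛₗ _ _ _
  refine ⟨(fun i j k => inner ℂ η (d.u (e i) (adjoint (d.u (e j)) (F (e k)))),
    fun k => inner ℂ η (F (e k))), ?_, ?_, ?_⟩
  · have hM : ∀ i, ‖e i‖ ≤ 1 + ∑ i, ‖e i‖ := by
      intro i
      have := Finset.single_le_sum (f := fun i => ‖e i‖) (fun i _ => norm_nonneg _)
        (Finset.mem_univ i)
      linarith
    have hM0 : 0 ≤ 1 + ∑ i, ‖e i‖ := by positivity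
    have hMM : 0 ≤ (1 + ∑ i, ‖e i‖) ^ 2 := by positivity
    rw [pi_norm_le_iff_of_nonneg hMM]
    intro i
    rw [pi_norm_le_iff_of_nonneg hMM]
    intro j
    rw [pi_norm_le_iff_of_nonneg hMM]
    intro k
    refine (norm_inner_le_norm _ _).trans ?_
    rw [hηn]
    have h1 : ‖d.u (e i) (adjoint (d.u (e j)) (F (e k)))‖ ≤ ‖e i‖ * (‖e j‖ * t) := by
      refine ((d.u (e i)).le_opNorm _).trans ?_
      refine mul_le_mul (d.hu _) ?_ (norm_nonneg _) (norm_nonneg _)
      refine ((adjoint (d.u (e j))).le_opNorm _).trans ?_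
      rw [LinearIsometryEquiv.norm_map]
      exact mul_le_mul (d.hu _) (hk₀ k) (norm_nonneg _) (norm_nonneg _)
    calc t⁻¹ * ‖d.u (e i) (adjoint (d.u (e j)) (F (e k)))‖
        ≤ t⁻¹ * (‖e i‖ * (‖e j‖ * t)) := mul_le_mul_of_nonneg_left h1 (by positivity)
      _ = ‖e i‖ * ‖e j‖ := by field_simp
      _ ≤ (1 + ∑ i, ‖e i‖) * (1 + ∑ i, ‖e i‖) :=
          mul_le_mul (hM i) (hM j) (norm_nonneg _) hM0
      _ = _ := by ring
  · refine le_antisymm ?_ ?_
    · rw [pi_norm_le_iff_of_nonneg zero_le_one]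
      intro k
      refine (norm_inner_le_norm _ _).trans ?_
      rw [hηn]
      calc t⁻¹ * ‖F (e k)‖ ≤ t⁻¹ * t := mul_le_mul_of_nonneg_left (hk₀ k) (by positivity)
        _ = 1 := inv_mul_cancel₀ htpos.ne'
    · have h1 : inner ℂ η (F (e k₀)) = 1 := by
        rw [hη, inner_smul_left, Complex.conj_ofReal, inner_self_eq_norm_sq_to_K]
        have h2 : (((t ^ 2)⁻¹ : ℝ) : ℂ) * ((t : ℝ) : ℂ) ^ 2 = 1 := by
          have h3 : ((t : ℝ) : ℂ) ≠ 0 := Complex.ofReal_ne_zero.2 htpos.ne'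
          push_cast
          field_simp
        exact h2
      have h2 := norm_le_pi_norm (fun k => inner ℂ η (F (e k))) k₀
      simp only [h1, norm_one] at h2
      exact h2
  · -- the identity
    have hid : ∀ x, cptF e (fun i j k => inner ℂ η (d.u (e i) (adjoint (d.u (e j)) (F (e k)))),
        fun k => inner ℂ η (F (e k))) x =
        inner ℂ η (d.u x (adjoint (d.u x) (F x)) - (((‖x‖ : ℝ) : ℂ) ^ 2) • F x) := by
      intro x
      rw [inner_sub_right, inner_smul_right]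
      unfold cptF
      congr 1
      · conv_rhs => rw [hadj x, hux x, hFx x]
        rw [ContinuousLinearMap.sum_apply, inner_sum]
        refine Finset.sum_congr rfl fun i _ => ?_
        rw [ContinuousLinearMap.smul_apply, inner_smul_right, ContinuousLinearMap.sum_apply,
          map_sum, inner_sum, Finset.mul_sum]
        refine Finset.sum_congr rfl fun j _ => ?_
        rw [ContinuousLinearMap.smul_apply, map_smul, inner_smul_right, map_sum, map_sum, inner_sum,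
          Finset.mul_sum, Finset.mul_sum]
        refine Finset.sum_congr rfl fun k _ => ?_
        rw [map_smul, map_smul, inner_smul_right]
        ring
      · congr 1
        rw [hFx x, inner_sum]
        refine Finset.sum_congr rfl fun k _ => ?_
        rw [inner_smul_right, mul_comm]
    have hpt : ∀ x ∈ ball (0 : E) 1, ‖cptF e (fun i j k => inner ℂ η
        (d.u (e i) (adjoint (d.u (e j)) (F (e k)))), fun k => inner ℂ η (F (e k))) x‖ ^ 2 ≤
        8 * t⁻¹ ^ 2 * D x := by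
      intro x hx
      rw [hid]
      have h1 := norm_inner_le_norm (𝕜 := ℂ) η
        (d.u x (adjoint (d.u x) (F x)) - (((‖x‖ : ℝ) : ℂ) ^ 2) • F x)
      rw [hηn] at h1
      have h2 := pow_le_pow_left₀ (norm_nonneg _) h1 2
      refine h2.trans ?_
      rw [mul_pow]
      have h3 := mul_le_mul_of_nonneg_left (hDle x hx) (show 0 ≤ t⁻¹ ^ 2 by positivity)
      refine h3.trans (le_of_eq ?_)
      ring
    have hcf : Continuous fun x => ‖cptF e (fun i j k => inner ℂ η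
        (d.u (e i) (adjoint (d.u (e j)) (F (e k)))), fun k => inner ℂ η (F (e k))) x‖ ^ 2 := by
      have h1 := (cpt_cont e).comp (Continuous.prodMk_right
        ((fun i j k => inner ℂ η (d.u (e i) (adjoint (d.u (e j)) (F (e k)))),
          fun k => inner ℂ η (F (e k))) : (Fin n → Fin n → Fin n → ℂ) × (Fin n → ℂ)))
      exact h1.norm.pow 2
    have hFc : Continuous F := F.continuous_of_finiteDimensional
    have hi3 : IntegrableOn (fun x => (1 - ‖x‖ ^ 2) * ‖F x‖ ^ 2) (ball (0 : E) 1) μ :=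
      cpt_integrableOn (by fun_prop)
    have hsc : Continuous fun x : E => (∑ k, ‖e.coord k x‖) ^ 2 :=
      (continuous_finset_sum _ fun k _ => (cpt_coord_cont e k).norm).pow 2
    have h1 : ∫ x in ball (0 : E) 1, ‖cptF e (fun i j k => inner ℂ η
        (d.u (e i) (adjoint (d.u (e j)) (F (e k)))), fun k => inner ℂ η (F (e k))) x‖ ^ 2 ∂μ ≤
        8 * t⁻¹ ^ 2 * ∫ x in ball (0 : E) 1, D x ∂μ := by
      rw [← integral_const_mul]
      exact setIntegral_mono_on (cpt_integrableOn hcf) (hDi.const_mul _) measurableSet_ball hpt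
    have hI0 : 0 ≤ ∫ x in ball (0 : E) 1, (1 - ‖x‖ ^ 2) * ‖F x‖ ^ 2 ∂μ := by
      refine setIntegral_nonneg measurableSet_ball fun x hx => ?_
      rw [mem_ball_zero_iff] at hx
      exact mul_nonneg (by nlinarith [norm_nonneg x]) (by positivity)
    have hI1 : ∫ x in ball (0 : E) 1, (1 - ‖x‖ ^ 2) * ‖F x‖ ^ 2 ∂μ ≤
        t ^ 2 * ∫ x in ball (0 : E) 1, (∑ k, ‖e.coord k x‖) ^ 2 ∂μ := by
      rw [← integral_const_mul]
      refine setIntegral_mono_on hi3 ((cpt_integrableOn hsc).const_mul _) measurableSet_ball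
        fun x hx => ?_
      have h2 : ‖F x‖ ≤ t * ∑ k, ‖e.coord k x‖ := by
        rw [hFx x, Finset.mul_sum]
        refine (norm_sum_le _ _).trans (Finset.sum_le_sum fun k _ => ?_)
        rw [norm_smul, mul_comm]
        exact mul_le_mul_of_nonneg_right (hk₀ k) (norm_nonneg _)
      have h3 := pow_le_pow_left₀ (norm_nonneg _) h2 2
      rw [mul_pow] at h3
      have h4 : 0 ≤ ‖x‖ ^ 2 * ‖F x‖ ^ 2 := by positivity
      nlinarith
    have h2 : (n + 1 - 2 * c : ℝ) ≤ 2 * ε := by linarith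
    have hε : 0 ≤ 8 * t⁻¹ ^ 2 := by positivity
    have h3 : ∫ x in ball (0 : E) 1, D x ∂μ ≤
        2 * ε * ∫ x in ball (0 : E) 1, (1 - ‖x‖ ^ 2) * ‖F x‖ ^ 2 ∂μ :=
      hDint.trans (mul_le_mul_of_nonneg_right h2 hI0)
    by_cases hε0 : 0 ≤ ε
    · calc _ ≤ 8 * t⁻¹ ^ 2 * ∫ x in ball (0 : E) 1, D x ∂μ := h1
        _ ≤ 8 * t⁻¹ ^ 2 * (2 * ε * (t ^ 2 * ∫ x in ball (0 : E) 1, (∑ k, ‖e.coord k x‖) ^ 2 ∂μ)) :=
            mul_le_mul_of_nonneg_left (h3.trans (mul_le_mul_of_nonneg_left hI1 (by linarith))) hε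
        _ = _ := by field_simp; ring
    · -- impossible case: the integral of `D` would be negative
      push Not at hε0
      exfalso
      have h5 : 0 ≤ ∫ x in ball (0 : E) 1, D x ∂μ := setIntegral_nonneg measurableSet_ball hD0
      have h6 : 0 < ∫ x in ball (0 : E) 1, (1 - ‖x‖ ^ 2) * ‖F x‖ ^ 2 ∂μ := by
        rw [setIntegral_pos_iff_support_of_nonneg_ae ?_ hi3]
        · have hopen : IsOpen ({x : E | F x ≠ 0} ∩ ball (0 : E) 1) :=
            (isOpen_ne_fun hFc continuous_const).inter isOpen_ball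
          have hx0 : e k₀ ≠ 0 := e.ne_zero k₀
          have hxn : 0 < ‖e k₀‖ := norm_pos_iff.2 hx0
          have hnon : ({x : E | F x ≠ 0} ∩ ball (0 : E) 1).Nonempty := by
            refine ⟨(((2 * ‖e k₀‖)⁻¹ : ℝ) : ℂ) • e k₀, ?_, ?_⟩
            · show F _ ≠ 0
              rw [map_smul]
              refine smul_ne_zero ?_ ?_
              · exact Complex.ofReal_ne_zero.2 (by positivity)
              · exact norm_pos_iff.1 htpos
            · rw [mem_ball_zero_iff, norm_smul, Complex.norm_real,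
                Real.norm_of_nonneg (by positivity)]
              rw [mul_inv, mul_assoc, inv_mul_cancel₀ hxn.ne']
              norm_num
          refine lt_of_lt_of_le (hopen.measure_pos μ hnon) (measure_mono ?_)
          rintro x ⟨hx1, hx2⟩
          refine ⟨?_, hx2⟩
          rw [Function.mem_support]
          rw [mem_ball_zero_iff] at hx2
          have h7 : 0 < 1 - ‖x‖ ^ 2 := by nlinarith [norm_nonneg x]
          have h8 : 0 < ‖F x‖ := norm_pos_iff.2 hx1
          positivity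
        · refine (ae_restrict_iff' measurableSet_ball).2 (Filter.Eventually.of_forall fun x hx => ?_)
          rw [mem_ball_zero_iff] at hx
          exact mul_nonneg (by nlinarith [norm_nonneg x]) (by positivity)
      have h7 : 2 * ε * ∫ x in ball (0 : E) 1, (1 - ‖x‖ ^ 2) * ‖F x‖ ^ 2 ∂μ < 0 :=
        mul_neg_of_neg_of_pos (by linarith) h6
      linarith

private theorem cpt_min (μ : Measure E) [μ.IsAddHaarMeasure] {n : ℕ}
    (e : Module.Basis (Fin n) ℂ E) (M C₀ : ℝ) (hC₀nn : 0 ≤ C₀)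
    (hex : ∀ ε : ℝ, 0 < ε → ε < 1 / 2 → ∃ s : (Fin n → Fin n → Fin n → ℂ) × (Fin n → ℂ),
      ‖s.1‖ ≤ M ^ 2 ∧ ‖s.2‖ = 1 ∧
      ∫ x in ball (0 : E) 1, ‖cptF e s x‖ ^ 2 ∂μ ≤ 16 * ε * C₀) :
    ∃ s : (Fin n → Fin n → Fin n → ℂ) × (Fin n → ℂ), ‖s.2‖ = 1 ∧
      ∫ x in ball (0 : E) 1, ‖cptF e s x‖ ^ 2 ∂μ ≤ 0 := by
  classical
  have hp : ProperSpace E := FiniteDimensional.proper ℂ E
  set S : Set ((Fin n → Fin n → Fin n → ℂ) × (Fin n → ℂ)) :=
    (closedBall (0 : Fin n → Fin n → Fin n → ℂ) (M ^ 2)) ×ˢ (sphere (0 : Fin n → ℂ) 1) with hS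
  have hScomp : IsCompact S := (isCompact_closedBall _ _).prod (isCompact_sphere _ _)
  have hae : (ball (0 : E) 1 : Set E) =ᵐ[μ] closedBall (0 : E) 1 := by
    rw [ae_eq_set]
    constructor
    · rw [Set.sdiff_eq_empty.2 ball_subset_closedBall, measure_empty]
    · rw [closedBall_sdiff_ball]
      exact Measure.addHaar_sphere_of_ne_zero μ 0 one_ne_zero
  have hΦc : Continuous fun s : (Fin n → Fin n → Fin n → ℂ) × (Fin n → ℂ) =>
      ∫ x in ball (0 : E) 1, ‖cptF e s x‖ ^ 2 ∂μ := by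
    have h0 : Continuous (Function.uncurry
        fun (s : (Fin n → Fin n → Fin n → ℂ) × (Fin n → ℂ)) (x : E) => ‖cptF e s x‖ ^ 2) :=
      (cpt_cont e).norm.pow 2
    have h1 : Continuous fun s : (Fin n → Fin n → Fin n → ℂ) × (Fin n → ℂ) =>
        ∫ x in closedBall (0 : E) 1, ‖cptF e s x‖ ^ 2 ∂μ :=
      continuous_parametric_integral_of_continuous h0 (isCompact_closedBall _ _)
    have h2 : (fun s : (Fin n → Fin n → Fin n → ℂ) × (Fin n → ℂ) =>
          ∫ x in ball (0 : E) 1, ‖cptF e s x‖ ^ 2 ∂μ) =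
        fun s => ∫ x in closedBall (0 : E) 1, ‖cptF e s x‖ ^ 2 ∂μ := by
      funext s
      exact setIntegral_congr_set hae
    rw [h2]
    exact h1
  have hmemS : ∀ s : (Fin n → Fin n → Fin n → ℂ) × (Fin n → ℂ), s ∈ S ↔
      ‖s.1‖ ≤ M ^ 2 ∧ ‖s.2‖ = 1 := by
    intro s
    rw [hS, Set.mem_prod, mem_closedBall_zero_iff, mem_sphere_zero_iff_norm]
  obtain ⟨s₁, hs₁, hs₁', _⟩ := hex (1 / 4) (by norm_num) (by norm_num)
  obtain ⟨s, hs, hmin⟩ := hScomp.exists_isMinOn ⟨s₁, (hmemS s₁).2 ⟨hs₁, hs₁'⟩⟩ hΦc.continuousOn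
  refine ⟨s, ((hmemS s).1 hs).2, ?_⟩
  refine le_of_forall_pos_le_add fun δ hδ => ?_
  rw [zero_add]
  set ε : ℝ := min (1 / 4) (δ / (16 * (C₀ + 1))) with hε
  have hε0 : 0 < ε := lt_min (by norm_num) (by positivity)
  have hε1 : ε < 1 / 2 := lt_of_le_of_lt (min_le_left _ _) (by norm_num)
  have hε2 : ε ≤ δ / (16 * (C₀ + 1)) := min_le_right _ _
  obtain ⟨s', hs', hs'', hle⟩ := hex ε hε0 hε1
  have h1 := hmin ((hmemS s').2 ⟨hs', hs''⟩)
  refine le_trans h1 (hle.trans ?_)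
  rw [le_div_iff₀ (by positivity)] at hε2
  nlinarith

private theorem cpt_zero (μ : Measure E) [μ.IsAddHaarMeasure] {n : ℕ}
    (e : Module.Basis (Fin n) ℂ E) (s : (Fin n → Fin n → Fin n → ℂ) × (Fin n → ℂ))
    (hΦ0 : ∫ x in ball (0 : E) 1, ‖cptF e s x‖ ^ 2 ∂μ ≤ 0) (x : E) : cptF e s x = 0 := by
  -- the integrand vanishes
  have hcs : Continuous fun x => cptF e s x := by
    have h1 := (cpt_cont e).comp (Continuous.prodMk_right s)
    exact h1
  have hc2 : Continuous fun x => ‖cptF e s x‖ ^ 2 := hcs.norm.pow 2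
  have hz : (fun x => ‖cptF e s x‖ ^ 2) =ᵐ[μ.restrict (ball (0 : E) 1)] 0 := by
    have h1 : ∫ x in ball (0 : E) 1, ‖cptF e s x‖ ^ 2 ∂μ = 0 :=
      le_antisymm hΦ0 (setIntegral_nonneg measurableSet_ball fun x _ => by positivity)
    exact (setIntegral_eq_zero_iff_of_nonneg_ae
      (Filter.Eventually.of_forall fun x => by positivity) (cpt_integrableOn hc2)).1 h1
  have hz2 : Set.EqOn (fun x => ‖cptF e s x‖ ^ 2) (fun _ => 0) (ball (0 : E) 1) :=
    Measure.eqOn_open_of_ae_eq hz isOpen_ball hc2.continuousOn continuous_const.continuousOn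
  have hball : ∀ x ∈ ball (0 : E) 1, cptF e s x = 0 := by
    intro x hx
    have h1 : ‖cptF e s x‖ ^ 2 = 0 := hz2 hx
    exact norm_eq_zero.1 ((pow_eq_zero_iff (by norm_num)).1 h1)
  set t : ℝ := (‖x‖ + 1)⁻¹ / 2 with ht
  have htpos : 0 < t := by positivity
  have hmem : (t : ℂ) • x ∈ ball (0 : E) 1 := by
    rw [mem_ball_zero_iff, norm_smul, Complex.norm_real, Real.norm_of_nonneg htpos.le, ht]
    have h1 : 0 < ‖x‖ + 1 := by positivity
    rw [div_mul_eq_mul_div, div_lt_iff₀ (by norm_num), inv_mul_lt_iff₀ h1]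
    nlinarith [norm_nonneg x]
  have h1 := hball _ hmem
  rw [cpt_homog e s t htpos.le x] at h1
  rcases mul_eq_zero.1 h1 with h2 | h2
  · exact absurd ((pow_eq_zero_iff (by norm_num)).1 h2) (Complex.ofReal_ne_zero.2 htpos.ne')
  · exact h2

private theorem cpt_all (μ : Measure E) [μ.IsAddHaarMeasure] {n : ℕ}
    (e : Module.Basis (Fin n) ℂ E)
    (h : ∀ ε : ℝ, 0 < ε → ∃ (p m : ℕ) (c : ℝ), (n + 1) / 2 - ε < c ∧
      Nonempty (Dat e (EuclideanSpace ℂ (Fin p)) (EuclideanSpace ℂ (Fin m)) c)) :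
    ∃ s : (Fin n → Fin n → Fin n → ℂ) × (Fin n → ℂ), ‖s.2‖ = 1 ∧ ∀ x, cptF e s x = 0 := by
  obtain ⟨s, hs1, hs2⟩ := cpt_min μ e (1 + ∑ i, ‖e i‖)
    (∫ x in ball (0 : E) 1, (∑ k, ‖e.coord k x‖) ^ 2 ∂μ)
    (setIntegral_nonneg measurableSet_ball fun x _ => by positivity) (fun ε hε hε2 => by
      obtain ⟨p, m, c, hc, ⟨d⟩⟩ := h ε hε
      have hc0 : 0 < c := by
        have : (0 : ℝ) ≤ n := Nat.cast_nonneg n
        linarith
      exact cpt_one μ e hc0 hc d)
  exact ⟨s, hs1, fun x => cpt_zero μ e s hs2 x⟩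

end one

theorem cpt {n : ℕ} (e : Module.Basis (Fin n) ℂ E)
    (h : ∀ ε : ℝ, 0 < ε → ∃ (p m : ℕ) (c : ℝ), (n + 1) / 2 - ε < c ∧
      Nonempty (Dat e (EuclideanSpace ℂ (Fin p)) (EuclideanSpace ℂ (Fin m)) c)) :
    ∃ (P : Fin n → Fin n → Fin n → ℂ) (l : Fin n → ℂ), l ≠ 0 ∧ ∀ x : E,
      (‖x‖ : ℂ) ^ 2 * ∑ k, l k * e.coord k x =
        ∑ i, ∑ j, ∑ k, P i j k * e.coord i x * conj (e.coord j x) * e.coord k x := by
  have hp : ProperSpace E := FiniteDimensional.proper ℂ E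
  let _ : MeasurableSpace E := borel E
  have _ : BorelSpace E := ⟨rfl⟩
  obtain ⟨s, h1, hall⟩ := cpt_all (Measure.addHaar : Measure E) e h
  refine ⟨s.1, s.2, ?_, fun x => ?_⟩
  · intro h0
    rw [h0, norm_zero] at h1
    exact zero_ne_one h1
  · have h1 := hall x
    unfold cptF at h1
    rw [sub_eq_zero] at h1
    exact h1.symm

end Pool.MinMax.Odd
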