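import Pool.Agent.Work.MP_9667ca_an.Space

/-!
# MP_9667ca_an (all dimensions): basic definitions

`E` is a complex normed space of dimension `n` with a basis `e`. `wt x = max 0 (1 - ‖x‖²)` is the
weight, `theta x` is the complex functional whose real part is the derivative of the norm at `x`,
and `Dat e K L c` is the finite-dimensional data (compressed contraction `u`, transposed matrices `w`,
a pair `a, b` of top singular vectors of the tensor) with singular value `c`.
-/

namespace Pool.MinMax.Odd

open ContinuousLinearMap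

variable {E : Type*} [NormedAddCommGroup E] [NormedSpace ℂ E]

/-- The weight `max 0 (1 - ‖x‖²)`. -/
noncomputable def wt (x : E) : ℝ := max 0 (1 - ‖x‖ ^ 2)

/-- The complex functional whose real part is the (real) derivative of the norm at `x`. -/
noncomputable def theta (x : E) : StrongDual ℂ E :=
  StrongDual.extendRCLike (fderiv ℝ (fun y : E => ‖y‖) x)

/-- The coordinate functionals of the basis `e`. -/
noncomputable def co [FiniteDimensional ℂ E] {n : ℕ} (e : Module.Basis (Fin n) ℂ E) (i : Fin n) :
    StrongDual ℂ E :=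
  LinearMap.toContinuousLinearMap (e.coord i)

/-- The finite-dimensional data attached to a tensor with norm at least `c`. -/
structure Dat [FiniteDimensional ℂ E] {n : ℕ} (e : Module.Basis (Fin n) ℂ E) (K L : Type*)
    [NormedAddCommGroup K] [InnerProductSpace ℂ K] [CompleteSpace K]
    [NormedAddCommGroup L] [InnerProductSpace ℂ L] [CompleteSpace L] (c : ℝ) where
  /-- the contraction `E → B(K)` -/
  u : E →ₗ[ℂ] (K →L[ℂ] K)
  /-- the contraction `E* → B(L)` -/
  w : StrongDual ℂ E →ₗ[ℂ] (L →L[ℂ] L)
  /-- first singular vector -/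
  a : L →L[ℂ] K
  /-- second singular vector -/
  b : L →L[ℂ] K
  hu : ∀ x, ‖u x‖ ≤ ‖x‖
  hw : ∀ ζ, ‖w ζ‖ ≤ ‖ζ‖
  ha : ‖a‖ = 1
  h1 : ∑ i, u (e i) ∘L a ∘L w (co e i) = (c : ℂ) • b
  h2 : ∑ i, w (co e i) ∘L adjoint b ∘L u (e i) = (c : ℂ) • adjoint a

end Pool.MinMax.Odd
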