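import Pool.Agent.Work.MP_9667ca_an.Odd.Ibp

/-!
# MP_9667ca_an (all dimensions), module EULER: the radial moment

`∫_{‖x‖<1} ‖x‖² ‖F x‖² dx = (n + 1) ∫_{‖x‖<1} (1 - ‖x‖²) ‖F x‖² dx` for linear `F : E → K`,
`n = dim E`.

Proof. Apply `ibp` with `Q = Q_j`, `Q_j x y = (e.coord j x) • F y` (a bilinear map, e.g.
`(e.coord j).smulRight F`), and `h = e j`, and sum over `j` (`integral_finset_sum` with
`ibp_integrable`, `ibp_integrable'`).
Left side: `∑_j θ(x)(e_j) (e.coord j x) = θ(x)(x)` (`Module.Basis.sum_repr`, `map_sum`), and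
`θ(x)(x) = ‖x‖` for a.e. `x` (`theta_self_ae`, `integral_congr_ae`, `ae_restrict_of_ae`), so the
integrand is a.e. `Re (‖x‖ ‖x‖ ⟪F x, F x⟫) = ‖x‖² ‖F x‖²` (`inner_self_eq_norm_sq_to_K`).
Right side: `∑_j ⟪F x, (e.coord j (e_j)) F x + (e.coord j x) F(e_j)⟫ = n ‖F x‖² + ⟪F x, F x⟫
= (n + 1) ‖F x‖²`, since `e.coord j (e j) = 1` and `∑_j (e.coord j x) F (e j) = F x`.
-/

namespace Pool.MinMax.Odd

open MeasureTheory Metric

variable {E : Type*} [NormedAddCommGroup E] [NormedSpace ℂ E] [FiniteDimensional ℂ E]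
  [MeasurableSpace E] [BorelSpace E] {μ : Measure E} [μ.IsAddHaarMeasure]
  {K : Type*} [NormedAddCommGroup K] [InnerProductSpace ℂ K]

theorem euler {n : ℕ} (e : Module.Basis (Fin n) ℂ E) (F : E →ₗ[ℂ] K) :
    ∫ x in ball (0 : E) 1, ‖x‖ ^ 2 * ‖F x‖ ^ 2 ∂μ =
      (n + 1) * ∫ x in ball (0 : E) 1, (1 - ‖x‖ ^ 2) * ‖F x‖ ^ 2 ∂μ := by
  have hsum : ∀ x : E, ∑ j, e.coord j x • e j = x := fun x => by
    simp [e.sum_repr x]
  have hff : ∀ x : E, (inner ℂ (F x) (F x) : ℂ) = ((‖F x‖ ^ 2 : ℝ) : ℂ) := fun x => by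
    rw [inner_self_eq_norm_sq_to_K]
    push_cast
    rfl
  -- the sum of the instances of `ibp`
  have h1 : ∑ j, ∫ x in ball (0 : E) 1,
        ((‖x‖ : ℂ) * theta x (e j) * inner ℂ (F x) (((e.coord j).smulRight F) x x)).re ∂μ =
      ∑ j, ∫ x in ball (0 : E) 1, (1 - ‖x‖ ^ 2) *
        (inner ℂ (F x) (((e.coord j).smulRight F) (e j) x +
          ((e.coord j).smulRight F) x (e j)) : ℂ).re ∂μ :=
    Finset.sum_congr rfl fun j _ => ibp F ((e.coord j).smulRight F) (e j)
  rw [← integral_finsetSum _ fun j _ => ibp_integrable F ((e.coord j).smulRight F) (e j),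
    ← integral_finsetSum _ fun j _ => ibp_integrable' F ((e.coord j).smulRight F) (e j)] at h1
  have hl : ∫ x in ball (0 : E) 1, (∑ j, ((‖x‖ : ℂ) * theta x (e j) *
        inner ℂ (F x) (((e.coord j).smulRight F) x x)).re) ∂μ =
      ∫ x in ball (0 : E) 1, ‖x‖ ^ 2 * ‖F x‖ ^ 2 ∂μ := by
    refine integral_congr_ae ?_
    filter_upwards [ae_restrict_of_ae (s := ball (0 : E) 1) (theta_self_ae (μ := μ))] with x hx
    rw [← Complex.re_sum]
    have h2 : ∑ j, (‖x‖ : ℂ) * theta x (e j) *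
        inner ℂ (F x) (((e.coord j).smulRight F) x x) =
        ((‖x‖ ^ 2 * ‖F x‖ ^ 2 : ℝ) : ℂ) := by
      have h3 : ∀ j, (‖x‖ : ℂ) * theta x (e j) *
          inner ℂ (F x) (((e.coord j).smulRight F) x x) =
          (‖x‖ : ℂ) * (e.coord j x * theta x (e j)) * ((‖F x‖ ^ 2 : ℝ) : ℂ) := by
        intro j
        rw [LinearMap.smulRight_apply, LinearMap.smul_apply, inner_smul_right, hff]
        ring
      simp only [h3]
      rw [← Finset.sum_mul, ← Finset.mul_sum]
      have h4 : ∑ j, e.coord j x * theta x (e j) = theta x x := by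
        conv_rhs => rw [← hsum x, map_sum]
        refine Finset.sum_congr rfl fun j _ => ?_
        rw [hsum x, map_smul, smul_eq_mul]
      rw [h4, hx]
      push_cast
      ring
    rw [h2, Complex.ofReal_re]
  have hr : ∫ x in ball (0 : E) 1, (∑ j, (1 - ‖x‖ ^ 2) *
        (inner ℂ (F x) (((e.coord j).smulRight F) (e j) x +
          ((e.coord j).smulRight F) x (e j)) : ℂ).re) ∂μ =
      ((n : ℝ) + 1) * ∫ x in ball (0 : E) 1, (1 - ‖x‖ ^ 2) * ‖F x‖ ^ 2 ∂μ := by
    rw [← integral_const_mul]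
    refine integral_congr_ae (Filter.Eventually.of_forall fun x => ?_)
    simp only
    rw [← Finset.mul_sum, ← Complex.re_sum]
    have h2 : ∑ j, (inner ℂ (F x) (((e.coord j).smulRight F) (e j) x +
          ((e.coord j).smulRight F) x (e j)) : ℂ) = (((n + 1) * ‖F x‖ ^ 2 : ℝ) : ℂ) := by
      have h3 : ∀ j, (inner ℂ (F x) (((e.coord j).smulRight F) (e j) x +
          ((e.coord j).smulRight F) x (e j)) : ℂ) =
          ((‖F x‖ ^ 2 : ℝ) : ℂ) + inner ℂ (F x) (e.coord j x • F (e j)) := by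
        intro j
        rw [LinearMap.smulRight_apply, LinearMap.smulRight_apply, LinearMap.smul_apply,
          LinearMap.smul_apply, inner_add_right]
        have h4 : e.coord j (e j) = 1 := by simp
        rw [h4, one_smul, hff]
      simp only [h3]
      rw [Finset.sum_add_distrib, ← inner_sum]
      have h5 : ∑ j, e.coord j x • F (e j) = F x := by
        conv_rhs => rw [← hsum x, map_sum]
        refine Finset.sum_congr rfl fun j _ => ?_
        rw [map_smul]
      rw [h5, hff]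
      simp only [Finset.sum_const, Finset.card_univ, Fintype.card_fin, nsmul_eq_mul]
      push_cast
      ring
    rw [h2, Complex.ofReal_re]
    ring
  rw [← hl, ← hr]
  exact h1

end Pool.MinMax.Odd
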