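import Pool.Agent.Work.MP_9667ca_an.Odd.IbpReal

/-!
# MP_9667ca_an (all dimensions), module IBP: integration by parts, complex form

For linear `F : E → K` and bilinear `Q : E × E → K` (complex (bi)linear), with
`g x = ⟪F x, Q x x⟫`:
`∫_{‖x‖<1} Re (‖x‖ θ(x)(h) g(x)) dx = ∫_{‖x‖<1} (1 - ‖x‖²) Re ⟪F x, Q h x + Q x h⟫ dx`.

Proof. Write `ρ = fderiv ℝ ‖·‖ x`. `Re (θ(x)(h) g) = ρ(h) Re g + ρ(I h) Im g` (`re_theta`, `im_theta`).
`ibp_real` for `f = Re g`, `v = h` and for `f = Im g`, `v = I • h`; add and divide by two: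
`∫ ‖x‖ (ρ(h) Re g + ρ(I h) Im g) = ½ ∫ (1 - ‖x‖²) (D_h Re g + D_{Ih} Im g)`.
The function `g` is `C^∞` (all maps are continuous (bi)linear since `E` is finite-dimensional; the
inner product is real bilinear and continuous), with
`D_v g(x) = ⟪F v, Q x x⟫ + ⟪F x, Q v x + Q x v⟫`.
Hence `D_h Re g = Re (A + B)`, `D_{Ih} Im g = Im (I A - I B) = Re A - Re B` with
`A = ⟪F x, Q h x + Q x h⟫`, `B = ⟪F h, Q x x⟫` (the inner product is conjugate linear in the first
variable). The sum is `2 Re A`.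
Integrability on the ball (needed to add the integrals): `g` is continuous and bounded on the ball,
`ρ` is measurable (`measurable_fderiv_apply_const`) with `|ρ(v)| ≤ ‖v‖`; the ball has finite measure.
-/

namespace Pool.MinMax.Odd

open MeasureTheory Metric
open scoped InnerProductSpace

variable {E : Type*} [NormedAddCommGroup E] [NormedSpace ℂ E] [FiniteDimensional ℂ E]
  [MeasurableSpace E] [BorelSpace E] {μ : Measure E} [μ.IsAddHaarMeasure]
  {K : Type*} [NormedAddCommGroup K] [InnerProductSpace ℂ K]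

/-- The bilinear map as a continuous bilinear map. -/
private noncomputable def qc (Q : E →ₗ[ℂ] E →ₗ[ℂ] K) : E →L[ℂ] (E →L[ℂ] K) :=
  LinearMap.toContinuousLinearMap
    ((LinearMap.toContinuousLinearMap : (E →ₗ[ℂ] K) ≃ₗ[ℂ] (E →L[ℂ] K)).toLinearMap ∘ₗ Q)

omit [MeasurableSpace E] [BorelSpace E] in
private theorem qc_apply (Q : E →ₗ[ℂ] E →ₗ[ℂ] K) (x y : E) : qc Q x y = Q x y := rfl

omit [MeasurableSpace E] [BorelSpace E] in
private theorem hasFDerivAt_q (Q : E →ₗ[ℂ] E →ₗ[ℂ] K) (x : E) :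
    HasFDerivAt (𝕜 := ℂ) (fun y : E => Q y y)
      (qc Q x ∘L ContinuousLinearMap.id ℂ E + (qc Q).flip x) x :=
  (qc Q).hasFDerivAt.clm_apply (hasFDerivAt_id x)

omit [MeasurableSpace E] [BorelSpace E] in
private theorem contDiff_q (Q : E →ₗ[ℂ] E →ₗ[ℂ] K) :
    ContDiff ℝ 1 (fun y : E => Q y y) := by
  have h : ContDiff ℂ 1 (fun y : E => qc Q y y) := (qc Q).contDiff.clm_apply contDiff_id
  exact h.restrict_scalars ℝ

omit [MeasurableSpace E] [BorelSpace E] in
private theorem contDiff_g (F : E →ₗ[ℂ] K) (Q : E →ₗ[ℂ] E →ₗ[ℂ] K) :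
    ContDiff ℝ 1 (fun y : E => inner ℂ (F y) (Q y y)) := by
  have h : ContDiff ℂ 1 (fun y : E => F y) := (LinearMap.toContinuousLinearMap F).contDiff
  exact ContDiff.inner ℂ (h.restrict_scalars ℝ) (contDiff_q Q)

omit [MeasurableSpace E] [BorelSpace E] in
private theorem hasFDerivAt_g (F : E →ₗ[ℂ] K) (Q : E →ₗ[ℂ] E →ₗ[ℂ] K) (x : E) :
    ∃ G : E →L[ℝ] ℂ, HasFDerivAt (𝕜 := ℝ) (fun y : E => (inner ℂ (F y) (Q y y) : ℂ)) G x ∧
      ∀ v, G v = inner ℂ (F v) (Q x x) + inner ℂ (F x) (Q v x + Q x v) := by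
  have h1 : HasFDerivAt (𝕜 := ℂ) (fun y : E => F y) (LinearMap.toContinuousLinearMap F) x :=
    (LinearMap.toContinuousLinearMap F).hasFDerivAt
  have h2 := (h1.restrictScalars ℝ).inner ℂ ((hasFDerivAt_q Q x).restrictScalars ℝ)
  refine ⟨_, h2, fun v => ?_⟩
  simp only [ContinuousLinearMap.comp_apply, fderivInnerCLM_apply,
    ContinuousLinearMap.prod_apply, ContinuousLinearMap.coe_restrictScalars',
    add_apply, ContinuousLinearMap.flip_apply, qc_apply,
    ContinuousLinearMap.id_apply, LinearMap.coe_toContinuousLinearMap']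
  rw [add_comm (Q v x), add_comm]

omit [MeasurableSpace E] [BorelSpace E] in
private theorem fderiv_re_g (F : E →ₗ[ℂ] K) (Q : E →ₗ[ℂ] E →ₗ[ℂ] K) (x v : E) :
    fderiv ℝ (fun y : E => (inner ℂ (F y) (Q y y) : ℂ).re) x v =
      (inner ℂ (F v) (Q x x) + inner ℂ (F x) (Q v x + Q x v) : ℂ).re := by
  obtain ⟨G, hG, hv⟩ := hasFDerivAt_g F Q x
  have h1 : HasFDerivAt (fun y : E => (inner ℂ (F y) (Q y y) : ℂ).re) (Complex.reCLM ∘L G) x :=
    Complex.reCLM.hasFDerivAt.comp x hG
  rw [h1.fderiv, ← hv]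
  rfl

omit [MeasurableSpace E] [BorelSpace E] in
private theorem fderiv_im_g (F : E →ₗ[ℂ] K) (Q : E →ₗ[ℂ] E →ₗ[ℂ] K) (x v : E) :
    fderiv ℝ (fun y : E => (inner ℂ (F y) (Q y y) : ℂ).im) x v =
      (inner ℂ (F v) (Q x x) + inner ℂ (F x) (Q v x + Q x v) : ℂ).im := by
  obtain ⟨G, hG, hv⟩ := hasFDerivAt_g F Q x
  have h1 : HasFDerivAt (fun y : E => (inner ℂ (F y) (Q y y) : ℂ).im) (Complex.imCLM ∘L G) x :=
    Complex.imCLM.hasFDerivAt.comp x hG
  rw [h1.fderiv, ← hv]
  rfl

/-- A continuous function is integrable on the unit ball. -/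
private theorem int_cont {f : E → ℝ} (hf : Continuous f) : IntegrableOn f (ball (0 : E) 1) μ := by
  have hp : ProperSpace E := FiniteDimensional.proper ℂ E
  exact (hf.continuousOn.integrableOn_compact (isCompact_closedBall 0 1)).mono_set
    ball_subset_closedBall

private theorem int_rho {f : E → ℝ} (hf : Continuous f) (v : E) :
    IntegrableOn (fun x => fderiv ℝ (fun y : E => ‖y‖) x v * f x) (ball (0 : E) 1) μ := by
  refine Integrable.bdd_mul (c := ‖v‖) (int_cont hf)
    (measurable_fderiv_apply_const ℝ (fun y : E => ‖y‖) v).aestronglyMeasurable ?_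
  refine Filter.Eventually.of_forall fun x => ?_
  rw [← re_theta, Real.norm_eq_abs]
  refine (Complex.abs_re_le_norm _).trans (((theta x).le_opNorm v).trans ?_)
  have := mul_le_mul_of_nonneg_right (norm_theta_le x) (norm_nonneg v)
  linarith

omit [FiniteDimensional ℂ E] [MeasurableSpace E] [BorelSpace E] in
private theorem integrand_eq (x h : E) (g : ℂ) :
    ((‖x‖ : ℂ) * theta x h * g).re =
      fderiv ℝ (fun y : E => ‖y‖) x h * (‖x‖ * g.re) +
        fderiv ℝ (fun y : E => ‖y‖) x (Complex.I • h) * (‖x‖ * g.im) := by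
  have h1 : ((‖x‖ : ℂ) * theta x h * g).re = ‖x‖ * ((theta x h).re * g.re - (theta x h).im * g.im) := by
    rw [mul_assoc, Complex.re_ofReal_mul, Complex.mul_re]
  rw [h1, re_theta, im_theta]
  ring

omit [MeasurableSpace E] [BorelSpace E] in
private theorem cont_g (F : E →ₗ[ℂ] K) (Q : E →ₗ[ℂ] E →ₗ[ℂ] K) :
    Continuous (fun y : E => (inner ℂ (F y) (Q y y) : ℂ)) := (contDiff_g F Q).continuous

omit [MeasurableSpace E] [BorelSpace E] in
private theorem cont_a (F : E →ₗ[ℂ] K) (Q : E →ₗ[ℂ] E →ₗ[ℂ] K) (h : E) :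
    Continuous (fun x : E => (1 - ‖x‖ ^ 2) * (inner ℂ (F x) (Q h x + Q x h) : ℂ).re) := by
  have hF : Continuous F := F.continuous_of_finiteDimensional
  have h1 : Continuous fun x : E => Q h x := (Q h).continuous_of_finiteDimensional
  have h2 : Continuous fun x : E => Q x h :=
    (Q.flip h).continuous_of_finiteDimensional
  have h3 : Continuous fun x : E => (inner ℂ (F x) (Q h x + Q x h) : ℂ) :=
    hF.inner (h1.add h2)
  have h4 := Complex.continuous_re.comp h3
  exact (continuous_const.sub (continuous_norm.pow 2)).mul h4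

/-- The integrand on the left of `ibp` is integrable. -/
theorem ibp_integrable (F : E →ₗ[ℂ] K) (Q : E →ₗ[ℂ] E →ₗ[ℂ] K) (h : E) :
    IntegrableOn (fun x => ((‖x‖ : ℂ) * theta x h * inner ℂ (F x) (Q x x)).re) (ball (0 : E) 1) μ := by
  have hc := cont_g F Q
  simp only [integrand_eq]
  refine Integrable.add (int_rho ?_ h) (int_rho ?_ (Complex.I • h))
  · exact continuous_norm.mul (Complex.continuous_re.comp hc)
  · exact continuous_norm.mul (Complex.continuous_im.comp hc)

/-- The integrand on the right of `ibp` is integrable. -/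
theorem ibp_integrable' (F : E →ₗ[ℂ] K) (Q : E →ₗ[ℂ] E →ₗ[ℂ] K) (h : E) :
    IntegrableOn (fun x => (1 - ‖x‖ ^ 2) * (inner ℂ (F x) (Q h x + Q x h) : ℂ).re)
      (ball (0 : E) 1) μ := int_cont (cont_a F Q h)

theorem ibp (F : E →ₗ[ℂ] K) (Q : E →ₗ[ℂ] E →ₗ[ℂ] K) (h : E) :
    ∫ x in ball (0 : E) 1, ((‖x‖ : ℂ) * theta x h * inner ℂ (F x) (Q x x)).re ∂μ =
      ∫ x in ball (0 : E) 1, (1 - ‖x‖ ^ 2) * (inner ℂ (F x) (Q h x + Q x h) : ℂ).re ∂μ := by
  have hc := cont_g F Q
  have hd := contDiff_g F Q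
  have hre : ContDiff ℝ 1 fun y : E => (inner ℂ (F y) (Q y y) : ℂ).re :=
    Complex.reCLM.contDiff.comp hd
  have him : ContDiff ℝ 1 fun y : E => (inner ℂ (F y) (Q y y) : ℂ).im :=
    Complex.imCLM.contDiff.comp hd
  have e1 := ibp_real (μ := μ) hre h
  have e2 := ibp_real (μ := μ) him (Complex.I • h)
  have cre : Continuous fun x : E => 2 * ‖x‖ * (inner ℂ (F x) (Q x x) : ℂ).re :=
    (continuous_const.mul continuous_norm).mul (Complex.continuous_re.comp hc)
  have cim : Continuous fun x : E => 2 * ‖x‖ * (inner ℂ (F x) (Q x x) : ℂ).im :=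
    (continuous_const.mul continuous_norm).mul (Complex.continuous_im.comp hc)
  -- left side
  have hl : 2 * ∫ x in ball (0 : E) 1, ((‖x‖ : ℂ) * theta x h * inner ℂ (F x) (Q x x)).re ∂μ =
      (∫ x in ball (0 : E) 1, 2 * ‖x‖ * fderiv ℝ (fun y : E => ‖y‖) x h *
        (inner ℂ (F x) (Q x x) : ℂ).re ∂μ) +
      ∫ x in ball (0 : E) 1, 2 * ‖x‖ * fderiv ℝ (fun y : E => ‖y‖) x (Complex.I • h) *
        (inner ℂ (F x) (Q x x) : ℂ).im ∂μ := by
    rw [← integral_const_mul, ← integral_add]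
    · refine integral_congr_ae (Filter.Eventually.of_forall fun x => ?_)
      simp only [integrand_eq]
      ring
    · refine (int_rho (μ := μ) cre h).congr (Filter.Eventually.of_forall fun x => ?_)
      simp only
      ring
    · refine (int_rho (μ := μ) cim (Complex.I • h)).congr (Filter.Eventually.of_forall fun x => ?_)
      simp only
      ring
  -- right side
  have hdr : Continuous fun x : E => (1 - ‖x‖ ^ 2) *
      fderiv ℝ (fun y : E => (inner ℂ (F y) (Q y y) : ℂ).re) x h :=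
    (continuous_const.sub (continuous_norm.pow 2)).mul
      ((hre.continuous_fderiv one_ne_zero).clm_apply continuous_const)
  have hdi : Continuous fun x : E => (1 - ‖x‖ ^ 2) *
      fderiv ℝ (fun y : E => (inner ℂ (F y) (Q y y) : ℂ).im) x (Complex.I • h) :=
    (continuous_const.sub (continuous_norm.pow 2)).mul
      ((him.continuous_fderiv one_ne_zero).clm_apply continuous_const)
  have hr : 2 * ∫ x in ball (0 : E) 1,
        (1 - ‖x‖ ^ 2) * (inner ℂ (F x) (Q h x + Q x h) : ℂ).re ∂μ =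
      (∫ x in ball (0 : E) 1, (1 - ‖x‖ ^ 2) *
        fderiv ℝ (fun y : E => (inner ℂ (F y) (Q y y) : ℂ).re) x h ∂μ) +
      ∫ x in ball (0 : E) 1, (1 - ‖x‖ ^ 2) *
        fderiv ℝ (fun y : E => (inner ℂ (F y) (Q y y) : ℂ).im) x (Complex.I • h) ∂μ := by
    rw [← integral_const_mul, ← integral_add (int_cont hdr) (int_cont hdi)]
    refine integral_congr_ae (Filter.Eventually.of_forall fun x => ?_)
    simp only [fderiv_re_g, fderiv_im_g]
    have h1 : (inner ℂ (F (Complex.I • h)) (Q x x) : ℂ) =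
        -(Complex.I * inner ℂ (F h) (Q x x)) := by
      rw [map_smul, inner_smul_left, Complex.conj_I]
      ring
    have h2 : (inner ℂ (F x) (Q (Complex.I • h) x + Q x (Complex.I • h)) : ℂ) =
        Complex.I * inner ℂ (F x) (Q h x + Q x h) := by
      rw [map_smul, map_smul, LinearMap.smul_apply, ← smul_add, inner_smul_right]
    rw [h1, h2]
    simp only [Complex.add_re, Complex.add_im, Complex.neg_im, Complex.mul_im, Complex.I_re,
      Complex.I_im]
    ring
  linarith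

end Pool.MinMax.Odd
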