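import Pool.Agent.Work.MP_9667ca_an.Odd.NormDer

/-!
# MP_9667ca_an (all dimensions), module IBPREAL: integration by parts against the weight

For a `C¹` real function `f` on `E` and a direction `v`:
`∫_{‖x‖<1} 2 ‖x‖ D‖·‖(x)(v) f(x) dx = ∫_{‖x‖<1} (1 - ‖x‖²) Df(x)(v) dx`.

Proof. Choose a smooth bump function `χ` with `χ = 1` on `closedBall 0 2` and compact support
(`ContDiffBump` centred at `0` with `rIn = 2`, `rOut = 3`). `g := χ f` is `C¹` with compact support, hence
Lipschitz (`ContDiff.lipschitzWith_of_hasCompactSupport`), and `g = f` on the ball of radius `2`, so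
`fderiv ℝ g x = fderiv ℝ f x` for `‖x‖ < 2` (`Filter.EventuallyEq.fderiv_eq`).
By `LipschitzWith.integral_lineDeriv_mul_eq` (Mathlib, `Analysis/Calculus/Rademacher`), applied to the
Lipschitz functions `g` and `wt` (compactly supported, `lipschitz_wt`, `hasCompactSupport_wt`):
`∫ lineDeriv ℝ g x v * wt x = ∫ lineDeriv ℝ wt x (-v) * g x`.
The left side is `∫_{‖x‖<1} fderiv ℝ f x v * (1 - ‖x‖²)` (the weight vanishes outside the unit ball; for
a differentiable function `lineDeriv ℝ g x v = fderiv ℝ g x v`,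
`DifferentiableAt.lineDeriv_eq_fderiv`), the right side is by `lineDeriv_wt_ae (-v)`
`∫_{‖x‖<1} 2 ‖x‖ fderiv ℝ ‖·‖ x v * f x` (use `setIntegral`, `integral_indicator`, `map_neg`).
-/

namespace Pool.MinMax.Odd

open MeasureTheory Metric

variable {E : Type*} [NormedAddCommGroup E] [NormedSpace ℂ E] [FiniteDimensional ℂ E]
  [MeasurableSpace E] [BorelSpace E] {μ : Measure E} [μ.IsAddHaarMeasure]

theorem ibp_real {f : E → ℝ} (hf : ContDiff ℝ 1 f) (v : E) :
    ∫ x in ball (0 : E) 1, 2 * ‖x‖ * fderiv ℝ (fun y : E => ‖y‖) x v * f x ∂μ =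
      ∫ x in ball (0 : E) 1, (1 - ‖x‖ ^ 2) * fderiv ℝ f x v ∂μ := by
  let χ : ContDiffBump (0 : E) := ⟨2, 3, by norm_num, by norm_num⟩
  set g : E → ℝ := fun x => χ x * f x with hg
  have hgc : ContDiff ℝ 1 g := χ.contDiff.mul hf
  have hgs : HasCompactSupport g := χ.hasCompactSupport.mul_right
  obtain ⟨C, hC⟩ := hgc.lipschitzWith_of_hasCompactSupport hgs one_ne_zero
  have hgf : ∀ x : E, ‖x‖ < 2 → g x = f x := by
    intro x hx
    have h1 : χ x = 1 := χ.one_of_mem_closedBall (by
      rw [mem_closedBall_zero_iff]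
      exact hx.le)
    rw [hg]
    simp only [h1, one_mul]
  have hgd : ∀ x ∈ ball (0 : E) 1, lineDeriv ℝ g x v = fderiv ℝ f x v := by
    intro x hx
    rw [mem_ball_zero_iff] at hx
    have h1 : g =ᶠ[nhds x] f := by
      have h2 : ∀ᶠ y in nhds x, ‖y‖ < 2 :=
        continuous_norm.continuousAt.eventually_lt_const (by linarith)
      filter_upwards [h2] with y hy
      exact hgf y hy
    rw [(hgc.differentiable one_ne_zero x).lineDeriv_eq_fderiv, h1.fderiv_eq]
  have hwt : ∀ x ∈ ball (0 : E) 1, wt x = 1 - ‖x‖ ^ 2 := by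
    intro x hx
    rw [mem_ball_zero_iff] at hx
    unfold wt
    rw [max_eq_right]
    have := norm_nonneg x
    nlinarith
  have hwt' : ∀ x ∉ ball (0 : E) 1, wt x = 0 := by
    intro x hx
    rw [mem_ball_zero_iff, not_lt] at hx
    unfold wt
    rw [max_eq_left]
    nlinarith
  have key := LipschitzWith.integral_lineDeriv_mul_eq (μ := μ) hC (lipschitz_wt (E := E)) hasCompactSupport_wt v
  have hL : ∫ x, lineDeriv ℝ g x v * wt x ∂μ =
      ∫ x in ball (0 : E) 1, (1 - ‖x‖ ^ 2) * fderiv ℝ f x v ∂μ := by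
    rw [← integral_indicator measurableSet_ball]
    refine integral_congr_ae (Filter.Eventually.of_forall fun x => ?_)
    by_cases hx : x ∈ ball (0 : E) 1
    · simp only [Set.indicator_of_mem hx]
      rw [hgd x hx, hwt x hx, mul_comm]
    · simp only [Set.indicator_of_notMem hx]
      rw [hwt' x hx, mul_zero]
  have hR : ∫ x, lineDeriv ℝ (wt : E → ℝ) x (-v) * g x ∂μ =
      ∫ x in ball (0 : E) 1, 2 * ‖x‖ * fderiv ℝ (fun y : E => ‖y‖) x v * f x ∂μ := by
    rw [← integral_indicator measurableSet_ball]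
    refine integral_congr_ae ?_
    filter_upwards [lineDeriv_wt_ae (μ := μ) (-v)] with x hx
    rw [hx]
    by_cases hxb : x ∈ ball (0 : E) 1
    · simp only [Set.indicator_of_mem hxb, map_neg]
      rw [hgf x (by
        rw [mem_ball_zero_iff] at hxb
        linarith)]
      ring
    · simp only [Set.indicator_of_notMem hxb]
      rw [zero_mul]
  rw [← hL, ← hR]
  exact key.symm

end Pool.MinMax.Odd
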