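import Mathlib

/-!
# MP_9667ca_an (all dimensions), module PAR: the parallelogram law

Let `‖x‖² ℓ(x) = p(x)` for all `x ∈ E`, where `ℓ(x) = ∑ l_k x_k` with `l ≠ 0` and
`p(x) = ∑ P_ijk x_i conj(x_j) x_k` (`x_i = e.coord i x`). Then the norm satisfies the parallelogram law.

Proof. (1) Let `x', y ∈ E` with `ℓ(x') = 0`, `ℓ(y) ≠ 0`. For `t ∈ ℂ`, `ℓ(x' + t y) = t ℓ(y)` and expanding
the product in each term there are `q₀₀, q₁₀, q₀₁, q₂₀, q₁₁, q₂₁ ∈ ℂ` with
`p(x' + t y) = q₀₀ + q₁₀ t + q₀₁ t̄ + q₂₀ t² + q₁₁ t t̄ + q₂₁ t² t̄` for all `t`. So with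
`G(t) = ‖x' + t y‖²`: `t ℓ(y) G(t) = q₀₀ + …`. At `t = 0`: `q₀₀ = 0`. For real `t → 0`, dividing by `t`,
`ℓ(y) G(0) = q₁₀ + q₀₁` (continuity of `G`), and for `t = i s`, `s → 0`: `ℓ(y) G(0) = q₁₀ - q₀₁`. So `q₀₁ = 0` and
`ℓ(y) G(t) = q₁₀ + q₂₀ t + q₁₁ t̄ + q₂₁ |t|²` for `t ≠ 0`, and for `t = 0` too.
(2) Hence for every `z₀ ∈ ℂ`: `ℓ(y) (G(z₀ + 1) + G(z₀ - 1) - 2 G(z₀)) = q₂₁ (|z₀+1|² + |z₀-1|² - 2|z₀|²)
= 2 q₂₁`, and `q₂₁ = p(y) = ℓ(y) ‖y‖²`.
(3) For arbitrary `x, y` with `ℓ(y) ≠ 0` put `z₀ = ℓ(x) / ℓ(y)`, `x' = x - z₀ y`, so `ℓ(x') = 0` and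
`x = x' + z₀ y`, `x ± y = x' + (z₀ ± 1) y`: (2) is `‖x+y‖² + ‖x-y‖² = 2‖x‖² + 2‖y‖²`.
(4) For `ℓ(y) = 0`: choose `y₀` with `ℓ(y₀) ≠ 0` (`l ≠ 0`: a basis vector); (3) holds for `y + s y₀`, `s ≠ 0`
real, and let `s → 0` (both sides are continuous in `s`).
-/

namespace Pool.MinMax.Odd

open scoped ComplexConjugate

variable {E : Type*} [NormedAddCommGroup E] [NormedSpace ℂ E]

/-- The trilinear form. -/
private noncomputable def tri {n : ℕ} (e : Module.Basis (Fin n) ℂ E)
    (P : Fin n → Fin n → Fin n → ℂ) (u v w : E) : ℂ :=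
  ∑ i, ∑ j, ∑ k, P i j k * e.coord i u * conj (e.coord j v) * e.coord k w

private theorem tri_expand {n : ℕ} (e : Module.Basis (Fin n) ℂ E)
    (P : Fin n → Fin n → Fin n → ℂ) (x y : E) (t : ℂ) :
    tri e P (x + t • y) (x + t • y) (x + t • y) =
      tri e P x x x + (tri e P y x x + tri e P x x y) * t + tri e P x y x * conj t +
        tri e P y x y * t ^ 2 + (tri e P y y x + tri e P x y y) * (t * conj t) +
        tri e P y y y * (t ^ 2 * conj t) := by
  unfold tri
  simp only [Finset.sum_mul, ← Finset.sum_add_distrib, map_add, map_smul, smul_eq_mul, map_mul]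
  refine Finset.sum_congr rfl fun i _ => Finset.sum_congr rfl fun j _ =>
    Finset.sum_congr rfl fun k _ => ?_
  ring

private theorem par_main {n : ℕ} (e : Module.Basis (Fin n) ℂ E)
    (P : Fin n → Fin n → Fin n → ℂ) (l : Fin n → ℂ)
    (h : ∀ x : E, (‖x‖ : ℂ) ^ 2 * ∑ k, l k * e.coord k x = tri e P x x x) (x y : E)
    (hx : ∑ k, l k * e.coord k x = 0) (t : ℂ) :
    (∑ k, l k * e.coord k y) * (‖x + t • y‖ : ℂ) ^ 2 =
      (tri e P y x x + tri e P x x y) + tri e P y x y * t +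
        (tri e P y y x + tri e P x y y) * conj t + tri e P y y y * (t * conj t) := by
  obtain ⟨ly, hly⟩ : ∃ ly, ly = ∑ k, l k * e.coord k y := ⟨_, rfl⟩
  rw [← hly]
  have hl : ∀ t : ℂ, ∑ k, l k * e.coord k (x + t • y) = t * ly := by
    intro t
    simp only [map_add, map_smul, smul_eq_mul, mul_add, Finset.sum_add_distrib]
    rw [hx, zero_add, hly, Finset.mul_sum]
    exact Finset.sum_congr rfl fun k _ => by ring
  have h0 : tri e P x x x = 0 := by rw [← h x, hx, mul_zero]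
  -- the identity times `t`
  have h1 : ∀ t : ℂ, (‖x + t • y‖ : ℂ) ^ 2 * (t * ly) =
      (tri e P y x x + tri e P x x y) * t + tri e P x y x * conj t +
        tri e P y x y * t ^ 2 + (tri e P y y x + tri e P x y y) * (t * conj t) +
        tri e P y y y * (t ^ 2 * conj t) := by
    intro t
    rw [← hl t, h, tri_expand, h0, zero_add]
  have hcont : Continuous fun t : ℂ => (‖x + t • y‖ : ℂ) ^ 2 := by fun_prop
  -- the coefficient of `conj t` vanishes
  have h2 : tri e P x y x = 0 := by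
    have hf : (fun s : ℝ => ly * ((‖x + (s : ℂ) • y‖ : ℂ) ^ 2 + (‖x + (-s : ℂ) • y‖ : ℂ) ^ 2 -
        (‖x + (Complex.I * s : ℂ) • y‖ : ℂ) ^ 2 - (‖x + (-(Complex.I * s) : ℂ) • y‖ : ℂ) ^ 2)) =
        fun _ : ℝ => 4 * tri e P x y x := by
      refine Continuous.ext_on (dense_compl_singleton (0 : ℝ)) (by fun_prop) continuous_const ?_
      intro s hs
      have hs' : (s : ℂ) ≠ 0 := by
        have : s ≠ 0 := hs
        exact_mod_cast this
      have a1 := h1 s
      have a2 := h1 (-s)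
      have a3 := h1 (Complex.I * s)
      have a4 := h1 (-(Complex.I * s))
      simp only [map_neg, map_mul, Complex.conj_ofReal, Complex.conj_I] at a1 a2 a3 a4
      have hI : Complex.I * Complex.I = -1 := Complex.I_mul_I
      show ly * ((‖x + (s : ℂ) • y‖ : ℂ) ^ 2 + (‖x + (-s : ℂ) • y‖ : ℂ) ^ 2 -
        (‖x + (Complex.I * s : ℂ) • y‖ : ℂ) ^ 2 - (‖x + (-(Complex.I * s) : ℂ) • y‖ : ℂ) ^ 2) =
        4 * tri e P x y x
      have hsI : (Complex.I * s : ℂ) ≠ 0 := mul_ne_zero Complex.I_ne_zero hs'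
      have b1 : ly * (‖x + (s : ℂ) • y‖ : ℂ) ^ 2 = (tri e P y x x + tri e P x x y) +
          tri e P x y x + tri e P y x y * s + (tri e P y y x + tri e P x y y) * s +
          tri e P y y y * (s * s) := by
        apply mul_right_cancel₀ hs'
        linear_combination a1
      have b2 : ly * (‖x + (-s : ℂ) • y‖ : ℂ) ^ 2 = (tri e P y x x + tri e P x x y) +
          tri e P x y x - tri e P y x y * s - (tri e P y y x + tri e P x y y) * s +
          tri e P y y y * (s * s) := by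
        apply mul_right_cancel₀ hs'
        linear_combination -a2
      have b3 : ly * (‖x + (Complex.I * s : ℂ) • y‖ : ℂ) ^ 2 = (tri e P y x x + tri e P x x y) -
          tri e P x y x + tri e P y x y * (Complex.I * s) -
          (tri e P y y x + tri e P x y y) * (Complex.I * s) +
          tri e P y y y * (s * s) := by
        apply mul_right_cancel₀ hsI
        linear_combination a3 - (tri e P y y y) * (Complex.I * s) * (s * s) * hI
      have b4 : ly * (‖x + (-(Complex.I * s) : ℂ) • y‖ : ℂ) ^ 2 =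
          (tri e P y x x + tri e P x x y) -
          tri e P x y x - tri e P y x y * (Complex.I * s) +
          (tri e P y y x + tri e P x y y) * (Complex.I * s) +
          tri e P y y y * (s * s) := by
        apply mul_right_cancel₀ hsI
        linear_combination -a4 - (tri e P y y y) * (Complex.I * s) * (s * s) * hI
      linear_combination b1 + b2 - b3 - b4
    have := congrFun hf 0
    simp only [Complex.ofReal_zero, neg_zero, mul_zero] at this
    have h4 : (4 : ℂ) * tri e P x y x = 0 := by rw [← this]; ring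
    simpa using h4
  have hf : (fun t : ℂ => ly * (‖x + t • y‖ : ℂ) ^ 2) = fun t : ℂ =>
      (tri e P y x x + tri e P x x y) + tri e P y x y * t +
        (tri e P y y x + tri e P x y y) * conj t + tri e P y y y * (t * conj t) := by
    refine Continuous.ext_on (dense_compl_singleton (0 : ℂ)) (by fun_prop) ?_ ?_
    · have := Complex.continuous_conj
      fun_prop
    · intro t ht
      have ht' : t ≠ 0 := ht
      have a1 := h1 t
      rw [h2] at a1
      apply mul_right_cancel₀ ht'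
      show ly * (‖x + t • y‖ : ℂ) ^ 2 * t = _ * t
      linear_combination a1
  exact congrFun hf t

private theorem par_of_ne {n : ℕ} (e : Module.Basis (Fin n) ℂ E)
    (P : Fin n → Fin n → Fin n → ℂ) (l : Fin n → ℂ)
    (h : ∀ x : E, (‖x‖ : ℂ) ^ 2 * ∑ k, l k * e.coord k x = tri e P x x x) (x y : E)
    (hy : ∑ k, l k * e.coord k y ≠ 0) :
    ‖x + y‖ * ‖x + y‖ + ‖x - y‖ * ‖x - y‖ = 2 * (‖x‖ * ‖x‖ + ‖y‖ * ‖y‖) := by
  obtain ⟨ly, hly⟩ : ∃ ly, ly = ∑ k, l k * e.coord k y := ⟨_, rfl⟩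
  obtain ⟨z, hz⟩ : ∃ z, z = (∑ k, l k * e.coord k x) / ly := ⟨_, rfl⟩
  have hy' : ly ≠ 0 := by rw [hly]; exact hy
  have hx' : ∑ k, l k * e.coord k (x - z • y) = 0 := by
    simp only [map_sub, map_smul, smul_eq_mul, mul_sub, Finset.sum_sub_distrib]
    have : ∑ k, l k * (z * e.coord k y) = z * ly := by
      rw [hly, Finset.mul_sum]
      exact Finset.sum_congr rfl fun k _ => by ring
    rw [this, hz, div_mul_cancel₀ _ hy', sub_self]
  have m0 := par_main e P l h (x - z • y) y hx' z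
  have m1 := par_main e P l h (x - z • y) y hx' (z + 1)
  have m2 := par_main e P l h (x - z • y) y hx' (z - 1)
  have hq : tri e P y y y = (‖y‖ : ℂ) ^ 2 * ly := by rw [← h y, hly]
  rw [← hly, hq] at m0 m1 m2
  have e0 : x - z • y + z • y = x := by abel
  have e1 : x - z • y + (z + 1) • y = x + y := by rw [add_smul, one_smul]; abel
  have e2 : x - z • y + (z - 1) • y = x - y := by rw [sub_smul, one_smul]; abel
  rw [e0] at m0
  rw [e1] at m1
  rw [e2] at m2
  simp only [map_add, map_sub, map_one] at m0 m1 m2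
  have key : (‖x + y‖ : ℂ) ^ 2 + (‖x - y‖ : ℂ) ^ 2 = 2 * ((‖x‖ : ℂ) ^ 2 + (‖y‖ : ℂ) ^ 2) := by
    apply mul_left_cancel₀ hy'
    linear_combination m1 + m2 - 2 * m0
  have key' : ‖x + y‖ ^ 2 + ‖x - y‖ ^ 2 = 2 * (‖x‖ ^ 2 + ‖y‖ ^ 2) := by exact_mod_cast key
  linarith [key', sq (‖x + y‖), sq (‖x - y‖), sq ‖x‖, sq ‖y‖]

theorem parallelogram_of {n : ℕ} (e : Module.Basis (Fin n) ℂ E)
    (P : Fin n → Fin n → Fin n → ℂ) (l : Fin n → ℂ) (hl : l ≠ 0)
    (h : ∀ x : E, (‖x‖ : ℂ) ^ 2 * ∑ k, l k * e.coord k x =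
        ∑ i, ∑ j, ∑ k, P i j k * e.coord i x * conj (e.coord j x) * e.coord k x) (x y : E) :
    ‖x + y‖ * ‖x + y‖ + ‖x - y‖ * ‖x - y‖ = 2 * (‖x‖ * ‖x‖ + ‖y‖ * ‖y‖) := by
  by_cases hy : ∑ k, l k * e.coord k y = 0
  · obtain ⟨k₀, hk₀⟩ := Function.ne_iff.1 hl
    have hy0 : ∑ k, l k * e.coord k (e k₀) ≠ 0 := by
      have : ∑ k, l k * e.coord k (e k₀) = l k₀ := by
        rw [Finset.sum_eq_single k₀]
        · simp
        · intro k _ hk
          simp [hk.symm]
        · simp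
      rw [this]
      exact hk₀
    have hf : (fun s : ℝ => ‖x + (y + (s : ℂ) • e k₀)‖ * ‖x + (y + (s : ℂ) • e k₀)‖ +
        ‖x - (y + (s : ℂ) • e k₀)‖ * ‖x - (y + (s : ℂ) • e k₀)‖) = fun s : ℝ =>
        2 * (‖x‖ * ‖x‖ + ‖y + (s : ℂ) • e k₀‖ * ‖y + (s : ℂ) • e k₀‖) := by
      refine Continuous.ext_on (dense_compl_singleton (0 : ℝ)) (by fun_prop) (by fun_prop) ?_
      intro s hs
      have hs' : (s : ℂ) ≠ 0 := by
        have : s ≠ 0 := hs
        exact_mod_cast this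
      refine par_of_ne e P l h x (y + (s : ℂ) • e k₀) ?_
      simp only [map_add, map_smul, smul_eq_mul, mul_add, Finset.sum_add_distrib]
      rw [hy, zero_add]
      have : ∑ k, l k * ((s : ℂ) * e.coord k (e k₀)) = s * ∑ k, l k * e.coord k (e k₀) := by
        rw [Finset.mul_sum]
        exact Finset.sum_congr rfl fun k _ => by ring
      rw [this]
      exact mul_ne_zero hs' hy0
    have := congrFun hf 0
    simpa using this
  · exact par_of_ne e P l h x y hy

/-- A complex normed space of dimension `n` whose norm satisfies the parallelogram law is isometric to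
`ℓ₂ⁿ` (`InnerProductSpace.ofNorm`, `stdOrthonormalBasis`; for the isometry use the given norm, the inner
product space structure is built on top of the same `NormedAddCommGroup`). -/
theorem isometry_of_parallelogram [FiniteDimensional ℂ E] {n : ℕ} (hn : Module.finrank ℂ E = n)
    (h : ∀ x y : E, ‖x + y‖ * ‖x + y‖ + ‖x - y‖ * ‖x - y‖ = 2 * (‖x‖ * ‖x‖ + ‖y‖ * ‖y‖)) :
    Nonempty (E ≃ₗᵢ[ℂ] EuclideanSpace ℂ (Fin n)) := by
  subst hn
  let _ : InnerProductSpace ℂ E := InnerProductSpace.ofNorm ℂ h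
  exact ⟨(stdOrthonormalBasis ℂ E).repr⟩

end Pool.MinMax.Odd
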