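import Pool.Agent.Work.MP_9667ca_an.Odd.Defs

/-!
# MP_9667ca_an (all dimensions), module RED: from the definition of `α(E)` to finite-dimensional data

If `0 < r` and `ofReal r < alpha E`, there are `p, m`, `c > r` and a datum
`Dat e (EuclideanSpace ℂ (Fin p)) (EuclideanSpace ℂ (Fin m)) c`.

Proof.
(1) By `lt_iSup_iff` there are `m ≥ 1`, `X : Matrix (Fin m) (Fin m) E` with `minNorm X ≤ 1`, a Hilbert
space `H` and a contraction `u : E →L B(H)` with `r < ‖T‖`, `T = blockOp (X.map u)`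
(`(T h) i = ∑ j, u (X i j) (h j)`, see `tn_blockOp` in `Tensor.lean`; `ENNReal.ofReal_lt_ofReal_iff`).
(2) There are vectors `g, h ∈ H^m = PiLp 2 (fun _ : Fin m => H)` with `‖g‖ ≤ 1`, `‖h‖ ≤ 1` and
`r < Re ⟪h, T g⟫` (definition of the operator norm: some `g` with `‖g‖ ≤ 1`, `r < ‖T g‖`; `h = T g / ‖T g‖`).
Let `K₀` be the span of the components `g j, h j` (finite-dimensional subspace of `H`), `p` its dimension
and `J : EuclideanSpace ℂ (Fin p) →ₗᵢ H` the composition of the coordinate isometry of an orthonormal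
basis of `K₀` (`stdOrthonormalBasis`) and the inclusion. Put `u' x = J† u(x) J`, so `‖u' x‖ ≤ ‖x‖`, and
`T' = blockOp (X.map u')` on `PiLp 2 (fun _ : Fin m => EuclideanSpace ℂ (Fin p))`. With `g' j = J† (g j)`,
`h' j = J† (h j)` (so `J (g' j) = g j`): `⟪h', T' g'⟫ = ⟪h, T g⟫`, `‖g'‖ = ‖g‖`, `‖h'‖ = ‖h‖`. So
`c := ‖T'‖ > r > 0`.
(3) The space `V = PiLp 2 (fun _ : Fin m => EuclideanSpace ℂ (Fin p))` is finite-dimensional, so there is a
unit vector `g` with `‖T' g‖ = c` (compactness of the unit sphere), and `T'† T' g = c² g`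
(`‖T'†T' g - c² g‖² ≤ c⁴ - 2 c² c² + c⁴ = 0`). Put `h = c⁻¹ T' g`: `T' g = c h`, `T'† h = c g`.
(4) Translate: `a₀ : EuclideanSpace ℂ (Fin m) →L EuclideanSpace ℂ (Fin p)`, `a₀ y = ∑ j, y j • g j`,
`b₀ y = ∑ j, y j • h j`; `w ζ` is the operator of the transposed matrix `(ζ (X i j))ᵀ`:
`(w ζ y) j = ∑ i, ζ (X i j) * y i` (`Matrix.toEuclideanLin`/`Matrix.toEuclideanCLM` of `(X.map ζ)ᵀ`), so
`‖w ζ‖ = ‖(X.map ζ)ᵀ‖ = ‖X.map ζ‖ ≤ ‖ζ‖` (`minNorm X ≤ 1`, homogeneity; the operator norm of the transpose is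
the norm of the matrix: `(M)ᵀ = (conj M)ᴴ`, `Matrix.l2_opNorm_conjTranspose`, and
`‖M.map conj‖ = ‖M‖`, or prove it directly from `|⟪y, Mᵀ x⟫| = |⟪conj x, M conj y⟫|`).
`X i j = ∑ k, co e k (X i j) • e k`, so with `δ_i` the standard basis vector:
`∑_k u'(e k) (a₀ (w (co e k) δ_i)) = ∑_k ∑_j (co e k (X i j)) • u'(e k) (g j) = ∑_j u'(X i j) (g j)
= (T' g) i = c h i = c b₀ δ_i`, and for the adjoint of the second relation
`∑_k (u'(e k))† (b₀ ((w (co e k))† δ_j)) = ∑_i (u'(X i j))† (h i) = (T'† h) j = c g j = c a₀ δ_j`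
(`(w ζ)† δ_j = ∑_i conj (ζ (X i j)) δ_i`; `T'†` is the `blockOp` of the matrix of adjoints, transposed); take
adjoints of both sides (`adjoint_comp`, `star` is additive and conjugate linear, `c` is real).
(5) Normalise: `a₀ ≠ 0` (since `g ≠ 0`), replace `a₀, b₀` by `‖a₀‖⁻¹ a₀, ‖a₀‖⁻¹ b₀`.
-/

namespace Pool.MinMax.Odd

open scoped ENNReal InnerProductSpace ComplexConjugate Matrix.Norms.L2Operator
open ContinuousLinearMap

universe u v

private theorem red_blockOp {H : Type*} [NormedAddCommGroup H] [InnerProductSpace ℂ H] {m : ℕ}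
    (T : Matrix (Fin m) (Fin m) (H →L[ℂ] H)) (h : PiLp 2 (fun _ : Fin m => H)) (i : Fin m) :
    blockOp T h i = ∑ j, T i j (h j) := by
  simp [blockOp]

/-- a top singular vector -/
private theorem red_top {V : Type*} [NormedAddCommGroup V] [InnerProductSpace ℂ V]
    [FiniteDimensional ℂ V] (T : V →L[ℂ] V) (hT : 0 < ‖T‖) :
    ∃ g : V, ‖g‖ = 1 ∧ ∀ v, ⟪T g, T v⟫_ℂ = ((‖T‖ ^ 2 : ℝ) : ℂ) * ⟪g, v⟫_ℂ := by
  have hV : ProperSpace V := FiniteDimensional.proper ℂ V
  have hcV : CompleteSpace V := FiniteDimensional.complete ℂ V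
  obtain ⟨g, hg, hmax⟩ := (isCompact_closedBall (0 : V) 1).exists_isMaxOn
    ⟨0, Metric.mem_closedBall_self zero_le_one⟩ (T.continuous.norm.continuousOn)
  rw [mem_closedBall_zero_iff] at hg
  have hle : ‖T‖ ≤ ‖T g‖ := by
    refine T.opNorm_le_bound (norm_nonneg _) fun x => ?_
    by_cases hx : x = 0
    · rw [hx]; simp
    · have hxn : 0 < ‖x‖ := norm_pos_iff.2 hx
      have h1 : ‖((‖x‖⁻¹ : ℝ) : ℂ) • x‖ = 1 := by
        rw [norm_smul, Complex.norm_real, Real.norm_of_nonneg (by positivity),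
          inv_mul_cancel₀ hxn.ne']
      have h2 := hmax (show ((‖x‖⁻¹ : ℝ) : ℂ) • x ∈ Metric.closedBall (0 : V) 1 by
        rw [mem_closedBall_zero_iff, h1])
      have h3 : ‖T (((‖x‖⁻¹ : ℝ) : ℂ) • x)‖ ≤ ‖T g‖ := h2
      rw [map_smul, norm_smul, Complex.norm_real, Real.norm_of_nonneg (by positivity),
        inv_mul_le_iff₀ hxn] at h3
      linarith
  have hge : ‖T g‖ ≤ ‖T‖ * ‖g‖ := T.le_opNorm g
  have hg1 : ‖g‖ = 1 := by
    refine le_antisymm hg ?_
    by_contra hcon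
    push Not at hcon
    have : ‖T‖ * ‖g‖ < ‖T‖ := by nlinarith
    linarith
  have hTg : ‖T g‖ = ‖T‖ := le_antisymm (by rw [hg1, mul_one] at hge; exact hge) hle
  set c := ‖T‖ with hc
  have hadj : adjoint T (T g) = ((c ^ 2 : ℝ) : ℂ) • g := by
    rw [← sub_eq_zero, ← norm_eq_zero, ← sq_eq_zero_iff]
    have h1 : ‖adjoint T (T g)‖ ≤ c ^ 2 := by
      have h2 := (adjoint T).le_opNorm (T g)
      rw [LinearIsometryEquiv.norm_map, hTg, ← hc] at h2
      linarith
    have h2 : RCLike.re ⟪adjoint T (T g), ((c ^ 2 : ℝ) : ℂ) • g⟫_ℂ = c ^ 4 := by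
      rw [inner_smul_right, adjoint_inner_left, inner_self_eq_norm_sq_to_K, hTg]
      have h3 : (((c ^ 2 : ℝ) : ℂ) * ((c : ℂ)) ^ 2) = ((c ^ 4 : ℝ) : ℂ) := by push_cast; ring
      have h4 := congrArg RCLike.re h3
      rw [show RCLike.re ((c ^ 4 : ℝ) : ℂ) = c ^ 4 from Complex.ofReal_re _] at h4
      exact h4
    have h3 : ‖((c ^ 2 : ℝ) : ℂ) • g‖ = c ^ 2 := by
      rw [norm_smul, Complex.norm_real, hg1, mul_one, Real.norm_of_nonneg (by positivity)]
    have h4 := @norm_sub_sq ℂ V _ _ _ (adjoint T (T g)) (((c ^ 2 : ℝ) : ℂ) • g)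
    rw [h2, h3] at h4
    refine le_antisymm ?_ (sq_nonneg _)
    rw [h4]
    have h5 : ‖adjoint T (T g)‖ ^ 2 ≤ (c ^ 2) ^ 2 := pow_le_pow_left₀ (norm_nonneg _) h1 2
    nlinarith
  refine ⟨g, hg1, fun v => ?_⟩
  rw [← adjoint_inner_left, hadj, inner_smul_left, Complex.conj_ofReal]

/-- the operator of the transposed matrix -/
private theorem red_transpose {m : ℕ} (M : Matrix (Fin m) (Fin m) ℂ) :
    ‖Matrix.toEuclideanCLM (n := Fin m) (𝕜 := ℂ) M.transpose‖ ≤ ‖M‖ := by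
  refine ContinuousLinearMap.opNorm_le_bound _ (norm_nonneg _) fun y => ?_
  set v : EuclideanSpace ℂ (Fin m) := Matrix.toEuclideanCLM (n := Fin m) (𝕜 := ℂ) M.transpose y
    with hv
  set z : EuclideanSpace ℂ (Fin m) := WithLp.toLp 2 (fun j => conj (v j)) with hz
  set y' : EuclideanSpace ℂ (Fin m) := WithLp.toLp 2 (fun j => conj (y j)) with hy'
  have hzn : ‖z‖ = ‖v‖ := by
    rw [EuclideanSpace.norm_eq, EuclideanSpace.norm_eq]
    simp [hz]
  have hyn : ‖y'‖ = ‖y‖ := by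
    rw [EuclideanSpace.norm_eq, EuclideanSpace.norm_eq]
    simp [hy']
  have hvj : ∀ j, v j = ∑ i, M i j * y i := by
    intro j
    rw [hv, Matrix.ofLp_toEuclideanCLM]
    simp [Matrix.mulVec, dotProduct]
  have hMz : ∀ i, (Matrix.toEuclideanCLM (n := Fin m) (𝕜 := ℂ) M z) i = ∑ j, M i j * z j := by
    intro i
    rw [Matrix.ofLp_toEuclideanCLM]
    simp [Matrix.mulVec, dotProduct]
  have h1 : ((‖v‖ ^ 2 : ℝ) : ℂ) = ⟪y', Matrix.toEuclideanCLM (n := Fin m) (𝕜 := ℂ) M z⟫_ℂ := by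
    have e1 : ((‖v‖ ^ 2 : ℝ) : ℂ) = ∑ j, v j * z j := by
      rw [EuclideanSpace.norm_sq_eq]
      push_cast
      refine Finset.sum_congr rfl fun j _ => ?_
      show _ = v j * conj (v j)
      rw [Complex.mul_conj, Complex.normSq_eq_norm_sq]
      push_cast
      rfl
    rw [e1, PiLp.inner_apply]
    simp only [RCLike.inner_apply, hMz]
    have e2 : ∀ i, (∑ j, M i j * z j) * conj (y' i) = ∑ j, M i j * z j * y i := by
      intro i
      rw [Finset.sum_mul]
      refine Finset.sum_congr rfl fun j _ => ?_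
      show M i j * z j * conj (conj (y i)) = _
      rw [Complex.conj_conj]
    rw [Finset.sum_congr rfl fun i _ => e2 i, Finset.sum_comm]
    refine Finset.sum_congr rfl fun j _ => ?_
    rw [hvj, Finset.sum_mul]
    refine Finset.sum_congr rfl fun i _ => ?_
    ring
  have h2 : ‖v‖ ^ 2 ≤ ‖y‖ * (‖M‖ * ‖v‖) := by
    have e1 : ‖((‖v‖ ^ 2 : ℝ) : ℂ)‖ = ‖v‖ ^ 2 := by
      rw [Complex.norm_real, Real.norm_of_nonneg (by positivity)]
    rw [← e1, h1]
    refine (norm_inner_le_norm _ _).trans ?_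
    rw [hyn]
    refine mul_le_mul_of_nonneg_left ?_ (norm_nonneg _)
    refine (ContinuousLinearMap.le_opNorm _ _).trans ?_
    rw [hzn]
    rfl
  by_cases hv0 : ‖v‖ = 0
  · rw [hv0]; positivity
  · have hvp : 0 < ‖v‖ := lt_of_le_of_ne (norm_nonneg _) (Ne.symm hv0)
    by_contra hcon
    push Not at hcon
    nlinarith

/-- compression to a finite dimensional space -/
private theorem red_compress {H : Type*} [NormedAddCommGroup H] [InnerProductSpace ℂ H]
    [CompleteSpace H] (S : Set H) (hS : S.Finite) :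
    ∃ (p : ℕ) (J : EuclideanSpace ℂ (Fin p) →L[ℂ] H), ‖J‖ ≤ 1 ∧
      (∀ v ∈ S, J (adjoint J v) = v) ∧ ∀ v ∈ S, ‖adjoint J v‖ = ‖v‖ := by
  have hfd : FiniteDimensional ℂ (Submodule.span ℂ S) := FiniteDimensional.span_of_finite ℂ hS
  let b := stdOrthonormalBasis ℂ (Submodule.span ℂ S)
  let Ji : EuclideanSpace ℂ (Fin (Module.finrank ℂ (Submodule.span ℂ S))) →ₗᵢ[ℂ] H :=
    (Submodule.span ℂ S).subtypeₗᵢ.comp b.repr.symm.toLinearIsometry
  have hJn : ∀ y, ‖Ji.toContinuousLinearMap y‖ = ‖y‖ := fun y => Ji.norm_map y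
  have hJJ : ∀ y, adjoint Ji.toContinuousLinearMap (Ji.toContinuousLinearMap y) = y := by
    intro y
    refine ext_inner_left ℂ fun z => ?_
    rw [adjoint_inner_right]
    exact Ji.inner_map_map z y
  have hex : ∀ v ∈ S, ∃ y, Ji.toContinuousLinearMap y = v := by
    intro v hv
    refine ⟨b.repr ⟨v, Submodule.subset_span hv⟩, ?_⟩
    show ((b.repr.symm (b.repr ⟨v, Submodule.subset_span hv⟩) : Submodule.span ℂ S) : H) = v
    rw [LinearIsometryEquiv.symm_apply_apply]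
  refine ⟨_, Ji.toContinuousLinearMap, ?_, fun v hv => ?_, fun v hv => ?_⟩
  · exact ContinuousLinearMap.opNorm_le_bound _ zero_le_one fun y => by rw [hJn, one_mul]
  · obtain ⟨y, rfl⟩ := hex v hv
    rw [hJJ]
  · obtain ⟨y, rfl⟩ := hex v hv
    rw [hJJ, hJn]

section fin

variable {E : Type u} [NormedAddCommGroup E] [NormedSpace ℂ E] [FiniteDimensional ℂ E]

/-- the map `y ↦ ∑ y_j g_j` -/
private noncomputable def redA {p m : ℕ} (g : PiLp 2 (fun _ : Fin m => EuclideanSpace ℂ (Fin p))) :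
    EuclideanSpace ℂ (Fin m) →L[ℂ] EuclideanSpace ℂ (Fin p) :=
  LinearMap.toContinuousLinearMap
    { toFun := fun y => ∑ j, y j • g j
      map_add' := fun y y' => by
        rw [← Finset.sum_add_distrib]
        exact Finset.sum_congr rfl fun j _ => by rw [PiLp.add_apply, add_smul]
      map_smul' := fun c y => by
        rw [RingHom.id_apply, Finset.smul_sum]
        exact Finset.sum_congr rfl fun j _ => by rw [PiLp.smul_apply, smul_smul, smul_eq_mul] }

private theorem redA_apply {p m : ℕ} (g : PiLp 2 (fun _ : Fin m => EuclideanSpace ℂ (Fin p)))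
    (y : EuclideanSpace ℂ (Fin m)) : redA g y = ∑ j, y j • g j := rfl

private theorem redA_single {p m : ℕ} (g : PiLp 2 (fun _ : Fin m => EuclideanSpace ℂ (Fin p)))
    (i : Fin m) : redA g (EuclideanSpace.single i (1 : ℂ)) = g i := by
  rw [redA_apply, Finset.sum_eq_single i]
  · simp
  · intro j _ hj
    simp [hj]
  · intro h
    exact absurd (Finset.mem_univ i) h

private theorem redA_smul {p m : ℕ} (c : ℂ)
    (g : PiLp 2 (fun _ : Fin m => EuclideanSpace ℂ (Fin p))) : redA (c • g) = c • redA g := by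
  ext1 y
  rw [ContinuousLinearMap.smul_apply, redA_apply, redA_apply, Finset.smul_sum]
  refine Finset.sum_congr rfl fun j _ => ?_
  rw [PiLp.smul_apply, smul_comm]

/-- from a singular pair to the data -/
private theorem red_dat {n p m : ℕ} (e : Module.Basis (Fin n) ℂ E)
    (X : Matrix (Fin m) (Fin m) E) (hX : ∀ ζ : StrongDual ℂ E, ‖X.map ζ‖ ≤ ‖ζ‖)
    (u : E →ₗ[ℂ] (EuclideanSpace ℂ (Fin p) →L[ℂ] EuclideanSpace ℂ (Fin p)))
    (hu : ∀ x, ‖u x‖ ≤ ‖x‖) (c : ℝ)
    (g h : PiLp 2 (fun _ : Fin m => EuclideanSpace ℂ (Fin p))) (hg : ‖redA g‖ = 1)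
    (h1 : ∀ i, ∑ j, u (X i j) (g j) = (c : ℂ) • h i)
    (h2 : ∀ j ξ, ∑ i, ⟪h i, u (X i j) ξ⟫_ℂ = (c : ℂ) * ⟪g j, ξ⟫_ℂ) :
    Nonempty (Dat e (EuclideanSpace ℂ (Fin p)) (EuclideanSpace ℂ (Fin m)) c) := by
  classical
  have hw : ∀ (ζ : StrongDual ℂ E) (y : EuclideanSpace ℂ (Fin m)) (j : Fin m),
      (Matrix.toEuclideanCLM (n := Fin m) (𝕜 := ℂ) (X.map ζ).transpose y) j =
        ∑ i, ζ (X i j) * y i := by
    intro ζ y j
    rw [Matrix.ofLp_toEuclideanCLM]
    simp [Matrix.mulVec, dotProduct]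
  have hexp : ∀ x : E, ∑ k, co e k x • u (e k) = u x := by
    intro x
    have e1 : ∀ k, co e k x = e.repr x k := fun k => by simp [co]
    calc ∑ k, co e k x • u (e k) = u (∑ k, e.repr x k • e k) := by
          rw [map_sum]
          refine Finset.sum_congr rfl fun k _ => ?_
          rw [map_smul, e1]
      _ = u x := by rw [e.sum_repr]
  refine ⟨{ u := u
            w := { toFun := fun ζ => Matrix.toEuclideanCLM (n := Fin m) (𝕜 := ℂ)
                     (X.map ζ).transpose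
                   map_add' := fun ζ ζ' => ?_
                   map_smul' := fun z ζ => ?_ }
            a := redA g
            b := redA h
            hu := hu
            hw := fun ζ => (red_transpose (X.map ζ)).trans (hX ζ)
            ha := hg
            h1 := ?_
            h2 := ?_ }⟩
  · rw [← map_add]
    congr 1
  · rw [RingHom.id_apply, ← map_smul]
    congr 1
  · ext1 y
    rw [ContinuousLinearMap.sum_apply, ContinuousLinearMap.smul_apply]
    show ∑ k, u (e k) (redA g (Matrix.toEuclideanCLM (n := Fin m) (𝕜 := ℂ)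
      (X.map (co e k)).transpose y)) = (c : ℂ) • redA h y
    simp only [redA_apply, hw]
    have e1 : ∀ k, u (e k) (∑ j, (∑ i, co e k (X i j) * y i) • g j) =
        ∑ i, ∑ j, y i • (co e k (X i j) • u (e k)) (g j) := by
      intro k
      rw [map_sum, Finset.sum_comm]
      refine Finset.sum_congr rfl fun j _ => ?_
      rw [map_smul, Finset.sum_smul]
      refine Finset.sum_congr rfl fun i _ => ?_
      rw [ContinuousLinearMap.smul_apply, smul_smul, mul_comm]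
    rw [Finset.sum_congr rfl fun k _ => e1 k, Finset.sum_comm, Finset.smul_sum]
    refine Finset.sum_congr rfl fun i _ => ?_
    rw [Finset.sum_comm]
    have e2 : ∀ j, ∑ k, y i • (co e k (X i j) • u (e k)) (g j) = y i • u (X i j) (g j) := by
      intro j
      rw [← Finset.smul_sum, ← ContinuousLinearMap.sum_apply, hexp]
    rw [Finset.sum_congr rfl fun j _ => e2 j, ← Finset.smul_sum, h1, smul_comm]
  · ext1 ξ
    rw [ContinuousLinearMap.sum_apply, ContinuousLinearMap.smul_apply]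
    have hadj : ∀ (f : PiLp 2 (fun _ : Fin m => EuclideanSpace ℂ (Fin p)))
        (η : EuclideanSpace ℂ (Fin p)) (i : Fin m), (adjoint (redA f) η) i = ⟪f i, η⟫_ℂ := by
      intro f η i
      rw [← redA_single f i, ← adjoint_inner_right, EuclideanSpace.inner_single_left]
      simp
    show ∑ k, Matrix.toEuclideanCLM (n := Fin m) (𝕜 := ℂ) (X.map (co e k)).transpose
      (adjoint (redA h) (u (e k) ξ)) = (c : ℂ) • adjoint (redA g) ξ
    ext j
    rw [PiLp.smul_apply, hadj, WithLp.ofLp_sum, Finset.sum_apply, smul_eq_mul, ← h2]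
    simp only [hw, hadj]
    rw [Finset.sum_comm]
    refine Finset.sum_congr rfl fun i _ => ?_
    rw [← hexp (X i j), ContinuousLinearMap.sum_apply, inner_sum]
    refine Finset.sum_congr rfl fun k _ => ?_
    rw [ContinuousLinearMap.smul_apply, inner_smul_right]

end fin

theorem exists_dat {E : Type u} [NormedAddCommGroup E] [NormedSpace ℂ E] [FiniteDimensional ℂ E]
    {n : ℕ} (e : Module.Basis (Fin n) ℂ E) {r : ℝ} (hr : 0 < r)
    (h : ENNReal.ofReal r < alpha.{u, v} E) :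
    ∃ (p m : ℕ) (c : ℝ), r < c ∧
      Nonempty (Dat e (EuclideanSpace ℂ (Fin p)) (EuclideanSpace ℂ (Fin m)) c) := by
  classical
  unfold alpha maxNorm at h
  simp only [lt_iSup_iff] at h
  obtain ⟨m, hm, X, hX, H, i1, i2, i3, u, hu, h⟩ := h
  rw [ENNReal.ofReal_lt_ofReal_iff_of_nonneg hr.le] at h
  -- the scalar matrices
  have hX1 : ∀ ζ : StrongDual ℂ E, ‖X.map ζ‖ ≤ ‖ζ‖ := by
    intro ζ
    by_cases hζ : ζ = 0
    · rw [hζ, norm_zero]
      have : X.map (0 : StrongDual ℂ E) = 0 := by ext; simp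
      rw [this, norm_zero]
    · have hζn : 0 < ‖ζ‖ := norm_pos_iff.2 hζ
      have h1 : ‖((‖ζ‖⁻¹ : ℝ) : ℂ) • ζ‖ ≤ 1 := by
        rw [norm_smul, Complex.norm_real, Real.norm_of_nonneg (by positivity),
          inv_mul_cancel₀ hζn.ne']
      have h2 : ENNReal.ofReal ‖X.map (((‖ζ‖⁻¹ : ℝ) : ℂ) • ζ)‖ ≤ 1 :=
        (le_iSup₂ (f := fun (ξ : E →L[ℂ] ℂ) (_ : ‖ξ‖ ≤ 1) => ENNReal.ofReal ‖X.map ξ‖) _ h1).trans hX
      have h3 := ENNReal.ofReal_le_one.1 h2
      have h4 : X.map (((‖ζ‖⁻¹ : ℝ) : ℂ) • ζ) = ((‖ζ‖⁻¹ : ℝ) : ℂ) • X.map ζ := by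
        ext i j
        simp
      rw [h4, norm_smul, Complex.norm_real, Real.norm_of_nonneg (by positivity),
        inv_mul_le_iff₀ hζn, mul_one] at h3
      exact h3
  -- the vector
  set T := blockOp (X.map u) with hT
  obtain ⟨g, hg, hTg⟩ := T.exists_lt_apply_of_lt_opNorm h
  obtain ⟨p, J, hJ, hJ1, hJ2⟩ := red_compress
    ((Set.range fun j => g j) ∪ (Set.range fun i => T g i))
    ((Set.finite_range _).union (Set.finite_range _))
  -- the compression
  let u' : E →ₗ[ℂ] (EuclideanSpace ℂ (Fin p) →L[ℂ] EuclideanSpace ℂ (Fin p)) :=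
    { toFun := fun x => (adjoint J) ∘L (u x) ∘L J
      map_add' := fun x y => by ext1 z; simp
      map_smul' := fun c x => by ext1 z; simp }
  have hu'a : ∀ x z, u' x z = adjoint J (u x (J z)) := fun x z => rfl
  have hadjJ : ‖adjoint J‖ ≤ 1 := by rw [LinearIsometryEquiv.norm_map]; exact hJ
  have hu' : ∀ x, ‖u' x‖ ≤ ‖x‖ := by
    intro x
    refine ContinuousLinearMap.opNorm_le_bound _ (norm_nonneg _) fun z => ?_
    rw [hu'a]
    calc ‖adjoint J (u x (J z))‖ ≤ ‖adjoint J‖ * ‖u x (J z)‖ := ContinuousLinearMap.le_opNorm _ _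
      _ ≤ 1 * ‖u x (J z)‖ := mul_le_mul_of_nonneg_right hadjJ (norm_nonneg _)
      _ = ‖u x (J z)‖ := one_mul _
      _ ≤ ‖u x‖ * ‖J z‖ := ContinuousLinearMap.le_opNorm _ _
      _ ≤ ‖x‖ * ‖z‖ := by
          have e1 : ‖u x‖ ≤ ‖x‖ := by
            have := u.le_opNorm x
            nlinarith [norm_nonneg x]
          have e2 : ‖J z‖ ≤ ‖z‖ := by
            have := J.le_opNorm z
            nlinarith [norm_nonneg z]
          exact mul_le_mul e1 e2 (norm_nonneg _) (norm_nonneg _)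
  set T' := blockOp (X.map u') with hT'
  have hT'a : ∀ (f : PiLp 2 (fun _ : Fin m => EuclideanSpace ℂ (Fin p))) (i : Fin m),
      T' f i = ∑ j, u' (X i j) (f j) := fun f i => red_blockOp _ f i
  set g' : PiLp 2 (fun _ : Fin m => EuclideanSpace ℂ (Fin p)) :=
    WithLp.toLp 2 (fun j => adjoint J (g j)) with hg'
  have hg'n : ‖g'‖ = ‖g‖ := by
    rw [PiLp.norm_eq_of_L2, PiLp.norm_eq_of_L2]
    congr 1
    refine Finset.sum_congr rfl fun j _ => ?_
    show ‖adjoint J (g j)‖ ^ 2 = ‖g j‖ ^ 2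
    rw [hJ2 (g j) (Or.inl ⟨j, rfl⟩)]
  have hT'g : ∀ i, T' g' i = adjoint J (T g i) := by
    intro i
    rw [hT'a, hT, red_blockOp, map_sum]
    refine Finset.sum_congr rfl fun j _ => ?_
    rw [hu'a]
    show adjoint J (u (X i j) (J (adjoint J (g j)))) = _
    rw [hJ1 (g j) (Or.inl ⟨j, rfl⟩)]
    rfl
  have hT'gn : ‖T' g'‖ = ‖T g‖ := by
    rw [PiLp.norm_eq_of_L2, PiLp.norm_eq_of_L2]
    congr 1
    refine Finset.sum_congr rfl fun i _ => ?_
    rw [hT'g, hJ2 (T g i) (Or.inr ⟨i, rfl⟩)]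
  have hcr : r < ‖T'‖ := by
    have h1 := T'.le_opNorm g'
    rw [hT'gn, hg'n] at h1
    have h2 : ‖T'‖ * ‖g‖ ≤ ‖T'‖ := by nlinarith [norm_nonneg T', norm_nonneg g]
    linarith
  have hcpos : 0 < ‖T'‖ := hr.trans hcr
  obtain ⟨g₁, hg₁, hsing⟩ := red_top T' hcpos
  set c := ‖T'‖ with hc
  -- normalisation
  have hAne : redA g₁ ≠ 0 := by
    intro h0
    have h1 : g₁ = 0 := by
      ext1 i
      rw [← redA_single g₁ i, h0]
      rfl
    rw [h1, norm_zero] at hg₁
    exact zero_ne_one hg₁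
  have hAn : 0 < ‖redA g₁‖ := norm_pos_iff.2 hAne
  set s : ℂ := ((‖redA g₁‖⁻¹ : ℝ) : ℂ) with hs
  refine ⟨p, m, c, hcr, red_dat e X hX1 u' hu' c (s • g₁) (((c⁻¹ : ℝ) : ℂ) • T' (s • g₁)) ?_ ?_ ?_⟩
  · rw [redA_smul, norm_smul, hs, Complex.norm_real, Real.norm_of_nonneg (by positivity),
      inv_mul_cancel₀ hAn.ne']
  · intro i
    rw [← hT'a, PiLp.smul_apply, smul_smul]
    have e1 : (c : ℂ) * ((c⁻¹ : ℝ) : ℂ) = 1 := by
      rw [← Complex.ofReal_mul, mul_inv_cancel₀ hcpos.ne', Complex.ofReal_one]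
    rw [e1, one_smul]
  · intro j ξ
    set f : PiLp 2 (fun _ : Fin m => EuclideanSpace ℂ (Fin p)) :=
      WithLp.toLp 2 (Pi.single j ξ) with hf
    have hfj : ∀ i, f i = if i = j then ξ else 0 := by
      intro i
      rw [hf]
      show (Pi.single j ξ : Fin m → EuclideanSpace ℂ (Fin p)) i = _
      by_cases hij : i = j
      · subst hij; simp
      · simp [hij]
    have hTf : ∀ i, T' f i = u' (X i j) ξ := by
      intro i
      rw [hT'a, Finset.sum_eq_single j]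
      · rw [hfj, if_pos rfl]
      · intro k _ hk
        rw [hfj, if_neg hk, map_zero]
      · intro hh
        exact absurd (Finset.mem_univ j) hh
    have e1 : ∑ i, ⟪(((c⁻¹ : ℝ) : ℂ) • T' (s • g₁)) i, u' (X i j) ξ⟫_ℂ =
        ⟪((c⁻¹ : ℝ) : ℂ) • T' (s • g₁), T' f⟫_ℂ := by
      rw [PiLp.inner_apply]
      refine Finset.sum_congr rfl fun i _ => ?_
      rw [hTf]
    have e2 : ⟪(s • g₁ : PiLp 2 (fun _ : Fin m => EuclideanSpace ℂ (Fin p))), f⟫_ℂ =
        ⟪(s • g₁ : PiLp 2 (fun _ : Fin m => EuclideanSpace ℂ (Fin p))) j, ξ⟫_ℂ := by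
      rw [PiLp.inner_apply, Finset.sum_eq_single j]
      · rw [hfj, if_pos rfl]
      · intro k _ hk
        rw [hfj, if_neg hk, inner_zero_right]
      · intro hh
        exact absurd (Finset.mem_univ j) hh
    rw [e1, ← e2, inner_smul_left, Complex.conj_ofReal, map_smul, inner_smul_left, hsing,
      inner_smul_left]
    have e3 : ((c⁻¹ : ℝ) : ℂ) * ((c ^ 2 : ℝ) : ℂ) = (c : ℂ) := by
      rw [← Complex.ofReal_mul]
      congr 1
      field_simp
    calc ((c⁻¹ : ℝ) : ℂ) * ((starRingEnd ℂ) s * (((c ^ 2 : ℝ) : ℂ) * ⟪g₁, f⟫_ℂ))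
        = (((c⁻¹ : ℝ) : ℂ) * ((c ^ 2 : ℝ) : ℂ)) * ((starRingEnd ℂ) s * ⟪g₁, f⟫_ℂ) := by ring
      _ = _ := by rw [e3]

end Pool.MinMax.Odd
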