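import Pool.Agent.Work.MP_9667ca_an.Odd.Upper
import Pool.Agent.Work.MP_9667ca_an.Odd.Cpt
import Pool.Agent.Work.MP_9667ca_an.Odd.Par
import Pool.Agent.Work.MP_9667ca_an.Odd.Red
import Pool.Agent.Work.MP_9667ca_an.Odd.CarLow

/-!
# MP_9667ca_an: all dimensions, main theorems
-/

namespace Pool.MinMax.Odd

open scoped ENNReal

universe u v

theorem alpha_le {E : Type u} [NormedAddCommGroup E] [NormedSpace ℂ E] {n : ℕ} (hn : 1 ≤ n)
    (hE : Module.finrank ℂ E = n) : alpha.{u, v} E ≤ ENNReal.ofReal (((n : ℝ) + 1) / 2) := by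
  have hfd : FiniteDimensional ℂ E := Module.finite_of_finrank_pos (by omega)
  have e : Module.Basis (Fin n) ℂ E := Module.finBasisOfFinrankEq ℂ E hE
  by_contra hcon
  push Not at hcon
  obtain ⟨p, m, c, hc, ⟨d⟩⟩ := exists_dat e (by positivity) hcon
  have := dat_le d
  linarith

theorem isometry_of_eq {E : Type u} [NormedAddCommGroup E] [NormedSpace ℂ E] {n : ℕ} (hn : 1 ≤ n)
    (hE : Module.finrank ℂ E = n)
    (h : alpha.{u, v} E = ENNReal.ofReal (((n : ℝ) + 1) / 2)) :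
    Nonempty (E ≃ₗᵢ[ℂ] EuclideanSpace ℂ (Fin n)) := by
  have hfd : FiniteDimensional ℂ E := Module.finite_of_finrank_pos (by omega)
  have e : Module.Basis (Fin n) ℂ E := Module.finBasisOfFinrankEq ℂ E hE
  have hn' : (1 : ℝ) ≤ n := by exact_mod_cast hn
  obtain ⟨P, l, hl, hP⟩ := cpt e (fun ε hε => by
    obtain ⟨p, m, c, hc, hd⟩ := exists_dat.{u, v} e (r := ((n : ℝ) + 1) / 2 - min ε (1 / 2))
      (by linarith [min_le_right ε (1 / 2)]) (by
        rw [h, ENNReal.ofReal_lt_ofReal_iff (by positivity)]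
        have : 0 < min ε (1 / 2) := lt_min hε (by norm_num)
        linarith)
    exact ⟨p, m, c, by linarith [min_le_left ε (1 / 2)], hd⟩)
  exact isometry_of_parallelogram hE (parallelogram_of e P l hl hP)

theorem euclid_le_alphaDim (n k : ℕ) (hk : 1 ≤ k) (hkn : k ≤ n) :
    ENNReal.ofReal √((k : ℝ) * (n - k + 1)) ≤ alphaDim.{u, v} n := by
  let e : EuclideanSpace ℂ (ULift.{u} (Fin n)) ≃ₗᵢ[ℂ] EuclideanSpace ℂ (Fin n) :=
    LinearIsometryEquiv.piLpCongrLeft 2 ℂ ℂ Equiv.ulift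
  refine (car_le_alpha.{u, v} e k hk hkn).trans ?_
  unfold alphaDim
  refine le_iSup_of_le (EuclideanSpace ℂ (ULift.{u} (Fin n))) ?_
  refine le_iSup_of_le inferInstance (le_iSup_of_le inferInstance
    (le_iSup_of_le inferInstance (le_iSup_of_le ?_ le_rfl)))
  simp

theorem alphaDim_le {n : ℕ} (hn : 1 ≤ n) :
    alphaDim.{u, v} n ≤ ENNReal.ofReal (((n : ℝ) + 1) / 2) := by
  unfold alphaDim
  refine iSup_le fun E => iSup_le fun _ => iSup_le fun _ => iSup_le fun _ => iSup_le fun h => ?_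
  exact alpha_le hn h

/-- The value for the middle level. -/
theorem sqrt_middle {n : ℕ} (hodd : Odd n) :
    √((((n + 1) / 2 : ℕ) : ℝ) * (n - ((n + 1) / 2 : ℕ) + 1)) = ((n : ℝ) + 1) / 2 := by
  obtain ⟨j, rfl⟩ := hodd
  have h1 : (2 * j + 1 + 1) / 2 = j + 1 := by omega
  rw [h1]
  push_cast
  rw [show ((j : ℝ) + 1) * (2 * j + 1 - (j + 1) + 1) = (j + 1) ^ 2 by ring,
    Real.sqrt_sq (by positivity)]
  ring

theorem alphaDim_odd {n : ℕ} (hodd : Odd n) :
    alphaDim.{u, v} n = ENNReal.ofReal (((n : ℝ) + 1) / 2) := by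
  have hn : 1 ≤ n := hodd.pos
  refine le_antisymm (alphaDim_le hn) ?_
  rw [← sqrt_middle hodd]
  exact euclid_le_alphaDim n ((n + 1) / 2) (by omega) (by omega)

theorem alpha_eq_iff_odd {E : Type u} [NormedAddCommGroup E] [NormedSpace ℂ E] {n : ℕ}
    (hodd : Odd n) (hE : Module.finrank ℂ E = n) :
    alpha.{u, v} E = alphaDim.{u, v} n ↔ Nonempty (E ≃ₗᵢ[ℂ] EuclideanSpace ℂ (Fin n)) := by
  have hn : 1 ≤ n := hodd.pos
  rw [alphaDim_odd hodd]
  constructor
  · exact isometry_of_eq hn hE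
  · rintro ⟨e⟩
    refine le_antisymm (alpha_le hn hE) ?_
    rw [← sqrt_middle hodd]
    exact car_le_alpha e ((n + 1) / 2) (by omega) (by omega)

/-- The lower bound in even dimensions. -/
theorem le_alphaDim_even {n : ℕ} (hn : 1 ≤ n) (heven : Even n) :
    ENNReal.ofReal (√((n : ℝ) * (n + 2)) / 2) ≤ alphaDim.{u, v} n := by
  obtain ⟨j, rfl⟩ := heven
  have h : √(((j + j : ℕ) : ℝ) * ((j + j : ℕ) + 2)) / 2 =
      √((j : ℝ) * ((j + j : ℕ) - j + 1)) := by
    push_cast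
    rw [show ((j : ℝ) + j) * (j + j + 2) = 2 ^ 2 * (j * (j + j - j + 1)) by ring,
      Real.sqrt_mul (by positivity), Real.sqrt_sq (by norm_num)]
    ring
  rw [h]
  exact euclid_le_alphaDim (j + j) j (by omega) (by omega)

end Pool.MinMax.Odd
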