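import Pool.Agent.Work.MP_9667ca_an.Odd.Defs

/-!
# MP_9667ca_an (all dimensions), module NORMDER: the derivative of the norm

All facts are elementary; `E` is a finite-dimensional complex normed space.

* `norm_theta_le`: `‖extendRCLike f‖ = ‖f‖` (`StrongDual.norm_extendRCLike`) and
  `norm_fderiv_le_of_lipschitz` with `lipschitzWith_one_norm`.
* `re_theta`, `im_theta`: `StrongDual.re_extendRCLike_apply`, `StrongDual.im_extendRCLike_apply`.
* `theta_self_ae`: the norm is Lipschitz, hence a.e. differentiable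
  (`LipschitzWith.ae_differentiableAt`, Rademacher). At a point of differentiability the real part
  of `theta x x` is `‖x‖` (`DifferentiableAt.fderiv_norm_self`), and the imaginary part is
  `- fderiv ℝ ‖·‖ x (I • x) = 0`, since `t ↦ ‖x + t • (I • x)‖ = |1 + t I| ‖x‖ = √(1 + t²) ‖x‖`
  has derivative `0` at `t = 0`.
* `measurable_theta`: `measurable_fderiv_apply_const` and `extendRCLike_apply`.
* `lipschitz_wt`: `t ↦ max 0 (1 - t²)` on `[0, ∞)` is `2`-Lipschitz: for `0 ≤ s ≤ t`:
  if `s ≥ 1` both values are `0`; if `t ≤ 1`: `t² - s² = (t - s)(t + s) ≤ 2 (t - s)`; if `s < 1 < t`: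
  `1 - s² = (1-s)(1+s) ≤ 2 (1 - s) ≤ 2 (t - s)`. Compose with the norm.
* `lineDeriv_wt_ae`: at a.e. `x` the norm is differentiable and `‖x‖ ≠ 1`
  (`MeasureTheory.Measure.addHaar_sphere`); near `x` with `‖x‖ < 1`, `wt = 1 - ‖·‖²`; near `x` with
  `‖x‖ > 1`, `wt = 0`.
-/

namespace Pool.MinMax.Odd

open MeasureTheory Metric

variable {E : Type*} [NormedAddCommGroup E] [NormedSpace ℂ E]

theorem norm_theta_le (x : E) : ‖theta x‖ ≤ 1 := by
  unfold theta
  rw [StrongDual.norm_extendRCLike]
  have h := norm_fderiv_le_of_lipschitz ℝ (x₀ := x) (lipschitzWith_one_norm (E := E))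
  simpa using h

theorem re_theta (x h : E) : (theta x h).re = fderiv ℝ (fun y : E => ‖y‖) x h := by
  unfold theta
  exact StrongDual.re_extendRCLike_apply (𝕜 := ℂ) (fderiv ℝ (fun y : E => ‖y‖) x) h

theorem im_theta (x h : E) :
    (theta x h).im = - fderiv ℝ (fun y : E => ‖y‖) x (Complex.I • h) := by
  unfold theta
  exact StrongDual.im_extendRCLike_apply (𝕜 := ℂ) (fderiv ℝ (fun y : E => ‖y‖) x) h

private theorem normder_max {s t : ℝ} (hs : 0 ≤ s) (hst : s ≤ t) :
    |max 0 (1 - s ^ 2) - max 0 (1 - t ^ 2)| ≤ 2 * (t - s) := by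
  rcases le_total 1 s with h1 | h1
  · rw [max_eq_left (by nlinarith), max_eq_left (by nlinarith), sub_zero, abs_zero]
    linarith
  · rw [max_eq_right (show (0 : ℝ) ≤ 1 - s ^ 2 by nlinarith)]
    rcases le_total 1 t with h2 | h2
    · rw [max_eq_left (by nlinarith), sub_zero, abs_of_nonneg (by nlinarith)]
      nlinarith
    · rw [max_eq_right (by nlinarith), abs_of_nonneg (by nlinarith)]
      nlinarith

theorem lipschitz_wt : LipschitzWith 2 (wt : E → ℝ) := by
  refine LipschitzWith.of_dist_le_mul fun x y => ?_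
  have h3 : ‖x‖ - ‖y‖ ≤ dist x y := by
    rw [dist_eq_norm]
    exact norm_sub_norm_le x y
  have h4 : ‖y‖ - ‖x‖ ≤ dist x y := by
    rw [dist_comm, dist_eq_norm]
    exact norm_sub_norm_le y x
  rw [Real.dist_eq]
  unfold wt
  change _ ≤ 2 * dist x y
  rcases le_total ‖x‖ ‖y‖ with h | h
  · have h1 := normder_max (norm_nonneg x) h
    linarith
  · have h1 := normder_max (norm_nonneg y) h
    rw [abs_sub_comm]
    linarith

variable [FiniteDimensional ℂ E]

theorem hasCompactSupport_wt : HasCompactSupport (wt : E → ℝ) := by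
  have hprop : ProperSpace E := FiniteDimensional.proper ℂ E
  refine HasCompactSupport.of_support_subset_isCompact (isCompact_closedBall (0 : E) 1) ?_
  intro x hx
  rw [mem_closedBall_zero_iff]
  by_contra hcon
  apply hx
  unfold wt
  rw [max_eq_left]
  have : 1 < ‖x‖ := not_le.1 hcon
  nlinarith

variable [MeasurableSpace E] [BorelSpace E] {μ : Measure E} [μ.IsAddHaarMeasure]

theorem measurable_theta (h : E) : Measurable fun x : E => theta x h := by
  have h1 : ∀ v : E, Measurable fun x : E => fderiv ℝ (fun y : E => ‖y‖) x v := fun v =>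
    measurable_fderiv_apply_const ℝ (fun y : E => ‖y‖) v
  have h2 : (fun x : E => theta x h) = fun x =>
      ((fderiv ℝ (fun y : E => ‖y‖) x h : ℝ) : ℂ) -
        Complex.I * ((fderiv ℝ (fun y : E => ‖y‖) x (Complex.I • h) : ℝ) : ℂ) := by
    funext x
    unfold theta
    exact StrongDual.extendRCLike_apply (𝕜 := ℂ) (fderiv ℝ (fun y : E => ‖y‖) x) h
  rw [h2]
  exact (Complex.measurable_ofReal.comp (h1 h)).sub
    ((Complex.measurable_ofReal.comp (h1 (Complex.I • h))).const_mul _)

omit [FiniteDimensional ℂ E] [MeasurableSpace E] [BorelSpace E] in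
private theorem normder_self {x : E} (h : DifferentiableAt ℝ (fun y : E => ‖y‖) x) :
    theta x x = (‖x‖ : ℂ) := by
  apply Complex.ext
  · rw [re_theta, Complex.ofReal_re]
    exact h.fderiv_norm_self
  · rw [im_theta, Complex.ofReal_im, neg_eq_zero]
    have h1 : HasDerivAt (fun t : ℝ => ‖x + t • (Complex.I • x)‖)
        (fderiv ℝ (fun y : E => ‖y‖) x (Complex.I • x)) 0 :=
      h.hasFDerivAt.hasLineDerivAt (Complex.I • x)
    have h2 : (fun t : ℝ => ‖x + t • (Complex.I • x)‖) = fun t => √(1 + t ^ 2) * ‖x‖ := by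
      funext t
      have h3 : x + t • (Complex.I • x) = ((1 : ℂ) + t * Complex.I) • x := by
        rw [add_smul, one_smul, mul_smul]
        rfl
      rw [h3, norm_smul]
      congr 1
      rw [Complex.norm_def, Complex.normSq_apply]
      simp
      ring_nf
    have h3 : HasDerivAt (fun t : ℝ => √(1 + t ^ 2) * ‖x‖) 0 0 := by
      have h4 : HasDerivAt (fun t : ℝ => 1 + t ^ 2) 0 0 := by
        have h5 := (hasDerivAt_pow 2 (0 : ℝ)).const_add 1
        simpa using h5
      have h5 := (h4.sqrt (by norm_num)).mul_const ‖x‖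
      simpa using h5
    rw [h2] at h1
    exact h1.unique h3

theorem theta_self_ae : ∀ᵐ x ∂μ, theta x x = (‖x‖ : ℂ) := by
  have h1 : ∀ᵐ x ∂μ, DifferentiableAt ℝ (fun y : E => ‖y‖) x :=
    (lipschitzWith_one_norm (E := E)).ae_differentiableAt
  filter_upwards [h1] with x hx
  exact normder_self hx

theorem lineDeriv_wt_ae (v : E) : ∀ᵐ x ∂μ, lineDeriv ℝ (wt : E → ℝ) x v =
    (ball (0 : E) 1).indicator (fun x => - (2 * ‖x‖ * fderiv ℝ (fun y : E => ‖y‖) x v)) x := by
  have h1 : ∀ᵐ x ∂μ, DifferentiableAt ℝ (fun y : E => ‖y‖) x :=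
    (lipschitzWith_one_norm (E := E)).ae_differentiableAt
  have h2 : ∀ᵐ x ∂μ, x ∉ sphere (0 : E) 1 :=
    measure_eq_zero_iff_ae_notMem.1 (Measure.addHaar_sphere_of_ne_zero μ (0 : E) one_ne_zero)
  filter_upwards [h1, h2] with x hx hx1
  rw [mem_sphere_zero_iff_norm] at hx1
  rcases lt_or_gt_of_ne hx1 with h | h
  · rw [Set.indicator_of_mem (by simpa using h)]
    have h3 : (wt : E → ℝ) =ᶠ[nhds x] fun y => 1 - ‖y‖ ^ 2 := by
      have h4 : ∀ᶠ y in nhds x, ‖y‖ < 1 := continuous_norm.continuousAt.eventually_lt_const h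
      filter_upwards [h4] with y hy
      unfold wt
      rw [max_eq_right]
      have := norm_nonneg y
      nlinarith
    have h5 : HasFDerivAt (fun y : E => 1 - ‖y‖ ^ 2)
        (-((2 * ‖x‖) • fderiv ℝ (fun y : E => ‖y‖) x)) x := by
      have h6 := (hx.hasFDerivAt.pow 2).const_sub 1
      simpa using h6
    rw [h3.lineDeriv_eq, h5.differentiableAt.lineDeriv_eq_fderiv, h5.fderiv]
    simp
  · rw [Set.indicator_of_notMem (by simpa using h.le)]
    have h3 : (wt : E → ℝ) =ᶠ[nhds x] fun _ => 0 := by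
      have h4 : ∀ᶠ y in nhds x, 1 < ‖y‖ := continuous_norm.continuousAt.eventually_const_lt h
      filter_upwards [h4] with y hy
      unfold wt
      rw [max_eq_left]
      nlinarith
    rw [h3.lineDeriv_eq]
    simp [lineDeriv]

end Pool.MinMax.Odd
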