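import Pool.Agent.Work.MP_9667ca_an.Odd.Core

/-!
# MP_9667ca_an (all dimensions), module UPPER: `c ≤ (n + 1) / 2`

* `int_pos`: for a linear `F : E → K` with `F (e i) ≠ 0` for some `i`,
  `0 < ∫_{‖x‖<1} (1 - ‖x‖²) ‖F x‖²`: the integrand is continuous and nonnegative on the open ball and
  positive at `x = t • e i` with small real `t > 0` (`t ‖e i‖ < 1`, `F (t • e i) = t • F (e i)`). Use e.g.
  `MeasureTheory.setIntegral_pos_iff_support_of_nonneg_ae` or
  `Continuous.integral_pos_of_hasCompactSupport_nonneg_nonzero` for the continuous, compactly supported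
  function `wt x * ‖F x‖ ^ 2` (continuous by `lipschitz_wt`), whose integral is the integral over the
  ball (the weight vanishes outside the ball and is `1 - ‖x‖²` inside).
* `dat_le`: from `core`: `0 ≤ ∫ D ≤ (n + 1 - 2 c) ∫ (1 - ‖x‖²) ‖F‖²` and the last integral is positive.
  If `c ≤ 0` the claim is trivial. The measurable structure on `E`: `borel E`, the measure
  `MeasureTheory.Measure.addHaar`.
-/

namespace Pool.MinMax.Odd

open MeasureTheory Metric ContinuousLinearMap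

variable {E : Type*} [NormedAddCommGroup E] [NormedSpace ℂ E] [FiniteDimensional ℂ E]
  {K : Type*} [NormedAddCommGroup K] [InnerProductSpace ℂ K]

theorem int_pos [MeasurableSpace E] [BorelSpace E] {μ : Measure E} [μ.IsAddHaarMeasure]
    {n : ℕ} {e : Module.Basis (Fin n) ℂ E} (F : E →ₗ[ℂ] K) (hF : ∃ i, F (e i) ≠ 0) :
    0 < ∫ x in ball (0 : E) 1, (1 - ‖x‖ ^ 2) * ‖F x‖ ^ 2 ∂μ := by
  have hFc : Continuous F := F.continuous_of_finiteDimensional
  have hwc : Continuous (wt : E → ℝ) := lipschitz_wt.continuous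
  have hcont : Continuous fun x : E => wt x * ‖F x‖ ^ 2 := by fun_prop
  have hcs : HasCompactSupport fun x : E => wt x * ‖F x‖ ^ 2 := hasCompactSupport_wt.mul_right
  have hnn : ∀ x : E, 0 ≤ wt x * ‖F x‖ ^ 2 := fun x =>
    mul_nonneg (le_max_left _ _) (sq_nonneg _)
  have heq : ∫ x in ball (0 : E) 1, (1 - ‖x‖ ^ 2) * ‖F x‖ ^ 2 ∂μ = ∫ x, wt x * ‖F x‖ ^ 2 ∂μ := by
    have h1 : ∫ x in ball (0 : E) 1, (1 - ‖x‖ ^ 2) * ‖F x‖ ^ 2 ∂μ =
        ∫ x in ball (0 : E) 1, wt x * ‖F x‖ ^ 2 ∂μ := by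
      refine setIntegral_congr_fun measurableSet_ball fun x hx => ?_
      have hx' : ‖x‖ < 1 := by simpa using hx
      have h2 : wt x = 1 - ‖x‖ ^ 2 := by
        unfold wt
        apply max_eq_right
        nlinarith [norm_nonneg x]
      simp only [h2]
    rw [h1]
    refine setIntegral_eq_integral_of_forall_compl_eq_zero fun x hx => ?_
    have hx' : 1 ≤ ‖x‖ := by simpa using hx
    have h2 : wt x = 0 := by
      unfold wt
      apply max_eq_left
      nlinarith [norm_nonneg x]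
    rw [h2, zero_mul]
  rw [heq]
  obtain ⟨i, hi⟩ := hF
  have hei : e i ≠ 0 := e.ne_zero i
  have hni : 0 < ‖e i‖ := norm_pos_iff.2 hei
  have hx0 : ∃ x₀ : E, wt x₀ * ‖F x₀‖ ^ 2 ≠ 0 := by
    refine ⟨(((1 / (2 * ‖e i‖) : ℝ) : ℂ)) • e i, ?_⟩
    have h1 : ‖(((1 / (2 * ‖e i‖) : ℝ) : ℂ)) • e i‖ = 1 / 2 := by
      rw [norm_smul, Complex.norm_real, Real.norm_eq_abs, abs_of_pos (by positivity)]
      field_simp
    have h2 : wt ((((1 / (2 * ‖e i‖) : ℝ) : ℂ)) • e i) ≠ 0 := by
      unfold wt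
      rw [h1]
      norm_num
    refine mul_ne_zero h2 (pow_ne_zero 2 (norm_ne_zero_iff.2 ?_))
    rw [map_smul]
    refine smul_ne_zero ?_ hi
    have : (1 / (2 * ‖e i‖) : ℝ) ≠ 0 := by positivity
    exact_mod_cast this
  obtain ⟨x₀, hx₀⟩ := hx0
  exact hcont.integral_pos_of_hasCompactSupport_nonneg_nonzero hcs hnn hx₀

theorem dat_le [CompleteSpace K] [FiniteDimensional ℂ K]
    {L : Type*} [NormedAddCommGroup L] [InnerProductSpace ℂ L] [CompleteSpace L]
    {n : ℕ} {e : Module.Basis (Fin n) ℂ E} {c : ℝ} (d : Dat e K L c) : c ≤ (n + 1) / 2 := by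
  rcases le_or_gt c 0 with hc | hc
  · have : (0 : ℝ) ≤ (n + 1) / 2 := by positivity
    linarith
  let _ : MeasurableSpace E := borel E
  have _ : BorelSpace E := ⟨rfl⟩
  obtain ⟨F, D, hF, -, hD0, -, hle⟩ := core (μ := Measure.addHaar) hc d
  have h1 : 0 ≤ ∫ x in ball (0 : E) 1, D x ∂Measure.addHaar :=
    setIntegral_nonneg measurableSet_ball hD0
  have h2 := int_pos (μ := Measure.addHaar) (e := e) F hF
  by_contra hcon
  have h3 : (n + 1 - 2 * c : ℝ) < 0 := by linarith [not_le.1 hcon]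
  have h4 := mul_neg_of_neg_of_pos h3 h2
  linarith

end Pool.MinMax.Odd
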